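import Pool.Agent.Lib.MP_1a91b9_nuE.Ck

/-!
# The class `CD` for the nine invariants: the two remaining cases and the summary
-/

set_option autoImplicit false

namespace Pool.Agent.Lib.MP_1a91b9_nuE

open NumberField Polynomial Pool.Agent.Lib.MP_1a91b9_nuT
open Pool.Agent.Lib.MP_1a91b9_nuX.UF

noncomputable section

/-- The multiplication by a unit. -/
theorem hasCD_unit {tr : ℤ} {k : ℕ} (hg : Good tr 1 k) {A B J : ℤ}
    (h : 4 * A ^ 3 + 27 * B ^ 2 ≠ 0)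
    (hj : 6912 * A ^ 3 = J * (4 * A ^ 3 + 27 * B ^ 2)) (hO : HasOm tr 1 hg.pos A B)
    (h4 : (A : ℂ) * tt tr 1 ^ 4 = A) (h6 : (B : ℂ) * tt tr 1 ^ 6 = B) :
    HasCD tr 1 hg.pos A B := by
  obtain ⟨Om, hOm, e2, e3⟩ := hO
  have hpid : IsPrincipalIdealRing (𝓞 (KK tr 1 hg.pos)) := pid_KK hg
  have hpt : ph (embKK tr 1 hg.pos) (taK tr 1 hg.pos) = tt tr 1 := rfl
  have hquad : taK tr 1 hg.pos ^ 2 = (tr : 𝓞 (KK tr 1 hg.pos)) * taK tr 1 hg.pos -
      ((1 : ℕ) : 𝓞 (KK tr 1 hg.pos)) := by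
    rw [quad_KK hg.pos]
    push_cast
    rfl
  have ht2 : (C (tt tr 1 ^ 2) : ℂ[X]).leadingCoeff = tt tr 1 ^ 2 := leadingCoeff_C _
  have hid : (X ^ 3 + C (A : ℂ) * X + C (B : ℂ)) *
      (derivative (X : ℂ[X]) * C (tt tr 1 ^ 2) - X * derivative (C (tt tr 1 ^ 2))) ^ 2 =
    C (tt tr 1 ^ 2) * C (tt tr 1 ^ 2) * (X ^ 3 + C (A : ℂ) * X * C (tt tr 1 ^ 2) ^ 2 +
      C (B : ℂ) * C (tt tr 1 ^ 2) ^ 3) := by
    have c4 : C (A : ℂ) * C (tt tr 1 ^ 2) ^ 2 = (C (A : ℂ) : ℂ[X]) := by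
      rw [← C_pow, ← C_mul, ← pow_mul, h4]
    have c6 : C (B : ℂ) * C (tt tr 1 ^ 2) ^ 3 = (C (B : ℂ) : ℂ[X]) := by
      rw [← C_pow, ← C_mul, ← pow_mul, h6]
    rw [derivative_X, derivative_C]
    linear_combination (-(C (tt tr 1 ^ 2) ^ 2 * X)) * c4 - (C (tt tr 1 ^ 2) ^ 2) * c6
  obtain ⟨c, e, a1, a2, a3, a4, a5, a6, a7⟩ := exists_CDp (KK tr 1 hg.pos)
    (embKK tr 1 hg.pos) (taK tr 1 hg.pos) (gen_KK hg) (im_KK hg.pos) tr 1 hquad
    A B h ⟨J, by rw [hj, mul_comm]⟩ Om hOm e2 e3 X (C (taK tr 1 hg.pos ^ 2)) monic_X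
    natDegree_X (by rw [natDegree_C]) (leadingCoeff_C _)
    (fun i hi => by
      rw [coeff_X, if_neg (by omega)]
      exact dvd_zero _)
    (fun i hi => by omega) (fun z hz hz' => by
      have key := MP_1a91b9_nuE.scaled_mulx (A := (A : ℂ)) (B := (B : ℂ)) (t := tt tr 1)
        (tt_ne hg.pos)
        (pow_ne_zero 2 hOm) (L := mkPP (embKK tr 1 hg.pos (taK tr 1 hg.pos : KK tr 1 hg.pos))
          (im_KK hg.pos)) (by
          rw [e2]
          ring) (by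
          rw [e3]
          ring) monic_X ht2 (by rw [natDegree_X, natDegree_C]) hid z hz hz'
      rw [Polynomial.map_C, Polynomial.map_X, map_pow, hpt]
      exact key)
  have e1 : ((1 : ℕ) : ℤ) = 1 := rfl
  rw [e1] at a3 a7
  exact ⟨1, one_ne_zero, c, e, by rw [a1, one_pow, one_mul], by rw [a2, one_pow, one_mul],
    by rw [a3], fun p _ hd => by rwa [a3] at hd, fun x => a4 x, a5, a6, a7⟩

theorem hasCD3 {A B : ℤ} (h : 4 * A ^ 3 + 27 * B ^ 2 ≠ 0)
    (hj : 6912 * A ^ 3 = 0 * (4 * A ^ 3 + 27 * B ^ 2)) : HasCD 1 1 good3.pos A B := by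
  have hA : A = 0 := by
    rw [zero_mul] at hj
    have h1 : A ^ 3 = 0 := by linarith
    exact pow_eq_zero_iff (three_ne_zero) |>.mp h1
  refine hasCD_unit good3 h hj (hasOm3 h hj) ?_ ?_
  · rw [hA]
    push_cast
    ring
  · have ht := tt_sq good3.pos
    have h6 : tt 1 1 ^ 6 = 1 := by
      push_cast at ht
      linear_combination (tt 1 1 ^ 4 + tt 1 1 ^ 3 - tt 1 1 - 1) * ht
    rw [h6, mul_one]

theorem hasCD4 {A B : ℤ} (h : 4 * A ^ 3 + 27 * B ^ 2 ≠ 0)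
    (hj : 6912 * A ^ 3 = 1728 * (4 * A ^ 3 + 27 * B ^ 2)) : HasCD 0 1 good4.pos A B := by
  have hB : B = 0 := by
    have h1 : B ^ 2 = 0 := by linarith
    exact pow_eq_zero_iff (two_ne_zero) |>.mp h1
  refine hasCD_unit good4 h hj (hasOm4 h hj) ?_ ?_
  · have ht := tt_sq good4.pos
    have h6 : tt 0 1 ^ 4 = 1 := by
      push_cast at ht
      linear_combination (tt 0 1 ^ 2 - 1) * ht
    rw [h6, mul_one]
  · rw [hB]
    push_cast
    ring

/-- **The class `CD` for the nine invariants with an explicit bad number.** -/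
theorem exists_cdE {A B J : ℤ} (h : 4 * A ^ 3 + 27 * B ^ 2 ≠ 0)
    (hj : 6912 * A ^ 3 = J * (4 * A ^ 3 + 27 * B ^ 2)) (hJ : J ∈ jList.map Prod.fst) :
    ∃ (tr nm : ℤ) (k : ℕ) (hg : Good tr nm k), (J, tr, nm) ∈ jList ∧ HasCD tr nm hg.pos A B := by
  simp only [jList, List.map_cons, List.map_nil, List.mem_cons, List.not_mem_nil, or_false] at hJ
  rcases hJ with rfl | rfl | rfl | rfl | rfl | rfl | rfl | rfl | rfl
  · exact ⟨1, 1, _, good3, by simp [jList], hasCD3 h (by linear_combination hj)⟩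
  · exact ⟨0, 1, _, good4, by simp [jList], hasCD4 h (by linear_combination hj)⟩
  · exact ⟨1, 2, _, good7, by simp [jList], hasCD7 h (by linear_combination hj)⟩
  · exact ⟨0, 2, _, good8, by simp [jList], hasCD8 h (by linear_combination hj)⟩
  · exact ⟨1, 3, _, good11, by simp [jList], hasCD11 h (by linear_combination hj)⟩
  · exact ⟨1, 5, _, good19, by simp [jList], hasCD19 h (by linear_combination hj)⟩
  · exact ⟨1, 11, _, good43, by simp [jList], hasCD43 h (by linear_combination hj)⟩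
  · exact ⟨1, 17, _, good67, by simp [jList], hasCD67 h (by linear_combination hj)⟩
  · exact ⟨1, 41, _, good163, by simp [jList], hasCD163 h (by linear_combination hj)⟩

end

end Pool.Agent.Lib.MP_1a91b9_nuE
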