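import Pool.Agent.Lib.MP_1a91b9_nuX.DG.Ab

/-!
# The modulus of the base field: the prime divisors
-/

set_option autoImplicit false

namespace Pool.Agent.Lib.MP_1a91b9_nuE

variable [Pool.Agent.Lib.MP_1a91b9_nuT.CD]

open NumberField IsDedekindDomain WeierstrassCurve Pool.Agent.Lib.MP_1a91b9_nuT
open Pool.Agent.Lib.MP_1a91b9_nuX
open Pool.Agent.Lib.MP_1a91b9_nuX.DB Pool.Agent.Lib.MP_1a91b9_nuX.DG

noncomputable section

/-- the annihilator of a torsion point -/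
private theorem abe_ann {L : Type} [Field L] [Algebra K L] [DecidableEq L] {T : Pt L} {n : ℕ}
    (hn : n ≠ 0) (h : n • T = 0) : ∃ ν : 𝓞 K, ν ≠ 0 ∧ ν ∣ (n : 𝓞 K) ∧ Ord ν T := by
  let I : Ideal (𝓞 K) :=
    { carrier := {a | sm L a T = 0}
      add_mem' := fun {a b} ha hb => by
        change sm L (a + b) T = 0
        have ha' : sm L a T = 0 := ha
        have hb' : sm L b T = 0 := hb
        rw [map_add]
        change sm L a T + sm L b T = 0
        rw [ha', hb', add_zero]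
      zero_mem' := by
        change sm L 0 T = 0
        rw [map_zero]
        rfl
      smul_mem' := fun c a ha => by
        change sm L (c * a) T = 0
        have ha' : sm L a T = 0 := ha
        rw [← sm_sm, ha', map_zero] }
  have hI : ∀ a, a ∈ I ↔ sm L a T = 0 := fun a => Iff.rfl
  obtain ⟨ν, hν⟩ := (IsPrincipalIdealRing.principal I).principal
  have hν' : ∀ a, a ∈ I ↔ ν ∣ a := by
    intro a
    rw [hν, Ideal.submodule_span_eq, Ideal.mem_span_singleton]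
  have h1 : ((n : ℕ) : 𝓞 K) ∈ I := by
    rw [hI, sm_nat, h]
  have h2 := (hν' _).1 h1
  refine ⟨ν, ?_, h2, fun c => by rw [← hI, hν']⟩
  rintro rfl
  rw [zero_dvd_iff] at h2
  exact hn (by exact_mod_cast h2)

theorem exists_md1 [HC] {m : 𝓞 K} (hm : m ≠ 0) : Md (m * bO * HC.f) := by
  have hb0 : (bO : 𝓞 K) ≠ 0 := by
    show ((CD.bad : ℤ) : 𝓞 K) ≠ 0
    rw [Ne, Int.cast_eq_zero]
    exact CD.bad_ne
  refine ⟨mul_ne_zero (mul_ne_zero hm hb0) HC.hd.ne, fun P hP => ?_, fun a ha => ?_,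
    fun h2 => ?_⟩
  · exact P.asIdeal.mul_mem_right _ (P.asIdeal.mul_mem_left _ hP)
  · exact HC.hd.ray a ((dvd_mul_left _ _).trans ha)
  · obtain ⟨r, hr, hrf⟩ := HC.hd.big
    obtain ⟨c, hc⟩ := (hrf.trans (dvd_mul_left _ _)).trans h2
    obtain ⟨x, y, rfl⟩ := exists_coords c
    have e : ((2 : ℤ) : 𝓞 K) + ((0 : ℤ) : 𝓞 K) * ta = ((r * x : ℤ) : 𝓞 K) + ((r * y : ℤ) : 𝓞 K) * ta := by
      push_cast
      linear_combination hc
    obtain ⟨h1, -⟩ := coords_inj e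
    have h3 : (r : ℤ) ∣ 2 := ⟨x, h1⟩
    have h4 := Int.le_of_dvd two_pos h3
    omega

/-- a base field contained in the field generated by a torsion point of order dividing `n` -/
theorem exists_ab1 [HC] (F₀ : Type) [Field F₀] [NumberField F₀] [Algebra K F₀]
    {L : Type} [Field L] [NumberField L] [Algebra K L] [Algebra F₀ L]
    [IsScalarTower K F₀ L] [DecidableEq L] {T₀ : Pt L} {n : ℕ} (hn : n ≠ 0) (hT : n • T₀ = 0)
    (hgen : IntermediateField.adjoin K {xc T₀, yc T₀} = ⊤) :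
    ∃ (μ : 𝓞 K) (_ : Md μ) (H : Subgroup (CU μ)) (L' : Type) (_ : Field L')
      (_ : NumberField L') (_ : Algebra K L') (_ : Algebra F₀ L') (_ : IsScalarTower K F₀ L')
      (_ : DecidableEq L') (J : Pt L'), AB H F₀ L' J ∧
      ∀ P : HeightOneSpectrum (𝓞 K), μ ∈ P.asIdeal → ((n * CD.bad : ℤ) : 𝓞 K) ∈ P.asIdeal := by
  obtain ⟨m, hm0, hmn, hm⟩ := abe_ann hn hT
  obtain ⟨μ, hμ⟩ : ∃ μ : 𝓞 K, μ = m * bO * HC.f := ⟨_, rfl⟩
  have hM : Md μ := by
    rw [hμ]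
    exact exists_md1 hm0
  have hmk : m ∣ μ := by
    rw [hμ]
    exact (dvd_mul_right m bO).trans (dvd_mul_right _ _)
  obtain ⟨L1, i1, i2, i3, i4, R, hG, hR, -, hg⟩ := exists_tf hM.ne
  obtain ⟨f⟩ := emb_tf hM.ne hmk ((hm m).2 dvd_rfl) hgen hR
  let f0 : F₀ →+* L1 := (f : L →+* L1).comp (algebraMap F₀ L)
  letI a1 : Algebra F₀ L1 := f0.toAlgebra
  have t1 : IsScalarTower K F₀ L1 := IsScalarTower.of_algebraMap_eq fun x => by
    change algebraMap K L1 x = f (algebraMap F₀ L (algebraMap K F₀ x))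
    rw [← IsScalarTower.algebraMap_apply K F₀ L, f.commutes]
  obtain ⟨H, hH⟩ := exists_sub F₀ hM.ne hR hg
  refine ⟨μ, hM, H, L1, i1, i2, i3, a1, t1, i4, R, hH, fun P hP => ?_⟩
  have e : ((n * CD.bad : ℤ) : 𝓞 K) = (n : 𝓞 K) * ((CD.bad : ℤ) : 𝓞 K) := by
    push_cast
    ring
  rw [e]
  rw [hμ] at hP
  rcases P.isPrime.mem_or_mem hP with h1 | h1
  · rcases P.isPrime.mem_or_mem h1 with h2 | h2
    · obtain ⟨c, hc⟩ := hmn
      rw [hc]
      exact P.asIdeal.mul_mem_right _ (P.asIdeal.mul_mem_right _ h2)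
    · exact P.asIdeal.mul_mem_left _ h2
  · exact P.asIdeal.mul_mem_left _ (HC.hd.good P h1)

end

end Pool.Agent.Lib.MP_1a91b9_nuE
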