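import Pool.Agent.Lib.MP_1a91b9_nuE.Cp
import Pool.Agent.Lib.MP_1a91b9_nuT.Mult.Inst

/-!
# The class `CD` from explicit multiplication polynomials
-/

set_option autoImplicit false

namespace Pool.Agent.Lib.MP_1a91b9_nuE

open NumberField Polynomial Pool.Agent.Lib.MP_1a91b9_nuT
open Pool.Agent.Lib.MP_1a91b9_nuT.Mult

noncomputable section

/-- the complex embedding of the integers -/
def ph {K : Type} [Field K] [NumberField K] (emb : K →ₐ[ℚ] ℂ) : 𝓞 K →+* ℂ :=
  emb.toRingHom.comp (algebraMap (𝓞 K) K)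

theorem ph_inj {K : Type} [Field K] [NumberField K] (emb : K →ₐ[ℚ] ℂ) :
    Function.Injective (ph emb) :=
  emb.toRingHom.injective.comp RingOfIntegers.coe_injective

/-- The class `CD` for the curve with the coefficients `A`, `B` from the multiplication
polynomials. -/
theorem exists_CDp (K : Type) [Field K] [NumberField K] [IsPrincipalIdealRing (𝓞 K)]
    (emb : K →ₐ[ℚ] ℂ)
    (ta : 𝓞 K) (gen : ∀ a : 𝓞 K, ∃ m n : ℤ, a = (m : 𝓞 K) + (n : 𝓞 K) * ta)
    (im : (emb (ta : K)).im ≠ 0) (tr : ℤ) (n : ℕ)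
    (quad : ta ^ 2 = (tr : 𝓞 K) * ta - (n : 𝓞 K))
    (A B : ℤ) (disc : 4 * A ^ 3 + 27 * B ^ 2 ≠ 0)
    (jint : 4 * A ^ 3 + 27 * B ^ 2 ∣ 6912 * A ^ 3) (Om : ℂ) (Om_ne : Om ≠ 0)
    (g2 : (mkPP (emb (ta : K)) im).g₂ = -4 * (A : ℂ) * Om ^ 4)
    (g3 : (mkPP (emb (ta : K)) im).g₃ = -4 * (B : ℂ) * Om ^ 6)
    (Nt Dt : (𝓞 K)[X]) (hN : Nt.Monic) (hNd : Nt.natDegree = n) (hDd : Dt.natDegree + 1 = n)
    (hD : Dt.leadingCoeff = ta ^ 2)
    (hNc : ∀ i < n, ta ^ 3 ∣ Nt.coeff i) (hDc : ∀ i, i + 1 < n → ta ^ 3 ∣ Dt.coeff i)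
    (hrel : ∀ z, z ∉ (mkPP (emb (ta : K)) im).lattice →
      emb (ta : K) * z ∉ (mkPP (emb (ta : K)) im).lattice →
      (Nt.map (ph emb)).eval ((mkPP (emb (ta : K)) im).weierstrassP z / Om ^ 2) =
        (mkPP (emb (ta : K)) im).weierstrassP (emb (ta : K) * z) / Om ^ 2 *
          (Dt.map (ph emb)).eval ((mkPP (emb (ta : K)) im).weierstrassP z / Om ^ 2)) :
    ∃ (c : CD) (e : K ≃+* c.K), c.A = A ∧ c.B = B ∧
      c.bad = 6 * (4 * A ^ 3 + 27 * B ^ 2) * n * (tr ^ 2 - 4 * n) ∧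
      (∀ x, c.emb (e x) = emb x) ∧ e (ta : K) = (c.ta : c.K) ∧ c.tr = tr ∧ c.nm = n := by
  have hqC : emb (ta : K) ^ 2 = tr * emb (ta : K) - (n : ℂ) := by
    have h1 := congrArg (fun x : 𝓞 K => emb (x : K)) quad
    simp only [map_pow, map_sub, map_mul, map_intCast, map_natCast] at h1
    exact h1
  have hqC' : emb (ta : K) ^ 2 = tr * emb (ta : K) - ((n : ℤ) : ℂ) := by
    rw [hqC]
    push_cast
    rfl
  have hnm := Mult.nm_pos im hqC'
  have hcopC : IsCoprime (Nt.map (ph emb)) (Dt.map (ph emb)) :=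
    cop_of_rel (tr := tr) (n := n) im hqC Om_ne (hN.map _)
      (by rw [hN.natDegree_map, hNd]) hrel
  have hcop : IsCoprime (Nt.map (algebraMap (𝓞 K) K)) (Dt.map (algebraMap (𝓞 K) K)) := by
    rw [← isCoprime_map emb.toRingHom, Polynomial.map_map, Polynomial.map_map]
    exact hcopC
  have hquad : ta ^ 2 = (tr : 𝓞 K) * ta - (((n : ℕ) : ℤ) : 𝓞 K) := by
    rw [quad]
    push_cast
    rfl
  have hNlo : ∃ N₁ : (𝓞 K)[X], Nt = X ^ Nt.natDegree + C (ta ^ 3) * N₁ := by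
    have h1 : C (ta ^ 3) ∣ Nt - X ^ n := by
      rw [C_dvd_iff_dvd_coeff]
      intro i
      rw [coeff_sub, coeff_X_pow]
      rcases lt_trichotomy i n with h2 | h2 | h2
      · rw [if_neg h2.ne, sub_zero]
        exact hNc i h2
      · rw [if_pos h2, h2, ← hNd, hN.coeff_natDegree, sub_self]
        exact dvd_zero _
      · rw [if_neg h2.ne', sub_zero, coeff_eq_zero_of_natDegree_lt (by rw [hNd]; exact h2)]
        exact dvd_zero _
    obtain ⟨N₁, h2⟩ := h1
    refine ⟨N₁, ?_⟩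
    rw [hNd, ← h2]
    ring
  have hDlo : ∃ D₁ : (𝓞 K)[X], Dt = C (ta ^ 2) * X ^ Dt.natDegree + C (ta ^ 3) * D₁ := by
    have h1 : C (ta ^ 3) ∣ Dt - C (ta ^ 2) * X ^ Dt.natDegree := by
      rw [C_dvd_iff_dvd_coeff]
      intro i
      rw [coeff_sub, coeff_C_mul, coeff_X_pow]
      rcases lt_trichotomy i Dt.natDegree with h2 | h2 | h2
      · rw [if_neg h2.ne, mul_zero, sub_zero]
        exact hDc i (by omega)
      · rw [if_pos h2, h2, mul_one, ← hD, leadingCoeff, sub_self]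
        exact dvd_zero _
      · rw [if_neg h2.ne', mul_zero, sub_zero, coeff_eq_zero_of_natDegree_lt h2]
        exact dvd_zero _
    obtain ⟨D₁, h2⟩ := h1
    refine ⟨D₁, ?_⟩
    rw [← h2]
    ring
  have hmulx : ∀ z : ℂ, z ∉ (mkPP (emb (ta : K)) im).lattice →
      emb (ta : K) * z ∉ (mkPP (emb (ta : K)) im).lattice →
      Polynomial.eval₂ (emb.toRingHom.comp (algebraMap (𝓞 K) K))
        ((mkPP (emb (ta : K)) im).weierstrassP z / Om ^ 2) Nt =
      (mkPP (emb (ta : K)) im).weierstrassP (emb (ta : K) * z) / Om ^ 2 *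
        Polynomial.eval₂ (emb.toRingHom.comp (algebraMap (𝓞 K) K))
          ((mkPP (emb (ta : K)) im).weierstrassP z / Om ^ 2) Dt := by
    intro z hz hz'
    have h1 := hrel z hz hz'
    rw [eval_map, eval_map] at h1
    exact h1
  let c : CD :=
    { K := K
      emb := emb
      ta := ta
      gen := gen
      im := im
      tr := tr
      nm := n
      quad := hquad
      A := A
      B := B
      disc := disc
      jint := jint
      Om := Om
      Om_ne := Om_ne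
      g2 := g2
      g3 := g3
      Nt := Nt
      Dt := Dt
      Nt_monic := hN
      Nt_deg := by rw [hNd]
      Dt_deg := by rw [hNd, hDd]
      Dt_lead := hD
      Nt_lo := hNlo
      Dt_lo := hDlo
      cop := hcop
      mulx := hmulx
      bad := 6 * (4 * A ^ 3 + 27 * B ^ 2) * n * (tr ^ 2 - 4 * n)
      bad_ne := mul_ne_zero (mul_ne_zero (mul_ne_zero (by norm_num) disc) hnm.1.ne') hnm.2.ne
      bad_dvd := dvd_refl _ }
  exact ⟨c, RingEquiv.refl K, rfl, rfl, rfl, fun x => rfl, rfl, rfl, rfl⟩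

end

end Pool.Agent.Lib.MP_1a91b9_nuE
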