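import Pool.Agent.Lib.MP_1a91b9_nuX.UF.Ode

/-!
# The multiplication by `t` after scaling
-/

set_option autoImplicit false

namespace Pool.Agent.Lib.MP_1a91b9_nuE

open Polynomial
open Pool.Agent.Lib.MP_1a91b9_nuX.UF (mulx_all)

noncomputable section

theorem scaled_mulx {t : ℂ} (ht : t ≠ 0) {A B c : ℂ} (hc : c ≠ 0) {L : PeriodPair}
    (hg2 : L.g₂ = -4 * (A * c ^ 2)) (hg3 : L.g₃ = -4 * (B * c ^ 3)) {N D : ℂ[X]} (hN : N.Monic)
    (hD : D.leadingCoeff = t ^ 2) (hdeg : N.natDegree = D.natDegree + 1)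
    (hid : (X ^ 3 + C A * X + C B) * (derivative N * D - N * derivative D) ^ 2 =
      C (t ^ 2) * D * (N ^ 3 + C A * N * D ^ 2 + C B * D ^ 3))
    (z : ℂ) (hz : z ∉ L.lattice) (hz' : t * z ∉ L.lattice) :
    N.eval (L.weierstrassP z / c) = L.weierstrassP (t * z) / c * D.eval (L.weierstrassP z / c) := by
  obtain ⟨m, hm⟩ : ∃ m, m = D.natDegree := ⟨_, rfl⟩
  rw [← hm] at hdeg
  have hci : c⁻¹ ≠ 0 := inv_ne_zero hc
  obtain ⟨Q, hQ⟩ : ∃ Q : ℂ[X], Q = C c⁻¹ * X := ⟨_, rfl⟩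
  have hQd : Q.natDegree = 1 := by rw [hQ, natDegree_C_mul_X _ hci]
  have hQe : ∀ x : ℂ, Q.eval x = x / c := by
    intro x
    rw [hQ, eval_mul, eval_C, eval_X]
    field_simp
  have hQ' : derivative Q = C c⁻¹ := by
    rw [hQ, derivative_C_mul, derivative_X, mul_one]
  have hlc : ∀ p : ℂ[X], (p.comp Q).leadingCoeff = p.leadingCoeff * c⁻¹ ^ p.natDegree := by
    intro p
    rw [leadingCoeff_comp (by rw [hQd]; exact one_ne_zero), hQ, leadingCoeff_C_mul_X]
  have hN'd : (C (c ^ (m + 1)) * N.comp Q).natDegree = m + 1 := by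
    rw [natDegree_C_mul (pow_ne_zero _ hc), natDegree_comp, hQd, mul_one, hdeg]
  have hD'd : (C (c ^ m) * D.comp Q).natDegree = m := by
    rw [natDegree_C_mul (pow_ne_zero _ hc), natDegree_comp, hQd, mul_one, ← hm]
  have key := mulx_all (L := L) (A := A * c ^ 2) (B := B * c ^ 3) (N := C (c ^ (m + 1)) * N.comp Q)
    (D := C (c ^ m) * D.comp Q) ht hg2 hg3 ?_ ?_ ?_ ?_ z hz hz'
  · rw [eval_mul, eval_C, eval_comp, hQe, eval_mul, eval_C, eval_comp, hQe] at key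
    have h1 : c ^ m ≠ 0 := pow_ne_zero _ hc
    have h2 : c ^ m * (c * N.eval (L.weierstrassP z / c)) =
        c ^ m * (L.weierstrassP (t * z) * D.eval (L.weierstrassP z / c)) := by
      rw [pow_succ] at key
      linear_combination key
    have h3 := mul_left_cancel₀ h1 h2
    field_simp
    linear_combination h3
  · rw [Monic, leadingCoeff_mul, leadingCoeff_C, hlc, hN.leadingCoeff, hdeg, one_mul, ← mul_pow,
      mul_inv_cancel₀ hc, one_pow]
  · rw [leadingCoeff_mul, leadingCoeff_C, hlc, hD, ← hm]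
    have h1 : c ^ m * c⁻¹ ^ m = 1 := by rw [← mul_pow, mul_inv_cancel₀ hc, one_pow]
    linear_combination (t ^ 2) * h1
  · rw [hN'd, hD'd]
  · refine Polynomial.funext fun x => ?_
    have h1 := congrArg (Polynomial.eval (x / c)) hid
    simp only [eval_mul, eval_add, eval_sub, eval_pow, eval_C, eval_X] at h1
    simp only [derivative_C_mul, derivative_comp, hQ', eval_mul, eval_add, eval_sub, eval_pow,
      eval_C, eval_X, eval_comp, hQe]
    obtain ⟨n, hn⟩ : ∃ n, n = eval (x / c) N := ⟨_, rfl⟩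
    obtain ⟨d, hd⟩ : ∃ d, d = eval (x / c) D := ⟨_, rfl⟩
    obtain ⟨n', hn'⟩ : ∃ n', n' = eval (x / c) (derivative N) := ⟨_, rfl⟩
    obtain ⟨d', hd'⟩ : ∃ d', d' = eval (x / c) (derivative D) := ⟨_, rfl⟩
    rw [← hn, ← hd, ← hn', ← hd'] at h1 ⊢
    have e1 : x ^ 3 + A * c ^ 2 * x + B * c ^ 3 = c ^ 3 * ((x / c) ^ 3 + A * (x / c) + B) := by
      field_simp
    have e2 : c ^ (m + 1) * (c⁻¹ * n') * (c ^ m * d) - c ^ (m + 1) * n * (c ^ m * (c⁻¹ * d')) =
        c ^ m * c ^ m * (n' * d - n * d') := by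
      rw [pow_succ]
      field_simp
    rw [e1, e2, mul_pow, pow_succ]
    linear_combination (c ^ 3 * (c ^ m * c ^ m) ^ 2) * h1

end

end Pool.Agent.Lib.MP_1a91b9_nuE
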