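import Pool.Agent.Lib.MP_1a91b9_nuE.CdE
import Pool.Agent.Lib.MP_1a91b9_nuE.Od

/-!
# The class `CD` for the quadratic twists
-/

set_option autoImplicit false

namespace Pool.Agent.Lib.MP_1a91b9_nuE

open NumberField Polynomial Pool.Agent.Lib.MP_1a91b9_nuT
open Pool.Agent.Lib.MP_1a91b9_nuT.Mult

noncomputable section

/-- the prime divisors of the bad number -/
def BadP (b c : ℤ) : Prop := ∀ p : ℕ, p.Prime → (p : ℤ) ∣ b → (p : ℤ) ∣ c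

/-- The class `CD` for the quadratic twist by `σ / 4`, scaled by `u = 4 n²`. -/
theorem exists_CDs (K : Type) [Field K] [NumberField K] [IsPrincipalIdealRing (𝓞 K)]
    (emb : K →ₐ[ℚ] ℂ)
    (ta : 𝓞 K) (gen : ∀ a : 𝓞 K, ∃ m n : ℤ, a = (m : 𝓞 K) + (n : 𝓞 K) * ta)
    (im : (emb (ta : K)).im ≠ 0) (tr : ℤ) (n : ℕ) (hn : n ≠ 0)
    (quad : ta ^ 2 = (tr : 𝓞 K) * ta - (n : 𝓞 K))
    (A B A0 B0 s : ℤ) (disc : 4 * A ^ 3 + 27 * B ^ 2 ≠ 0)
    (jint : 4 * A ^ 3 + 27 * B ^ 2 ∣ 6912 * A ^ 3) (hs : s ≠ 0) (hA : 16 * A = A0 * s ^ 2)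
    (hB : 64 * B = B0 * s ^ 3) (Om : ℂ) (Om_ne : Om ≠ 0)
    (g2 : (mkPP (emb (ta : K)) im).g₂ = -4 * (A : ℂ) * Om ^ 4)
    (g3 : (mkPP (emb (ta : K)) im).g₃ = -4 * (B : ℂ) * Om ^ 6)
    (N0 D0 : (𝓞 K)[X]) (hN : N0.Monic) (hNd : N0.natDegree = n) (hDd : D0.natDegree + 1 = n)
    (hD : D0.leadingCoeff = ta ^ 2)
    (hid : (X ^ 3 + C (A0 : ℂ) * X + C (B0 : ℂ)) * (derivative (N0.map (ph emb)) *
        D0.map (ph emb) - N0.map (ph emb) * derivative (D0.map (ph emb))) ^ 2 =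
      C (emb (ta : K) ^ 2) * D0.map (ph emb) * (N0.map (ph emb) ^ 3 +
        C (A0 : ℂ) * N0.map (ph emb) * D0.map (ph emb) ^ 2 + C (B0 : ℂ) * D0.map (ph emb) ^ 3)) :
    ∃ (u : ℤ) (_ : u ≠ 0) (c : CD) (e : K ≃+* c.K), c.A = u ^ 4 * A ∧ c.B = u ^ 6 * B ∧
      (6 * (4 * A ^ 3 + 27 * B ^ 2) * n * (tr ^ 2 - 4 * n)) ∣ c.bad ∧
      BadP c.bad (6 * (4 * A ^ 3 + 27 * B ^ 2) * n * (tr ^ 2 - 4 * n)) ∧
      (∀ x, c.emb (e x) = emb x) ∧ e (ta : K) = (c.ta : c.K) ∧ c.tr = tr ∧ c.nm = n := by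
  obtain ⟨u, hu⟩ : ∃ u : ℤ, u = 4 * (n : ℤ) ^ 2 := ⟨_, rfl⟩
  obtain ⟨w, hw⟩ : ∃ w : ℤ, w = 4 * s * (n : ℤ) ^ 4 := ⟨_, rfl⟩
  have hnZ : (n : ℤ) ≠ 0 := Int.natCast_ne_zero.2 hn
  have hu0 : u ≠ 0 := by
    rw [hu]
    exact mul_ne_zero (by norm_num) (pow_ne_zero 2 hnZ)
  have hw0 : w ≠ 0 := by
    rw [hw]
    exact mul_ne_zero (mul_ne_zero (by norm_num) hs) (pow_ne_zero 4 hnZ)
  have huC : (u : ℂ) ≠ 0 := Int.cast_ne_zero.2 hu0
  have hwC : (w : ℂ) ≠ 0 := Int.cast_ne_zero.2 hw0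
  have hAu : u ^ 4 * A = A0 * w ^ 2 := by
    rw [hu, hw]
    linear_combination (16 * (n : ℤ) ^ 8) * hA
  have hBu : u ^ 6 * B = B0 * w ^ 3 := by
    rw [hu, hw]
    linear_combination (64 * (n : ℤ) ^ 12) * hB
  have hdd : 4 * (u ^ 4 * A) ^ 3 + 27 * (u ^ 6 * B) ^ 2 = u ^ 12 * (4 * A ^ 3 + 27 * B ^ 2) := by
    ring
  have hdisc : 4 * (u ^ 4 * A) ^ 3 + 27 * (u ^ 6 * B) ^ 2 ≠ 0 := by
    rw [hdd]
    exact mul_ne_zero (pow_ne_zero _ hu0) disc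
  have hjint : 4 * (u ^ 4 * A) ^ 3 + 27 * (u ^ 6 * B) ^ 2 ∣ 6912 * (u ^ 4 * A) ^ 3 := by
    have e1 : 6912 * (u ^ 4 * A) ^ 3 = u ^ 12 * (6912 * A ^ 3) := by ring
    rw [hdd, e1]
    exact mul_dvd_mul_left _ jint
  have hg2 : (mkPP (emb (ta : K)) im).g₂ = -4 * ((u ^ 4 * A : ℤ) : ℂ) * (Om / u) ^ 4 := by
    rw [g2]
    push_cast
    field_simp
  have hg3 : (mkPP (emb (ta : K)) im).g₃ = -4 * ((u ^ 6 * B : ℤ) : ℂ) * (Om / u) ^ 6 := by
    rw [g3]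
    push_cast
    field_simp
  have hOu : Om / u ≠ 0 := div_ne_zero Om_ne huC
  have hta : emb (ta : K) ≠ 0 := fun h0 => im (by rw [h0, Complex.zero_im])
  -- `ta ^ 3` divides `w`
  have hdw : ta ^ 3 ∣ ((w : ℤ) : 𝓞 K) := by
    have h1 : ta ∣ (n : 𝓞 K) := ⟨(tr : 𝓞 K) - ta, by linear_combination quad⟩
    have h2 : ta ^ 3 ∣ (n : 𝓞 K) ^ 4 := (pow_dvd_pow_of_dvd h1 3).trans (pow_dvd_pow _ (by norm_num))
    rw [hw]
    push_cast
    exact h2.mul_left _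
  -- the embedding
  have hphw : ph emb ((w : ℤ) : 𝓞 K) = (w : ℂ) := map_intCast _ _
  have hOc : (w : ℂ) * (Om / u) ^ 2 ≠ 0 := mul_ne_zero hwC (pow_ne_zero 2 hOu)
  have hlN : (N0.map (ph emb)).Monic := hN.map _
  have hlD : (D0.map (ph emb)).leadingCoeff = emb (ta : K) ^ 2 := by
    rw [leadingCoeff_map_of_injective (ph_inj emb), hD, map_pow]
    rfl
  have hdN : (N0.map (ph emb)).natDegree = (D0.map (ph emb)).natDegree + 1 := by
    rw [natDegree_map_eq_of_injective (ph_inj emb), natDegree_map_eq_of_injective (ph_inj emb),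
      hNd, hDd]
  obtain ⟨c, e, h1, h2, h3, h4, h5, h6, h7⟩ := exists_CDp K emb ta gen im tr n quad
    (u ^ 4 * A) (u ^ 6 * B) hdisc hjint (Om / u) hOu hg2 hg3
    (N0.scaleRoots ((w : ℤ) : 𝓞 K)) (D0.scaleRoots ((w : ℤ) : 𝓞 K))
    ((monic_scaleRoots_iff _).2 hN) (by rw [natDegree_scaleRoots, hNd])
    (by rw [natDegree_scaleRoots, hDd]) (by rw [leadingCoeff_scaleRoots, hD])
    (fun i hi => by
      rw [coeff_scaleRoots, hNd]
      exact (hdw.trans (dvd_pow_self _ (by omega))).mul_left _)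
    (fun i hi => by
      rw [coeff_scaleRoots]
      exact (hdw.trans (dvd_pow_self _ (by omega))).mul_left _)
    (fun z hz hz' => by
      have key := scaled_mulx (A := (A0 : ℂ)) (B := (B0 : ℂ)) hta hOc
        (L := mkPP (emb (ta : K)) im) (by
          rw [hg2, hAu]
          push_cast
          ring) (by
          rw [hg3, hBu]
          push_cast
          ring) hlN hlD hdN hid z hz hz'
      have hx : (mkPP (emb (ta : K)) im).weierstrassP z / (Om / u) ^ 2 =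
          ph emb ((w : ℤ) : 𝓞 K) *
            ((mkPP (emb (ta : K)) im).weierstrassP z / ((w : ℂ) * (Om / u) ^ 2)) := by
        rw [hphw]
        field_simp
      rw [eval_map, eval_map, hx, scaleRoots_eval₂_mul, scaleRoots_eval₂_mul, ← eval_map,
        ← eval_map, key, hphw, hNd, ← hDd, pow_succ]
      field_simp)
  refine ⟨u, hu0, c, e, h1, h2, ?_, ?_, h4, h5, h6, h7⟩
  · rw [h3, hdd]
    exact ⟨u ^ 12, by ring⟩
  · intro p hp hd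
    rw [h3, hdd] at hd
    have hpp := Nat.prime_iff_prime_int.1 hp
    have e1 : 6 * (u ^ 12 * (4 * A ^ 3 + 27 * B ^ 2)) * (n : ℤ) * (tr ^ 2 - 4 * n) =
        u ^ 12 * (6 * (4 * A ^ 3 + 27 * B ^ 2) * n * (tr ^ 2 - 4 * n)) := by ring
    rw [e1] at hd
    rcases hpp.dvd_mul.1 hd with h8 | h8
    · have h9 := hpp.dvd_of_dvd_pow h8
      rw [hu] at h9
      rcases hpp.dvd_mul.1 h9 with h10 | h10
      · have h11 : (p : ℤ) ∣ 2 := by
          have h12 : (p : ℤ) ∣ 2 ^ 2 := by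
            rw [show (2 : ℤ) ^ 2 = 4 by norm_num]
            exact h10
          exact hpp.dvd_of_dvd_pow h12
        have h13 : (p : ℤ) ∣ 6 := h11.trans ⟨3, by norm_num⟩
        exact ((h13.mul_right _).mul_right _).mul_right _
      · exact ((hpp.dvd_of_dvd_pow h10).mul_left _).mul_right _
    · exact h8

end

end Pool.Agent.Lib.MP_1a91b9_nuE
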