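import Pool.Agent.Lib.MP_1a91b9_nuE.Ls

/-!
# The class `CD` for the nine invariants
-/

set_option autoImplicit false

namespace Pool.Agent.Lib.MP_1a91b9_nuE

open NumberField Polynomial Pool.Agent.Lib.MP_1a91b9_nuT
open Pool.Agent.Lib.MP_1a91b9_nuX.UF

noncomputable section

private theorem c7_0 : chk 1 2 (-35) (-98) Na7 Nb7 Da7 Db7 0 8 = true := by
  decide +kernel

private theorem all7 (j : ℕ) (hj : j < 4 * (1 + 1)) :
    eqnAt 1 2 (-35) (-98) Na7 Nb7 Da7 Db7 ((j : ℕ) : ℤ) = true := by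
  exact chk_mem c7_0 j (by omega) (by omega)

theorem hasCD7 {A B : ℤ} (h : 4 * A ^ 3 + 27 * B ^ 2 ≠ 0)
    (hj : 6912 * A ^ 3 = (-3375) * (4 * A ^ 3 + 27 * B ^ 2)) : HasCD 1 2 good7.pos A B :=
  hasCD_of (m := 1) (by norm_num) (by norm_num) good7 (A0 := -35) (B0 := -98) (J := -3375)
    (by norm_num) (by norm_num) (by norm_num) (by norm_num) h hj
    (sq_dvd (G := 7) ⟨-3, 1, by norm_num⟩ (by norm_num) 3 (by norm_num) (by decide))
    rfl rfl rfl rfl rfl rfl rfl rfl all7

private theorem c8_0 : chk 0 2 (-30) 56 Na8 Nb8 Da8 Db8 0 8 = true := by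
  decide +kernel

private theorem all8 (j : ℕ) (hj : j < 4 * (1 + 1)) :
    eqnAt 0 2 (-30) 56 Na8 Nb8 Da8 Db8 ((j : ℕ) : ℤ) = true := by
  exact chk_mem c8_0 j (by omega) (by omega)

theorem hasCD8 {A B : ℤ} (h : 4 * A ^ 3 + 27 * B ^ 2 ≠ 0)
    (hj : 6912 * A ^ 3 = 8000 * (4 * A ^ 3 + 27 * B ^ 2)) : HasCD 0 2 good8.pos A B :=
  hasCD_of (m := 1) (by norm_num) (by norm_num) good8 (A0 := -30) (B0 := 56) (J := 8000)
    (by norm_num) (by norm_num) (by norm_num) (by norm_num) h hj
    (sq_dvd (G := 2) ⟨13, 7, by norm_num⟩ (by norm_num) 2 (by norm_num) (by decide))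
    rfl rfl rfl rfl rfl rfl rfl rfl all8

private theorem c11_0 : chk 1 3 (-264) 1694 Na11 Nb11 Da11 Db11 0 12 = true := by
  decide +kernel

private theorem all11 (j : ℕ) (hj : j < 4 * (2 + 1)) :
    eqnAt 1 3 (-264) 1694 Na11 Nb11 Da11 Db11 ((j : ℕ) : ℤ) = true := by
  exact chk_mem c11_0 j (by omega) (by omega)

theorem hasCD11 {A B : ℤ} (h : 4 * A ^ 3 + 27 * B ^ 2 ≠ 0)
    (hj : 6912 * A ^ 3 = (-32768) * (4 * A ^ 3 + 27 * B ^ 2)) : HasCD 1 3 good11.pos A B :=
  hasCD_of (m := 2) (by norm_num) (by norm_num) good11 (A0 := -264) (B0 := 1694) (J := -32768)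
    (by norm_num) (by norm_num) (by norm_num) (by norm_num) h hj
    (sq_dvd (G := 22) ⟨32, 5, by norm_num⟩ (by norm_num) 5 (by norm_num) (by decide))
    rfl rfl rfl rfl rfl rfl rfl rfl all11

private theorem c19_0 : chk 1 5 (-152) 722 Na19 Nb19 Da19 Db19 0 20 = true := by
  decide +kernel

private theorem all19 (j : ℕ) (hj : j < 4 * (4 + 1)) :
    eqnAt 1 5 (-152) 722 Na19 Nb19 Da19 Db19 ((j : ℕ) : ℤ) = true := by
  exact chk_mem c19_0 j (by omega) (by omega)

theorem hasCD19 {A B : ℤ} (h : 4 * A ^ 3 + 27 * B ^ 2 ≠ 0)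
    (hj : 6912 * A ^ 3 = (-884736) * (4 * A ^ 3 + 27 * B ^ 2)) : HasCD 1 5 good19.pos A B :=
  hasCD_of (m := 4) (by norm_num) (by norm_num) good19 (A0 := -152) (B0 := 722) (J := -884736)
    (by norm_num) (by norm_num) (by norm_num) (by norm_num) h hj
    (sq_dvd (G := 38) ⟨-5, -1, by norm_num⟩ (by norm_num) 7 (by norm_num) (by decide))
    rfl rfl rfl rfl rfl rfl rfl rfl all19

private theorem c43_0 : chk 1 11 (-3440) 77658 Na43 Nb43 Da43 Db43 0 20 = true := by
  decide +kernel

private theorem c43_20 : chk 1 11 (-3440) 77658 Na43 Nb43 Da43 Db43 20 20 = true := by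
  decide +kernel

private theorem c43_40 : chk 1 11 (-3440) 77658 Na43 Nb43 Da43 Db43 40 4 = true := by
  decide +kernel

private theorem all43 (j : ℕ) (hj : j < 4 * (10 + 1)) :
    eqnAt 1 11 (-3440) 77658 Na43 Nb43 Da43 Db43 ((j : ℕ) : ℤ) = true := by
  rcases Nat.lt_or_ge j 20 with h | h0
  · exact chk_mem c43_0 j (by omega) (by omega)
  rcases Nat.lt_or_ge j 40 with h | h1
  · exact chk_mem c43_20 j (by omega) (by omega)
  exact chk_mem c43_40 j (by omega) (by omega)

theorem hasCD43 {A B : ℤ} (h : 4 * A ^ 3 + 27 * B ^ 2 ≠ 0)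
    (hj : 6912 * A ^ 3 = (-884736000) * (4 * A ^ 3 + 27 * B ^ 2)) : HasCD 1 11 good43.pos A B :=
  hasCD_of (m := 10) (by norm_num) (by norm_num) good43 (A0 := -3440) (B0 := 77658) (J := -884736000)
    (by norm_num) (by norm_num) (by norm_num) (by norm_num) h hj
    (sq_dvd (G := 86) ⟨158, 7, by norm_num⟩ (by norm_num) 10 (by norm_num) (by decide))
    rfl rfl rfl rfl rfl rfl rfl rfl all43

private theorem c67_0 : chk 1 17 (-29480) 1948226 Na67 Nb67 Da67 Db67 0 20 = true := by
  decide +kernel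

private theorem c67_20 : chk 1 17 (-29480) 1948226 Na67 Nb67 Da67 Db67 20 20 = true := by
  decide +kernel

private theorem c67_40 : chk 1 17 (-29480) 1948226 Na67 Nb67 Da67 Db67 40 20 = true := by
  decide +kernel

private theorem c67_60 : chk 1 17 (-29480) 1948226 Na67 Nb67 Da67 Db67 60 8 = true := by
  decide +kernel

private theorem all67 (j : ℕ) (hj : j < 4 * (16 + 1)) :
    eqnAt 1 17 (-29480) 1948226 Na67 Nb67 Da67 Db67 ((j : ℕ) : ℤ) = true := by
  rcases Nat.lt_or_ge j 20 with h | h0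
  · exact chk_mem c67_0 j (by omega) (by omega)
  rcases Nat.lt_or_ge j 40 with h | h1
  · exact chk_mem c67_20 j (by omega) (by omega)
  rcases Nat.lt_or_ge j 60 with h | h2
  · exact chk_mem c67_40 j (by omega) (by omega)
  exact chk_mem c67_60 j (by omega) (by omega)

theorem hasCD67 {A B : ℤ} (h : 4 * A ^ 3 + 27 * B ^ 2 ≠ 0)
    (hj : 6912 * A ^ 3 = (-147197952000) * (4 * A ^ 3 + 27 * B ^ 2)) : HasCD 1 17 good67.pos A B :=
  hasCD_of (m := 16) (by norm_num) (by norm_num) good67 (A0 := -29480) (B0 := 1948226) (J := -147197952000)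
    (by norm_num) (by norm_num) (by norm_num) (by norm_num) h hj
    (sq_dvd (G := 134) ⟨-5353, -81, by norm_num⟩ (by norm_num) 12 (by norm_num) (by decide))
    rfl rfl rfl rfl rfl rfl rfl rfl all67

private theorem c163_0 : chk 1 41 (-34790720) 78984748304 Na163 Nb163 Da163 Db163 0 20 = true := by
  decide +kernel

private theorem c163_20 : chk 1 41 (-34790720) 78984748304 Na163 Nb163 Da163 Db163 20 20 = true := by
  decide +kernel

private theorem c163_40 : chk 1 41 (-34790720) 78984748304 Na163 Nb163 Da163 Db163 40 20 = true := by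
  decide +kernel

private theorem c163_60 : chk 1 41 (-34790720) 78984748304 Na163 Nb163 Da163 Db163 60 20 = true := by
  decide +kernel

private theorem c163_80 : chk 1 41 (-34790720) 78984748304 Na163 Nb163 Da163 Db163 80 20 = true := by
  decide +kernel

private theorem c163_100 : chk 1 41 (-34790720) 78984748304 Na163 Nb163 Da163 Db163 100 20 = true := by
  decide +kernel

private theorem c163_120 : chk 1 41 (-34790720) 78984748304 Na163 Nb163 Da163 Db163 120 20 = true := by
  decide +kernel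

private theorem c163_140 : chk 1 41 (-34790720) 78984748304 Na163 Nb163 Da163 Db163 140 20 = true := by
  decide +kernel

private theorem c163_160 : chk 1 41 (-34790720) 78984748304 Na163 Nb163 Da163 Db163 160 4 = true := by
  decide +kernel

private theorem all163 (j : ℕ) (hj : j < 4 * (40 + 1)) :
    eqnAt 1 41 (-34790720) 78984748304 Na163 Nb163 Da163 Db163 ((j : ℕ) : ℤ) = true := by
  rcases Nat.lt_or_ge j 20 with h | h0
  · exact chk_mem c163_0 j (by omega) (by omega)
  rcases Nat.lt_or_ge j 40 with h | h1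
  · exact chk_mem c163_20 j (by omega) (by omega)
  rcases Nat.lt_or_ge j 60 with h | h2
  · exact chk_mem c163_40 j (by omega) (by omega)
  rcases Nat.lt_or_ge j 80 with h | h3
  · exact chk_mem c163_60 j (by omega) (by omega)
  rcases Nat.lt_or_ge j 100 with h | h4
  · exact chk_mem c163_80 j (by omega) (by omega)
  rcases Nat.lt_or_ge j 120 with h | h5
  · exact chk_mem c163_100 j (by omega) (by omega)
  rcases Nat.lt_or_ge j 140 with h | h6
  · exact chk_mem c163_120 j (by omega) (by omega)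
  rcases Nat.lt_or_ge j 160 with h | h7
  · exact chk_mem c163_140 j (by omega) (by omega)
  exact chk_mem c163_160 j (by omega) (by omega)

theorem hasCD163 {A B : ℤ} (h : 4 * A ^ 3 + 27 * B ^ 2 ≠ 0)
    (hj : 6912 * A ^ 3 = (-262537412640768000) * (4 * A ^ 3 + 27 * B ^ 2)) : HasCD 1 41 good163.pos A B :=
  hasCD_of (m := 40) (by norm_num) (by norm_num) good163 (A0 := -34790720) (B0 := 78984748304) (J := -262537412640768000)
    (by norm_num) (by norm_num) (by norm_num) (by norm_num) h hj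
    (sq_dvd (G := 2608) ⟨1786712, 787, by norm_num⟩ (by norm_num) 52 (by norm_num) (by decide))
    rfl rfl rfl rfl rfl rfl rfl rfl all163


end

end Pool.Agent.Lib.MP_1a91b9_nuE
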