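import Pool.Agent.Lib.MP_1a91b9_nuX.TH.Lg
import Pool.Agent.Lib.MP_1a91b9_nuX.TG.Cnt

/-!
# The condition on the number of points at the places of good reduction
-/

set_option autoImplicit false

namespace Pool.Agent.Lib.MP_1a91b9_nuE

open NumberField IsDedekindDomain WeierstrassCurve Module Polynomial
  Pool.Agent.Lib.MP_1a91b9_nuT
open Pool.Agent.Lib.MP_1a91b9_nt
open Pool.Agent.Lib.MP_1a91b9_nuX
open Pool.Agent.Lib.MP_1a91b9_nuX.DB Pool.Agent.Lib.MP_1a91b9_nuX.GL
open Pool.Agent.Lib.MP_1a91b9_nuX.PG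
open Pool.Agent.Lib.MP_1a91b9_nuX.PH
open Pool.Agent.Lib.MP_1a91b9_nuX.TH (fdatE psP_at)

universe u

/-- the two reductions have the same number of points -/
theorem card_red {F : Type u} [Field F] [NumberField F] (v : HeightOneSpectrum (𝓞 F))
    (V : WeierstrassCurve (𝓞 F)) :
    Nat.card (V.map (redMap F v)).toAffine.Point =
      Nat.card (V.map (Ideal.Quotient.mk v.asIdeal)).toAffine.Point := by
  let e : (𝓞 F ⧸ v.asIdeal) ≃+* IsLocalRing.ResidueField (v.adicCompletionIntegers F) :=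
    (Ideal.quotEquivOfEq (residue_ker v).symm).trans
      (RingHom.quotientKerEquivOfSurjective (residue_surjective v))
  have he : (e : (𝓞 F ⧸ v.asIdeal) →+* _).comp (Ideal.Quotient.mk v.asIdeal) = redMap F v := by
    apply RingHom.ext
    intro x
    rfl
  have hm : v.asIdeal.IsMaximal := v.isMaximal
  letI : Field (𝓞 F ⧸ v.asIdeal) := Ideal.Quotient.field _
  have h1 := card_point_map_equiv (V.map (Ideal.Quotient.mk v.asIdeal)) e
  have h2 : (V.map (Ideal.Quotient.mk v.asIdeal)).map e.toRingHom = V.map (redMap F v) := by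
    rw [WeierstrassCurve.map_map]
    exact congrArg V.map he
  rw [h2] at h1
  exact h1

variable [CD] [HC]

section
variable {F : Type u} [Field F] [NumberField F] [Algebra K F]

/-- **The number of points.** -/
theorem card_model (hE : EllK) (v : HeightOneSpectrum (𝓞 F)) (V : WeierstrassCurve (𝓞 F))
    (C : VariableChange F) (hC : C • E F = V.map (algebraMap (𝓞 F) F)) (hΔ : V.Δ ∉ v.asIdeal) :
    (1 - Hv (E F) v) * (1 - cj (Hv (E F) v)) =
      ((Nat.card (V.map (Ideal.Quotient.mk v.asIdeal)).toAffine.Point : ℕ) : 𝓞 K) := by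
  obtain ⟨m, hm⟩ := fdatE (F := F) hE
  have h1 := locPoly_of_model (F := F) (K := F) (E F) C V hC v hΔ
  have hbc : (E F).baseChange F = E F := WeierstrassCurve.map_id _
  rw [hbc, card_red] at h1
  have h2 := hm.loc v
  rw [h1, psP_at] at h2
  have h3 := congrArg (Polynomial.eval (1 : 𝓞 K)) h2
  simp only [Polynomial.map_add, Polynomial.map_sub, Polynomial.map_mul, Polynomial.map_C,
    Polynomial.map_X, Polynomial.map_pow, Polynomial.map_one, eval_add, eval_sub, eval_mul,
    eval_one, eval_C, eval_X, eval_pow, mul_one, one_pow] at h3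
  rw [← h3, eq_intCast, eq_intCast]
  push_cast
  ring

theorem cop_of_model (hE : EllK) {ℓ : ℕ} (hℓ : ℓ.Prime) (v : HeightOneSpectrum (𝓞 F))
    (V : WeierstrassCurve (𝓞 F))
    (C : VariableChange F) (hC : C • E F = V.map (algebraMap (𝓞 F) F)) (hΔ : V.Δ ∉ v.asIdeal)
    (hc : ¬ ℓ ∣ Nat.card (V.map (Ideal.Quotient.mk v.asIdeal)).toAffine.Point) :
    IsCoprime (Hv (E F) v - 1) (ℓ : 𝓞 K) := by
  have h1 := card_model hE v V C hC hΔ
  refine Ell.kq_odd' _ _ (((Nat.Prime.coprime_iff_not_dvd hℓ).2 hc).symm) (cj (Hv (E F) v) - 1) ?_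
  rw [← h1]
  ring

end

end Pool.Agent.Lib.MP_1a91b9_nuE
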