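import Pool.Agent.Lib.MP_1a91b9_nuE.Cu
import Pool.Agent.Lib.MP_1a91b9_nuX.TG.Abel
import Pool.Agent.Lib.MP_1a91b9_nuX.TG.Defs

/-!
# The primes which divide the modulus
-/

set_option autoImplicit false

namespace Pool.Agent.Lib.MP_1a91b9_nuE

variable [Pool.Agent.Lib.MP_1a91b9_nuT.CD]

open NumberField IsDedekindDomain WeierstrassCurve Pool.Agent.Lib.MP_1a91b9_nuT
open Pool.Agent.Lib.MP_1a91b9_nuX
open Pool.Agent.Lib.MP_1a91b9_nuX.DB
open Pool.Agent.Lib.MP_1a91b9_nuX.TG (gB nAb f_coprime)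

noncomputable section

/-- two coprime integers are not both in a place -/
theorem not_mem_int {F : Type*} [Field F] [NumberField F] (v : HeightOneSpectrum (𝓞 F)) {a b : ℤ}
    (h : IsCoprime a b) (ha : (a : 𝓞 F) ∈ v.asIdeal) : (b : 𝓞 F) ∉ v.asIdeal := by
  intro hb
  obtain ⟨x, y, hxy⟩ := h
  apply v.isPrime.ne_top
  rw [Ideal.eq_top_iff_one]
  have h1 := congrArg (Int.cast : ℤ → 𝓞 F) hxy
  push_cast at h1
  rw [← h1]
  exact v.asIdeal.add_mem (v.asIdeal.mul_mem_left _ ha) (v.asIdeal.mul_mem_left _ hb)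

/-- the residue characteristic -/
theorem exists_char {F : Type*} [Field F] [NumberField F] (v : HeightOneSpectrum (𝓞 F)) :
    ∃ p : ℕ, p.Prime ∧ (p : 𝓞 F) ∈ v.asIdeal ∧
      ∀ a : ℤ, (a : 𝓞 F) ∈ v.asIdeal → (p : ℤ) ∣ a := by
  have h0 : Ideal.absNorm v.asIdeal ≠ 0 := by
    rw [Ne, Ideal.absNorm_eq_zero_iff]
    exact v.ne_bot
  obtain ⟨p, hp, hm⟩ : ∃ p : ℕ, p.Prime ∧ (p : 𝓞 F) ∈ v.asIdeal := by
    by_contra hcon
    push Not at hcon
    have key : ∀ n : ℕ, n ≠ 0 → (n : 𝓞 F) ∉ v.asIdeal := by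
      intro n
      induction n using Nat.recOnMul with
      | zero => intro h; exact absurd rfl h
      | one =>
        intro _ h
        rw [Nat.cast_one] at h
        exact v.isPrime.ne_top ((Ideal.eq_top_iff_one _).2 h)
      | prime p hp => exact fun _ => hcon p hp
      | mul a b iha ihb =>
        intro h h1
        rw [Nat.cast_mul] at h1
        rcases v.isPrime.mem_or_mem h1 with h2 | h2
        · exact iha (left_ne_zero_of_mul h) h2
        · exact ihb (right_ne_zero_of_mul h) h2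
    exact key _ h0 (Ideal.absNorm_mem _)
  refine ⟨p, hp, hm, fun a ha => ?_⟩
  by_contra hnd
  have h1 : IsCoprime (p : ℤ) a := (Nat.prime_iff_prime_int.1 hp).coprime_iff_not_dvd.2 hnd
  exact not_mem_int v h1 (by exact_mod_cast hm) ha

/-- the norm of an element prime to `ℓ` -/
theorem absN_cop {a : 𝓞 K} {ℓ : ℕ} (h : IsCoprime a (ℓ : 𝓞 K)) :
    (Ideal.absNorm (Ideal.span {a})).Coprime ℓ := by
  have h2 : IsCoprime (cj a) (ℓ : 𝓞 K) := by
    have h3 := h.map (cj : 𝓞 K →+* 𝓞 K)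
    rwa [map_natCast] at h3
  have h3 : IsCoprime ((Ideal.absNorm (Ideal.span {a}) : ℕ) : 𝓞 K) (ℓ : 𝓞 K) := by
    rw [← mul_cj]
    exact h.mul_left h2
  obtain ⟨d, hd⟩ : ∃ d, d = Nat.gcd (Ideal.absNorm (Ideal.span {a})) ℓ := ⟨_, rfl⟩
  rw [Nat.Coprime, ← hd]
  by_contra hne
  obtain ⟨p, hp, hpd⟩ := Nat.exists_prime_and_dvd hne
  have h4 : (p : 𝓞 K) ∣ 1 := by
    obtain ⟨x, y, hxy⟩ := h3
    rw [← hxy]
    have h5 : p ∣ Ideal.absNorm (Ideal.span {a}) := hpd.trans (hd ▸ Nat.gcd_dvd_left _ _)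
    have h6 : p ∣ ℓ := hpd.trans (hd ▸ Nat.gcd_dvd_right _ _)
    exact dvd_add (Dvd.dvd.mul_left (Nat.cast_dvd_cast h5) _) (Dvd.dvd.mul_left
      (Nat.cast_dvd_cast h6) _)
  have h5 : IsUnit ((p : ℕ) : 𝓞 K) := isUnit_of_dvd_one h4
  have h6 := Ideal.span_singleton_eq_top.2 h5
  have h7 : Ideal.absNorm (Ideal.span {((p : ℕ) : 𝓞 K)}) = p ^ 2 := by
    have h : ((Ideal.absNorm (Ideal.span {(p : 𝓞 K)}) : ℕ) : 𝓞 K) = ((p ^ 2 : ℕ) : 𝓞 K) := by
      rw [← mul_cj, map_natCast]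
      push_cast
      ring
    exact Nat.cast_injective h
  rw [h6, Ideal.absNorm_top] at h7
  have := hp.two_le
  nlinarith

/-- an element without common prime divisors with `ℓ` -/
theorem cop_of_places {a : 𝓞 K} (ha : a ≠ 0) {ℓ : ℕ}
    (h : ∀ P : HeightOneSpectrum (𝓞 K), a ∈ P.asIdeal → (ℓ : 𝓞 K) ∉ P.asIdeal) :
    IsCoprime a (ℓ : 𝓞 K) := by
  rw [← Ideal.isCoprime_span_singleton_iff, Ideal.isCoprime_iff_sup_eq]
  by_contra hc
  obtain ⟨P, hP, hle⟩ := Ideal.exists_le_maximal _ hc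
  have h1 : a ∈ P := hle (Ideal.mem_sup_left (Ideal.mem_span_singleton_self _))
  have h2 : (ℓ : 𝓞 K) ∈ P := hle (Ideal.mem_sup_right (Ideal.mem_span_singleton_self _))
  have hb : P ≠ ⊥ := by
    rintro rfl
    exact ha ((Submodule.mem_bot _).1 h1)
  exact h ⟨P, hP.isPrime, hb⟩ h1 h2

/-- the norm of a place of `K` -/
theorem norm_place (P : HeightOneSpectrum (𝓞 K)) {p : ℕ} (hp : p.Prime)
    (hm : (p : 𝓞 K) ∈ P.asIdeal) : Ideal.absNorm P.asIdeal = p ∨ Ideal.absNorm P.asIdeal = p ^ 2 := by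
  have h1 : Ideal.absNorm P.asIdeal ∣ p ^ 2 := by
    have h : ((Ideal.absNorm (Ideal.span {(p : 𝓞 K)}) : ℕ) : 𝓞 K) = ((p ^ 2 : ℕ) : 𝓞 K) := by
      rw [← mul_cj, map_natCast]
      push_cast
      ring
    rw [← Nat.cast_injective h]
    exact Ideal.absNorm_dvd_absNorm_of_le ((Ideal.span_singleton_le_iff_mem _).2 hm)
  obtain ⟨i, hi, he⟩ := (Nat.dvd_prime_pow hp).1 h1
  interval_cases i
  · exfalso
    rw [pow_zero, Ideal.absNorm_eq_one_iff] at he
    exact P.isPrime.ne_top he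
  · left
    rw [he, pow_one]
  · right
    exact he

variable [HC]

/-- the norm of the conductor is only divisible by bad primes -/
theorem norm_f_mem {F : Type*} [Field F] [NumberField F] (v : HeightOneSpectrum (𝓞 F))
    (h : ((Ideal.absNorm (Ideal.span {(HC.f : 𝓞 K)}) : ℕ) : 𝓞 F) ∈ v.asIdeal) :
    ((CD.bad : ℤ) : 𝓞 F) ∈ v.asIdeal := by
  obtain ⟨p, hp, hm, hd⟩ := exists_char v
  have h1 : (p : ℤ) ∣ (Ideal.absNorm (Ideal.span {(HC.f : 𝓞 K)}) : ℤ) := hd _ (by exact_mod_cast h)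
  have h2 : (p : ℤ) ∣ CD.bad := by
    by_contra hnd
    have h3 := absN_cop (f_coprime hp hnd)
    exact (Nat.Prime.coprime_iff_not_dvd hp).1 h3.symm (by exact_mod_cast h1)
  obtain ⟨c, hc⟩ := h2
  rw [hc]
  push_cast
  exact v.asIdeal.mul_mem_right _ hm

/-- the primes which divide the norm of the modulus -/
theorem norm_gB_mem {μ : 𝓞 K} {m : ℕ} (hμ : μ ∣ (m : 𝓞 K)) {F : Type*} [Field F] [NumberField F]
    (v : HeightOneSpectrum (𝓞 F))
    (h : ((Ideal.absNorm (Ideal.span {gB μ}) : ℕ) : 𝓞 F) ∈ v.asIdeal) :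
    ((m * CD.bad : ℤ) : 𝓞 F) ∈ v.asIdeal := by
  have hint : ∀ n : ℤ, Ideal.absNorm (Ideal.span {((n : ℤ) : 𝓞 K)}) = n.natAbs ^ 2 := by
    intro n
    have h : ((Ideal.absNorm (Ideal.span {((n : ℤ) : 𝓞 K)}) : ℕ) : 𝓞 K) = ((n.natAbs ^ 2 : ℕ) : 𝓞 K) := by
      rw [← mul_cj, map_intCast]
      have h1 : ((n.natAbs ^ 2 : ℕ) : ℤ) = n * n := by
        rw [Nat.cast_pow, Int.natAbs_sq, pow_two]
      have h2 := congrArg (Int.cast : ℤ → 𝓞 K) h1
      rw [Int.cast_natCast, Int.cast_mul] at h2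
      exact h2.symm
    exact Nat.cast_injective h
  have hnat : Ideal.absNorm (Ideal.span {((nAb μ : ℕ) : 𝓞 K)}) = nAb μ ^ 2 := by
    have h1 := hint (nAb μ : ℤ)
    rwa [Int.cast_natCast, Int.natAbs_natCast] at h1
  rw [gB, ← Ideal.span_singleton_mul_span_singleton, ← Ideal.span_singleton_mul_span_singleton,
    map_mul, map_mul, hint, hnat] at h
  push_cast at h ⊢
  rcases v.isPrime.mem_or_mem h with h1 | h1
  · exact v.asIdeal.mul_mem_left _ (norm_f_mem v h1)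
  rcases v.isPrime.mem_or_mem h1 with h2 | h2
  · have h3 := v.isPrime.mem_of_pow_mem _ h2
    refine v.asIdeal.mul_mem_left _ ?_
    have h4 : ((CD.bad.natAbs : ℤ) : 𝓞 F) ∈ v.asIdeal := by
      rw [Int.cast_natCast]
      exact h3
    rcases Int.natAbs_eq CD.bad with h5 | h5
    · rw [h5]
      exact h4
    · rw [h5, Int.cast_neg]
      exact v.asIdeal.neg_mem h4
  · have h3 := v.isPrime.mem_of_pow_mem _ h2
    refine v.asIdeal.mul_mem_right _ ?_
    have h4 : nAb μ ∣ m ^ 2 := by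
      have h5 := hint (m : ℤ)
      rw [Int.cast_natCast, Int.natAbs_natCast] at h5
      rw [← h5]
      exact Ideal.absNorm_dvd_absNorm_of_le (Ideal.span_singleton_le_span_singleton.2 hμ)
    obtain ⟨c, hc⟩ := h4
    have h5 : ((m : 𝓞 F)) ^ 2 ∈ v.asIdeal := by
      have h6 := congrArg (Nat.cast : ℕ → 𝓞 F) hc
      push_cast at h6
      rw [h6]
      exact v.asIdeal.mul_mem_right _ h3
    exact v.isPrime.mem_of_pow_mem _ h5

end

end Pool.Agent.Lib.MP_1a91b9_nuE
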