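import Pool.Agent.Lib.MP_1a91b9_nuT.Mult.MulC
import Pool.Agent.Lib.MP_1a91b9_nuT.Mult.Ode

/-!
# The multiplication polynomials are coprime
-/

set_option autoImplicit false

namespace Pool.Agent.Lib.MP_1a91b9_nuE

open Polynomial Filter Topology Pool.Agent.Lib.MP_1a91b9_nuT
open Pool.Agent.Lib.MP_1a91b9_nuT.Mult

noncomputable section

/-- the multiplication polynomials are unique, so they are coprime -/
theorem cop_of_rel {t : ℂ} (h : t.im ≠ 0) {tr : ℤ} {n : ℕ} (hq : t ^ 2 = tr * t - n) {Om : ℂ}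
    (hOm : Om ≠ 0) {N D : ℂ[X]} (hN : N.Monic) (hd : N.natDegree = n)
    (hrel : ∀ z, z ∉ (mkPP t h).lattice → t * z ∉ (mkPP t h).lattice →
      N.eval ((mkPP t h).weierstrassP z / Om ^ 2) =
        (mkPP t h).weierstrassP (t * z) / Om ^ 2 *
          D.eval ((mkPP t h).weierstrassP z / Om ^ 2)) : IsCoprime N D := by
  have ht : t ≠ 0 := t_ne h
  obtain ⟨N', D', g1, g2, g3, g4, g5, g6⟩ := exists_mulOm (tr := tr) (n := n) h hq hOm
  have hS : ∀ z, ∀ᶠ w in 𝓝[≠] z, w ∉ {z : ℂ | z ∈ (mkPP t h).lattice ∨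
      t * z ∈ (mkPP t h).lattice} := by
    intro z
    filter_upwards [eventually_notMem (mkPP t h) z, eventually_mul_notMem (mkPP t h) ht z] with
      w h4 h5 h6
    rcases h6 with h6 | h6
    · exact h4 h6
    · exact h5 h6
  have e : N * D' = N' * D := by
    refine Polynomial.eq_of_infinite_eval_eq _ _ ((infinite_values (mkPP t h) hOm hS).mono ?_)
    rintro _ ⟨z, hz, rfl⟩
    have hz1 : z ∉ (mkPP t h).lattice := fun h => hz (Or.inl h)
    have hz2 : t * z ∉ (mkPP t h).lattice := fun h => hz (Or.inr h)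
    simp only [Set.mem_ofPred_eq, eval_mul]
    rw [hrel z hz1 hz2, g6 z hz1 hz2]
    ring
  have h1 : N' ∣ N := by
    refine g5.dvd_of_dvd_mul_right ?_
    exact ⟨D, e⟩
  have h2 : N = N' := by
    obtain ⟨Q, hQ⟩ := h1
    have hQm : Q.Monic := by
      rw [hQ] at hN
      exact Monic.of_mul_monic_left g1 hN
    have hQd : Q.natDegree = 0 := by
      have h3 := hd
      rw [hQ, g1.natDegree_mul' hQm.ne_zero, g2] at h3
      omega
    have hQ1 : Q = 1 := eq_one_of_monic_natDegree_zero hQm hQd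
    rw [hQ, hQ1, mul_one]
  rw [h2] at e ⊢
  have h3 : D' = D := mul_left_cancel₀ g1.ne_zero e
  rw [← h3]
  exact g5

end

end Pool.Agent.Lib.MP_1a91b9_nuE
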