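import Pool.Agent.Lib.MP_1a91b9_nuX.DG.Defs

/-!
# The order of the group of the residue classes
-/

set_option autoImplicit false

namespace Pool.Agent.Lib.MP_1a91b9_nuE

variable [Pool.Agent.Lib.MP_1a91b9_nuT.CD]

open NumberField IsDedekindDomain WeierstrassCurve Pool.Agent.Lib.MP_1a91b9_nuT
open Pool.Agent.Lib.MP_1a91b9_nuX
open Pool.Agent.Lib.MP_1a91b9_nuX.DB Pool.Agent.Lib.MP_1a91b9_nuX.DG

noncomputable section

/-- an element of order `ℓ` modulo `μ` is trivial if `N P` and `N P - 1` are prime to `ℓ` for `P ∣ μ` -/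
theorem pow_cong {μ a : 𝓞 K} (hμ : μ ≠ 0) {ℓ : ℕ} (hℓ : ℓ.Prime)
    (h : ∀ P : HeightOneSpectrum (𝓞 K), μ ∈ P.asIdeal →
      ¬ ℓ ∣ Ideal.absNorm P.asIdeal ∧ ¬ ℓ ∣ Ideal.absNorm P.asIdeal - 1)
    (ha : μ ∣ a ^ ℓ - 1) : μ ∣ a - 1 := by
  have hs := geom_sum_mul a ℓ
  have hcop : IsCoprime μ (∑ i ∈ Finset.range ℓ, a ^ i) := by
    by_contra hnc
    have hne : Ideal.span {μ, ∑ i ∈ Finset.range ℓ, a ^ i} ≠ ⊤ := by
      intro ht
      apply hnc
      have h1 : (1 : 𝓞 K) ∈ Ideal.span {μ, ∑ i ∈ Finset.range ℓ, a ^ i} := by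
        rw [ht]
        exact Submodule.mem_top
      obtain ⟨x, y, hxy⟩ := Ideal.mem_span_pair.1 h1
      exact ⟨x, y, hxy⟩
    obtain ⟨P, hP, hle⟩ := Ideal.exists_le_maximal _ hne
    have hμP : μ ∈ P := hle (Ideal.subset_span (by simp))
    have hsP : (∑ i ∈ Finset.range ℓ, a ^ i) ∈ P := hle (Ideal.subset_span (by simp))
    have hPb : P ≠ ⊥ := by
      rintro rfl
      exact hμ ((Submodule.mem_bot _).1 hμP)
    obtain ⟨v, hv⟩ : ∃ v : HeightOneSpectrum (𝓞 K), v.asIdeal = P := ⟨⟨P, hP.isPrime, hPb⟩, rfl⟩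
    obtain ⟨h1, h2⟩ := h v (by rw [hv]; exact hμP)
    rw [hv] at h1 h2
    have hfin : Finite (𝓞 K ⧸ P) := Ideal.finiteQuotientOfFreeOfNeBot _ hPb
    let _ : Field (𝓞 K ⧸ P) := Ideal.Quotient.field P
    have hft : Fintype (𝓞 K ⧸ P) := Fintype.ofFinite _
    have hcard : Fintype.card (𝓞 K ⧸ P) = Ideal.absNorm P := by
      rw [← Nat.card_eq_fintype_card]
      rfl
    obtain ⟨x, hx⟩ : ∃ x, x = Ideal.Quotient.mk P a := ⟨_, rfl⟩
    have hx1 : x ^ ℓ = 1 := by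
      have h3 : a ^ ℓ - 1 ∈ P := by
        obtain ⟨c, hc⟩ := ha
        rw [hc]
        exact P.mul_mem_right _ hμP
      rw [hx, ← map_pow, ← sub_eq_zero, ← map_one (Ideal.Quotient.mk P), ← map_sub]
      exact Ideal.Quotient.eq_zero_iff_mem.2 h3
    have hx0 : x ≠ 0 := by
      rintro h0
      rw [h0, zero_pow hℓ.ne_zero] at hx1
      exact zero_ne_one hx1
    have hx2 : x ^ (Ideal.absNorm P - 1) = 1 := by
      rw [← hcard]
      exact FiniteField.pow_card_sub_one_eq_one x hx0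
    have hx3 : x = 1 := by
      have h3 : orderOf x ∣ ℓ := orderOf_dvd_of_pow_eq_one hx1
      have h4 : orderOf x ∣ Ideal.absNorm P - 1 := orderOf_dvd_of_pow_eq_one hx2
      rcases (Nat.dvd_prime hℓ).1 h3 with h5 | h5
      · exact orderOf_eq_one_iff.1 h5
      · rw [h5] at h4
        exact absurd h4 h2
    have hℓP : (ℓ : 𝓞 K) ∈ P := by
      have h3 : (Ideal.Quotient.mk P) (∑ i ∈ Finset.range ℓ, a ^ i) = (ℓ : 𝓞 K ⧸ P) := by
        rw [map_sum]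
        have h4 : ∀ i ∈ Finset.range ℓ, (Ideal.Quotient.mk P) (a ^ i) = 1 := by
          intro i _
          rw [map_pow, ← hx, hx3, one_pow]
        rw [Finset.sum_congr rfl h4, Finset.sum_const, Finset.card_range, nsmul_eq_mul, mul_one]
      rw [Ideal.Quotient.eq_zero_iff_mem.2 hsP] at h3
      refine Ideal.Quotient.eq_zero_iff_mem.1 ?_
      rw [map_natCast]
      exact h3.symm
    apply h1
    by_contra hnd
    obtain ⟨x', y', hxy⟩ := Nat.Coprime.cast (R := 𝓞 K)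
      ((Nat.Prime.coprime_iff_not_dvd hℓ).2 hnd)
    apply hP.ne_top
    rw [Ideal.eq_top_iff_one, ← hxy]
    exact P.add_mem (P.mul_mem_left _ hℓP) (P.mul_mem_left _ (Ideal.absNorm_mem P))
  rw [← hs] at ha
  exact hcop.dvd_of_dvd_mul_left ha

theorem card_U {μ : 𝓞 K} {H : Subgroup (CU μ)} (hμ : μ ≠ 0) {ℓ : ℕ} (hℓ : ℓ.Prime)
    (h : ∀ P : HeightOneSpectrum (𝓞 K), μ ∈ P.asIdeal →
      ¬ ℓ ∣ Ideal.absNorm P.asIdeal ∧ ¬ ℓ ∣ Ideal.absNorm P.asIdeal - 1) :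
    ¬ ℓ ∣ Nat.card (U H) := by
  have h1 : Finite (𝓞 K ⧸ Ideal.span {μ}) := by
    refine Ideal.finiteQuotientOfFreeOfNeBot _ ?_
    rw [Ne, Ideal.span_singleton_eq_bot]
    exact hμ
  have hfl : Fact ℓ.Prime := ⟨hℓ⟩
  intro hd
  obtain ⟨u, hu⟩ := exists_prime_orderOf_dvd_card' ℓ hd
  have h2 : u ^ ℓ = 1 := by rw [← hu]; exact pow_orderOf_eq_one u
  have h3 : ∀ i : ℕ, μ ∣ rp (u ^ i) - rp u ^ i := by
    intro i
    induction i with
    | zero =>
      rw [pow_zero, pow_zero]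
      exact rp_one
    | succ i ih =>
      rw [pow_succ, pow_succ]
      have e : rp (u ^ i * u) - rp u ^ i * rp u = (rp (u ^ i * u) - rp (u ^ i) * rp u) +
        (rp (u ^ i) - rp u ^ i) * rp u := by ring
      rw [e]
      exact dvd_add (rp_mul _ _) (ih.mul_right _)
  have h4 := h3 ℓ
  rw [h2] at h4
  have h5 : μ ∣ rp u ^ ℓ - 1 := by
    have e : rp u ^ ℓ - 1 = (rp (1 : U H) - 1) - (rp (1 : U H) - rp u ^ ℓ) := by ring
    rw [e]
    exact dvd_sub rp_one h4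
  have h6 := pow_cong hμ hℓ h h5
  have h7 : u = 1 := by
    apply rp_inj
    have e : rp u - rp (1 : U H) = (rp u - 1) - (rp (1 : U H) - 1) := by ring
    rw [e]
    exact dvd_sub h6 rp_one
  rw [h7, orderOf_one] at hu
  exact hℓ.one_lt.ne hu

end

end Pool.Agent.Lib.MP_1a91b9_nuE
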