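import Pool.Agent.Lib.MP_1a91b9_nuE.TrV
import Pool.Agent.Lib.MP_1a91b9_nuX.DG.DetL
import Pool.Agent.Lib.MP_1a91b9_nuX.DG.DNe

/-!
# The valuation of the determinant `dL`
-/

set_option autoImplicit false

namespace Pool.Agent.Lib.MP_1a91b9_nuE

variable [Pool.Agent.Lib.MP_1a91b9_nuT.CD]

open NumberField IsDedekindDomain WeierstrassCurve Pool.Agent.Lib.MP_1a91b9_nuT
open Pool.Agent.Lib.MP_1a91b9_nuX.DB Pool.Agent.Lib.MP_1a91b9_nuX.DG
open Pool.Agent.Lib.MP_1a91b9_nuX

noncomputable section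

omit [Pool.Agent.Lib.MP_1a91b9_nuT.CD] in
/-- the valuation of a value of a character -/
theorem val_char {G : Type} [Group G] [Fintype G] (χ : G →* ℂ) (g : G) (A : ValuationSubring ℂ) :
    A.valuation (χ g) = 1 := by
  have h1 : A.valuation (χ g) ^ Fintype.card G = 1 := by
    rw [← map_pow, ← map_pow, pow_card_eq_one, map_one, map_one]
  exact (pow_eq_one_iff_of_nonneg zero_le Fintype.card_ne_zero).1 h1

/-- the determinant of a translated group matrix -/
theorem det_shift_val {G : Type} [Group G] [Fintype G] [DecidableEq G]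
    (hc : ∀ a b : G, a * b = b * a) (y : G → ℂ) (κ : ℂ) (k : G) (A : ValuationSubring ℂ) :
    A.valuation (Matrix.det (Matrix.of fun g h : G => κ * y (g * h * k))) =
      A.valuation κ ^ Fintype.card G *
        A.valuation (Matrix.det (Matrix.of fun g h : G => y (g * h))) := by
  obtain ⟨ι, iι, χ, hχ1, ⟨ε, hε, hdet⟩, -⟩ :=
    Pool.Agent.Lib.MP_1a91b9_nuT.DG.exists_chars (G := G) hc
  have e0 : (Matrix.of fun g h : G => κ * y (g * h * k)) =
      κ • Matrix.of fun g h : G => y (g * h * k) := by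
    ext g h
    rfl
  rw [e0, Matrix.det_smul, map_mul, map_pow]
  congr 1
  have h1 := hdet (fun g => y (g * k))
  beta_reduce at h1
  rw [h1, hdet y]
  have e1 : ∀ i, ∑ g : G, χ i g * y (g * k) = χ i k⁻¹ * ∑ g : G, χ i g * y g := by
    intro i
    rw [Finset.mul_sum]
    refine Fintype.sum_equiv (Equiv.mulRight k) _ _ fun g => ?_
    show χ i g * y (g * k) = χ i k⁻¹ * (χ i (g * k) * y (g * k))
    have h2 : χ i (g * k) * χ i k⁻¹ = χ i g := by rw [← map_mul, mul_inv_cancel_right]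
    rw [← mul_assoc, mul_comm (χ i k⁻¹), h2]
  rw [Finset.prod_congr rfl fun i _ => e1 i, Finset.prod_mul_distrib, map_mul, map_mul, map_mul,
    map_prod]
  rw [Finset.prod_congr rfl fun i _ => val_char (χ i) k⁻¹ A, Finset.prod_const_one, one_mul]

variable [FP] [HC]

section
variable {μ : 𝓞 K} {H : Subgroup (CU μ)} {F L' : Type} [Field F]
  [NumberField F] [Algebra K F] [Field L'] [NumberField L'] [Algebra K L'] [Algebra F L']
  [IsScalarTower K F L'] [DecidableEq L'] {J' : Pt L'} (hAB : AB H F L' J')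
include hAB

theorem dL_val (hM : Md μ) (h1 : μ ∣ pk - 1) (φ : L' →ₐ[K] ℂ) {L : ℂ → ℂ}
    (hL : Differentiable ℂ L) (hL1 : ∀ s : ℂ, 2 < s.re → L s = S4.Lf (psbC F) s)
    (A : ValuationSubring ℂ) (hμ : A.valuation (embK (μ : K)) = 1) (h2 : A.valuation 2 = 1)
    (hp : A.valuation (embK ((pk : 𝓞 K) : K) -
      (Ideal.absNorm (Ideal.span {(pk : 𝓞 K)}) : ℂ)) = 1)
    (hB : ∀ v : HeightOneSpectrum (𝓞 F), algebraMap (𝓞 K) (𝓞 F) μ ∈ v.asIdeal →
      A.valuation (1 - psbC F v.asIdeal * (Ideal.absNorm v.asIdeal : ℂ) ^ (-1 : ℂ)) = 1) :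
    A.valuation (φ (algebraMap F L' (dL F L' J'))) =
      A.valuation (L 1 / Om ^ Module.finrank K F) := by
  have hg : IsGalois K F := hAB.galF
  have hfU : Finite (U H) := by
    have h1 : Finite (𝓞 K ⧸ Ideal.span {μ}) := by
      refine Ideal.finiteQuotientOfFreeOfNeBot _ ?_
      rw [Ne, Ideal.span_singleton_eq_bot]
      exact hAB.ne
    infer_instance
  have hftU : Fintype (U H) := Fintype.ofFinite (U H)
  let hdec : DecidableEq Gal(F/K) := Classical.decEq _
  obtain ⟨res, -, hres⟩ := hAB.exists_res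
  have hnot : ∀ u : U H, ¬ μ ∣ rp u := fun u h =>
    hM.not_unit ((rp_cop u).isUnit_of_dvd' h dvd_rfl)
  choose Y hY hY1 hY2 using fun u : U H =>
    Pool.Agent.Lib.MP_1a91b9_nuT.DG.exists_Z hAB.ne (hnot u) hM.inj
  obtain ⟨η, u0, hkey⟩ := trace_val1 hAB hM h1 hres φ
  have hBfin : {v : HeightOneSpectrum (𝓞 F) |
      Ideal.span {algebraMap (𝓞 K) (𝓞 F) μ} ≤ v.asIdeal}.Finite := by
    refine (Ideal.finite_factors (I := Ideal.span {algebraMap (𝓞 K) (𝓞 F) μ}) ?_).subset
      fun v hv => ?_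
    · rw [Ne, Ideal.zero_eq_bot, Ideal.span_singleton_eq_bot,
        map_eq_zero_iff _ (FaithfulSMul.algebraMap_injective (𝓞 K) (𝓞 F))]
      exact hAB.ne
    · exact Ideal.dvd_iff_le.mpr hv
  obtain ⟨B, hBdef⟩ : ∃ B, B = hBfin.toFinset := ⟨_, rfl⟩
  have hBm : ∀ v, v ∈ B ↔ algebraMap (𝓞 K) (𝓞 F) μ ∈ v.asIdeal := fun v => by
    rw [hBdef, Set.Finite.mem_toFinset]
    exact Ideal.span_singleton_le_iff_mem _
  obtain ⟨ε', hε', hdet⟩ := hAB.det_val hM hres hY hY1 hL hL1 B hBm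
  obtain ⟨y, hy⟩ : ∃ y : Gal(F/K) → ℂ, ∀ g, y g =
      ∑ u : U H, if res u = g then Y u 1 else 0 := ⟨_, fun _ => rfl⟩
  have hvε : A.valuation ε' = 1 := by
    rcases hε' with rfl | rfl
    · exact map_one _
    · rw [Valuation.map_neg, map_one]
  have hB1 : A.valuation (∏ v ∈ B,
      (1 - psbC F v.asIdeal * (Ideal.absNorm v.asIdeal : ℂ) ^ (-1 : ℂ))) = 1 := by
    rw [map_prod]
    exact Finset.prod_eq_one fun v hv => hB v ((hBm v).1 hv)
  have hdy : A.valuation (Matrix.det (Matrix.of fun g h : Gal(F/K) => y (g * h))) =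
      A.valuation (L 1) := by
    have e : (Matrix.of fun g h : Gal(F/K) => y (g * h)) = Matrix.of fun g h : Gal(F/K) =>
        ∑ u : U H, if res u = g * h then Y u 1 else 0 := by
      ext g h
      exact hy (g * h)
    rw [e, hdet, map_mul, map_mul, hvε, hB1, one_mul, mul_one]
  obtain ⟨κ, hκ⟩ : ∃ κ : ℂ, κ = 2 * embK (μ : K) * (embK ((η : 𝓞 K) : K))⁻¹ *
      (embK ((pk : 𝓞 K) : K) - (Ideal.absNorm (Ideal.span {(pk : 𝓞 K)}) : ℂ)) := ⟨_, rfl⟩
  have hvκ : A.valuation κ = 1 := by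
    have hη : A.valuation (embK ((η : 𝓞 K) : K)) = 1 := by
      have hi : ∀ x : 𝓞 K, A.valuation (embK (x : K)) ≤ 1 := fun x =>
        S4.val_integral A ((RingOfIntegers.isIntegral_coe x).map (embK.restrictScalars ℤ))
      refine S4.val_eq_one_of_mul A (hi _) (hi ((η⁻¹ : (𝓞 K)ˣ) : 𝓞 K)) ?_
      rw [← emb_mul, Units.mul_inv]
      have e : ((1 : 𝓞 K) : K) = 1 := rfl
      rw [e, map_one, map_one]
    rw [hκ, map_mul, map_mul, map_mul, map_inv₀, h2, hμ, hη, hp, inv_one, mul_one, mul_one,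
      mul_one]
  have hkey2 : ∀ g : Gal(F/K), Om * φ (algebraMap F L' (g (Algebra.trace F L' (lamQ J')))) =
      κ * y (g * res u0) := by
    intro g
    rw [hkey g, ← hκ, hy]
    have e : ∀ t : Gal(F/K), (∑ u : U H, if res u = t then
        (embK (μ : K))⁻¹ * E1 (embK ((rp u : 𝓞 K) : K) / embK (μ : K)) else 0) =
        ∑ u : U H, if res u = t then Y u 1 else 0 := by
      intro t
      refine Finset.sum_congr rfl fun u _ => ?_
      by_cases hc : res u = t
      · rw [if_pos hc, if_pos hc, hY2]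
      · rw [if_neg hc, if_neg hc]
    rw [e]
  have e1 : φ (algebraMap F L' (dL F L' J')) =
      Matrix.det (((φ : L' →+* ℂ).comp (algebraMap F L')).mapMatrix
        (Matrix.of fun g h : Gal(F/K) => (g * h) (Algebra.trace F L' (lamQ J')))) := by
    rw [← RingHom.map_det]
    rfl
  have e2 : Matrix.det (Matrix.of fun g h : Gal(F/K) => κ * y (g * h * res u0)) =
      Om ^ Fintype.card Gal(F/K) * φ (algebraMap F L' (dL F L' J')) := by
    rw [e1, ← Matrix.det_smul]
    refine congrArg Matrix.det ?_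
    ext g h
    exact (hkey2 (g * h)).symm
  have e3 := det_shift_val hAB.commF y κ (res u0) A
  rw [e2, hvκ, one_pow, one_mul, hdy, map_mul] at e3
  have hcard : Fintype.card Gal(F/K) = Module.finrank K F := by
    rw [← Nat.card_eq_fintype_card, IsGalois.card_aut_eq_finrank]
  have hO : A.valuation (Om ^ Module.finrank K F) ≠ 0 :=
    (map_ne_zero _).2 (pow_ne_zero _ Om_ne)
  rw [hcard] at e3
  rw [map_div₀, eq_div_iff hO, mul_comm, e3]

end

end

end Pool.Agent.Lib.MP_1a91b9_nuE
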