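import Pool.Agent.Lib.MP_1a91b9_nuE.DetV
import Pool.Agent.Lib.MP_1a91b9_nuX.AN.Family
import Pool.Agent.Lib.MP_1a91b9_nuX.GM.VExt
import Pool.Agent.Lib.MP_1a91b9_nuT.PL.Val

/-!
# The determinant `dL` is a unit above `ℓ`
-/

set_option autoImplicit false

namespace Pool.Agent.Lib.MP_1a91b9_nuE

variable [Pool.Agent.Lib.MP_1a91b9_nuT.CD]

open NumberField IsDedekindDomain WeierstrassCurve Pool.Agent.Lib.MP_1a91b9_nuT
open Pool.Agent.Lib.MP_1a91b9_nuX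
open Pool.Agent.Lib.MP_1a91b9_nuX.DB Pool.Agent.Lib.MP_1a91b9_nuX.DG
open Pool.Agent.Lib.MP_1a91b9_nuG (up)
open Pool.Agent.Lib.MP_1a91b9_nuT.PL (Ab)

noncomputable section

/-- the elements of norm prime to `ℓ` are units above `ℓ` -/
theorem val_embK {ℓ : ℕ} {A : ValuationSubring ℂ} (hA : Ab ℓ A) {y : 𝓞 K}
    (h : (Ideal.absNorm (Ideal.span {y})).Coprime ℓ) : A.valuation (embK (y : K)) = 1 := by
  have h1 : IsIntegral ℤ (embK (y : K)) :=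
    (RingOfIntegers.isIntegral_coe y).map (embK.restrictScalars ℤ)
  have h2 : IsIntegral ℤ (embK ((cj y : 𝓞 K) : K)) :=
    (RingOfIntegers.isIntegral_coe (cj y)).map (embK.restrictScalars ℤ)
  refine S4.val_eq_one_of_mul A (S4.val_integral A h1) (S4.val_integral A h2) ?_
  have e : embK (y : K) * embK ((cj y : 𝓞 K) : K) =
      ((Ideal.absNorm (Ideal.span {y}) : ℕ) : ℂ) := by
    have h3 := congrArg (fun t : 𝓞 K => embK (algebraMap (𝓞 K) K t)) (mul_cj y)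
    simp only [map_mul, map_natCast] at h3
    exact h3
  rw [e]
  exact hA.nat h

/-- a place of `F` above `ℓ` extends to the complex numbers -/
theorem exists_place {F : Type} [Field F] [NumberField F] (f : F →+* ℂ)
    (v : HeightOneSpectrum (𝓞 F)) {ℓ : ℕ} (hℓ : ℓ ≠ 0) (hv : (ℓ : 𝓞 F) ∈ v.asIdeal) :
    ∃ A : ValuationSubring ℂ, Ab ℓ A ∧ ∀ x : F, A.valuation (f x) = 1 → v.valuation F x = 1 := by
  let _ : Algebra F ℂ := f.toAlgebra
  obtain ⟨A, hA⟩ := GM.exists_val_ext (F' := ℂ) (v.valuation F)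
  have hm : ∀ x : F, A.valuation (f x) ≤ 1 ↔ v.valuation F x ≤ 1 := hA
  refine ⟨A, fun h => ?_, fun x hx => ?_⟩
  · have h1 : A.valuation (f ((ℓ : F)⁻¹)) ≤ 1 := by
      rw [map_inv₀, map_natCast, A.valuation_le_one_iff]
      exact h
    rw [hm] at h1
    have h2 : v.valuation F ((ℓ : 𝓞 F) : F) < 1 := (v.valuation_lt_one_iff_mem _).2 hv
    have e2 : ((ℓ : 𝓞 F) : F) = (ℓ : F) := map_natCast (algebraMap (𝓞 F) F) ℓ
    rw [e2] at h2
    rw [map_inv₀] at h1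
    have h0 : v.valuation F (ℓ : F) ≠ 0 := (Valuation.ne_zero_iff _).2 (Nat.cast_ne_zero.2 hℓ)
    exact absurd ((inv_le_one₀ (zero_lt_iff.2 h0)).1 h1) (not_le.2 h2)
  · have hx0 : x ≠ 0 := by
      rintro rfl
      rw [map_zero, map_zero] at hx
      exact zero_ne_one hx
    refine le_antisymm ((hm x).1 hx.le) ?_
    have h1 : A.valuation (f x⁻¹) ≤ 1 := by
      rw [map_inv₀, map_inv₀, hx, inv_one]
    rw [hm, map_inv₀] at h1
    exact (inv_le_one₀ (zero_lt_iff.2 ((Valuation.ne_zero_iff _).2 hx0))).1 h1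

theorem absNorm_natK (n : ℕ) : Ideal.absNorm (Ideal.span {(n : 𝓞 K)}) = n ^ 2 := by
  have h : ((Ideal.absNorm (Ideal.span {(n : 𝓞 K)}) : ℕ) : 𝓞 K) = ((n ^ 2 : ℕ) : 𝓞 K) := by
    rw [← mul_cj, map_natCast]
    push_cast
    ring
  exact Nat.cast_injective h

theorem not_mem_of_cop {μ : 𝓞 K} {ℓ : ℕ} (hμ : (Ideal.absNorm (Ideal.span {μ})).Coprime ℓ)
    {F : Type} [Field F] [NumberField F] [Algebra K F] {v : HeightOneSpectrum (𝓞 F)}
    (h : algebraMap (𝓞 K) (𝓞 F) μ ∈ v.asIdeal) : (ℓ : 𝓞 F) ∉ v.asIdeal := by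
  intro hv
  obtain ⟨c, hc⟩ : μ ∣ ((Ideal.absNorm (Ideal.span {μ}) : ℕ) : 𝓞 K) :=
    Ideal.mem_span_singleton.1 (Ideal.absNorm_mem _)
  have h1 : ((Ideal.absNorm (Ideal.span {μ}) : ℕ) : 𝓞 F) ∈ v.asIdeal := by
    have h2 := congrArg (algebraMap (𝓞 K) (𝓞 F)) hc
    rw [map_mul, map_natCast] at h2
    rw [h2]
    exact Ideal.mul_mem_right _ _ h
  obtain ⟨x, y, hxy⟩ := Nat.Coprime.cast (R := 𝓞 F) hμ
  apply v.isPrime.ne_top
  rw [Ideal.eq_top_iff_one, ← hxy]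
  exact v.asIdeal.add_mem (v.asIdeal.mul_mem_left _ h1) (v.asIdeal.mul_mem_left _ hv)

/-- an auxiliary element congruent to `1` modulo `μ` and to `-1` modulo `ℓ` -/
theorem exists_fp1 {μ : 𝓞 K} (hμ : μ ≠ 0) {ℓ : ℕ} (hℓ : ℓ.Prime) (h2 : ℓ ≠ 2)
    (hc : (Ideal.absNorm (Ideal.span {μ})).Coprime ℓ) :
    ∃ (fp : FP) (n : ℕ), fp.a = (n : 𝓞 K) ∧ μ ∣ fp.a - 1 ∧ ℓ ∣ n + 1 := by
  have hN0 : Ideal.absNorm (Ideal.span {μ}) ≠ 0 := by
    rw [Ne, Ideal.absNorm_eq_zero_iff, Ideal.span_singleton_eq_bot]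
    exact hμ
  obtain ⟨N, hN⟩ : ∃ N, N = Ideal.absNorm (Ideal.span {μ}) := ⟨_, rfl⟩
  rw [← hN] at hc hN0
  have hcop : (2 * N).Coprime ℓ := by
    refine Nat.Coprime.mul_left ?_ hc
    rw [Nat.coprime_primes Nat.prime_two hℓ]
    exact fun h => h2 h.symm
  obtain ⟨k, hk1, hk2⟩ := Nat.chineseRemainder hcop 1 (ℓ - 1)
  obtain ⟨n, hn⟩ : ∃ n, n = k + 2 * N * ℓ := ⟨_, rfl⟩
  have hn1 : n ≡ 1 [MOD 2 * N] := by
    refine Nat.ModEq.trans ?_ hk1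
    rw [hn]
    exact Nat.add_mul_mod_self_left _ _ _
  have hn2 : ℓ ∣ n + 1 := by
    have h3 : n ≡ ℓ - 1 [MOD ℓ] := by
      refine Nat.ModEq.trans ?_ hk2
      rw [hn]
      exact Nat.add_mul_mod_self_right _ _ _
    have h4 := h3.add_right 1
    rw [Nat.sub_add_cancel hℓ.one_le] at h4
    exact (Nat.modEq_zero_iff_dvd).1 (h4.trans (by simp [Nat.ModEq]))
  have hn3 : 1 < n := by
    have := Nat.pos_of_ne_zero hN0
    have := hℓ.two_le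
    rw [hn]
    nlinarith
  have hn0 : n ≠ 0 := by omega
  have hd : ((2 * N : ℕ) : 𝓞 K) ∣ (n : 𝓞 K) - 1 := by
    have h1 : ((2 * N : ℕ) : ℤ) ∣ (n : ℤ) - 1 := (Nat.modEq_iff_dvd.1 hn1.symm)
    have h3 := map_dvd (Int.castRingHom (𝓞 K)) h1
    rw [map_sub, map_one, map_natCast, map_natCast] at h3
    exact h3
  refine ⟨⟨(n : 𝓞 K), Nat.cast_ne_zero.2 hn0, fun hu => ?_, ?_⟩, n, rfl, ?_, hn2⟩
  · have h4 := Ideal.span_singleton_eq_top.2 hu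
    have h5 := absNorm_natK n
    rw [h4, Ideal.absNorm_top] at h5
    nlinarith
  · obtain ⟨b, hb⟩ := (Dvd.intro _ (by push_cast; ring : (2 : 𝓞 K) * (N : 𝓞 K) =
      ((2 * N : ℕ) : 𝓞 K))).trans hd
    exact ⟨-b, 1, by linear_combination hb⟩
  · refine (Dvd.dvd.trans ?_ hd)
    push_cast
    refine Dvd.dvd.mul_left ?_ _
    rw [hN]
    exact Ideal.mem_span_singleton.1 (Ideal.absNorm_mem _)

section
variable [FP] [HC] {μ : 𝓞 K} {H : Subgroup (CU μ)} {F L' : Type} [Field F]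
  [NumberField F] [Algebra K F] [Field L'] [NumberField L'] [Algebra K L'] [Algebra F L']
  [IsScalarTower K F L'] [DecidableEq L'] {J' : Pt L'} (hAB : AB H F L' J')
include hAB

/-- **The determinant is a unit above `ℓ`** if the value of the L-series is. -/
theorem dL_unit (hM : Md μ) {ℓ : ℕ} (hℓ : ℓ.Prime) (h2 : ℓ ≠ 2)
    (hμ : (Ideal.absNorm (Ideal.span {μ})).Coprime ℓ) {n : ℕ} (hn : (pk : 𝓞 K) = (n : 𝓞 K))
    (h1 : μ ∣ pk - 1) (hnℓ : ℓ ∣ n + 1)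
    (hna : ∀ v : HeightOneSpectrum (𝓞 F), algebraMap (𝓞 K) (𝓞 F) μ ∈ v.asIdeal →
      up HC.f F ∉ v.asIdeal → IsCoprime (psi F v.asIdeal - 1) (ℓ : 𝓞 K))
    (hU : AN.UnitProp ℓ Om F) (v : HeightOneSpectrum (𝓞 F)) (hv : (ℓ : 𝓞 F) ∈ v.asIdeal) :
    v.valuation F (dL F L' J') = 1 := by
  have hfl : Fact ℓ.Prime := ⟨hℓ⟩
  obtain ⟨φ⟩ := exists_emb L'
  obtain ⟨A, hA, hAv⟩ := exists_place ((φ : L' →+* ℂ).comp (algebraMap F L')) v hℓ.ne_zero hv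
  apply hAv
  obtain ⟨L, hL, hL1, hLA⟩ := hU
  change A.valuation (φ (algebraMap F L' (dL F L' J'))) = 1
  have hc2 : (2 : ℕ).Coprime ℓ := (Nat.coprime_primes Nat.prime_two hℓ).2 fun h => h2 h.symm
  have hv2 : A.valuation (2 : ℂ) = 1 := by
    have h3 := hA.nat hc2
    rwa [Nat.cast_ofNat] at h3
  rw [dL_val hAB hM h1 φ hL hL1 A (val_embK hA hμ) hv2 ?_ fun w hw => ?_, hLA A hA]
  · rw [hn, absNorm_natK]
    have e : embK (((n : 𝓞 K)) : K) = (n : ℂ) := by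
      have e1 : (((n : 𝓞 K)) : K) = (n : K) := map_natCast (algebraMap (𝓞 K) K) n
      rw [e1, map_natCast]
    rw [e]
    have e3 : (n : ℂ) - ((n ^ 2 : ℕ) : ℂ) = ((n * (1 - n) : ℤ) : ℂ) := by
      push_cast
      ring
    rw [e3]
    refine hA.int ?_
    obtain ⟨t, ht⟩ := hnℓ
    have ht' : (n : ℤ) = ℓ * t - 1 := by
      have := congrArg (Nat.cast : ℕ → ℤ) ht
      push_cast at this
      linarith
    obtain ⟨a, b, hab⟩ : IsCoprime (2 : ℤ) (ℓ : ℤ) := by exact_mod_cast Nat.isCoprime_iff_coprime.2 hc2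
    rw [ht']
    refine ⟨-a, b + a * (t * (3 - ℓ * t)), ?_⟩
    linear_combination hab
  · by_cases h3 : up HC.f F ∈ w.asIdeal
    · rw [AN.psbC_bad w h3, zero_mul, sub_zero, map_one]
    · exact AN.val_euler A hA w h3 (not_mem_of_cop hμ hw) (hna w hw h3)

end

end

end Pool.Agent.Lib.MP_1a91b9_nuE
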