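import Pool.Agent.Lib.MP_1a91b9_nuE.Tor
import Pool.Agent.Lib.MP_1a91b9_nuX.PH.Hv
import Pool.Agent.Lib.MP_1a91b9_nuX.LF.NiceD
import Pool.Agent.Lib.MP_1a91b9_nuX.LG.Iso
import Pool.Agent.Lib.MP_1a91b9_nuX.DG.FqV
import Pool.Agent.Lib.MP_1a91b9_nuX.DB.VT
import Pool.Agent.Lib.MP_1a91b9_nuT.DB.Od

/-!
# The decomposition groups at the bad places are not trivial: an explicit condition
-/

set_option autoImplicit false

namespace Pool.Agent.Lib.MP_1a91b9_nuE

variable [Pool.Agent.Lib.MP_1a91b9_nuT.CD]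

open NumberField IsDedekindDomain WeierstrassCurve Pool.Agent.Lib.MP_1a91b9_nuT
open Pool.Agent.Lib.MP_1a91b9_nuX
open Pool.Agent.Lib.MP_1a91b9_nuX.DB Pool.Agent.Lib.MP_1a91b9_nuX.GL
open Pool.Agent.Lib.MP_1a91b9_nuX.PG (Gd FrV Trp trp_exists cxy_ext)
open Pool.Agent.Lib.MP_1a91b9_nuX.PH (Hv hv_frv)

noncomputable section

/-- the value of the Hecke character at a place of good reduction is congruent to `1` modulo the annihilator of a rational
torsion point -/
theorem hv_tors (hE : EllK) {N : Type} [Field N] [NumberField N] [Algebra K N] [DecidableEq N]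
    {w : HeightOneSpectrum (𝓞 N)} (hg : Gd (E N) w) {ϖ : 𝓞 K} {P : Pt N} (hP : Ord ϖ P)
    (hw : w.valuation N (algebraMap K N (ϖ : K)) = 1) : ϖ ∣ Hv (E N) w - 1 := by
  classical
  rcases eq_or_ne P 0 with h0 | h0
  · have h1 : ϖ ∣ 1 := (hP 1).1 (by rw [h0, map_zero])
    exact h1.trans (one_dvd _)
  obtain ⟨ι⟩ := PH.exists_emb N
  let iA : Algebra N Kb := (ι : N →+* Kb).toAlgebra
  have iT : IsScalarTower K N Kb := IsScalarTower.of_algebraMap_eq fun x => (ι.commutes x).symm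
  have hD : (1 : VariableChange Kb) • EF Kb = (E N).map (algebraMap N Kb) := by
    rw [one_smul, EF_eq, PH.E_map_up]
  have hF : Algebra.IsAlgebraic N Kb := Algebra.IsAlgebraic.tower_top (K := K) N
  have hfr : FrV 1 w (Hv (E N) w) := hv_frv hE PH.fm_E hg hD
  obtain ⟨V, hV⟩ := exists_abv (Ω := Kb) w
  obtain ⟨σ, hσ⟩ := exists_fr (Ω := Kb) hV
  obtain ⟨φ, hφ⟩ := trp_exists hD σ
  obtain ⟨T, hT⟩ : ∃ T, T = pm ι P := ⟨_, rfl⟩
  have hT0 : T ≠ 0 := by
    intro h
    apply h0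
    apply pm_inj ι
    rw [← hT, h, map_zero]
  have hTa : Ta V.valuation T := by
    refine ⟨ϖ, ?_, ?_⟩
    · have h1 := (abv_eq hV (algebraMap K N (ϖ : K))).2 hw
      rwa [← IsScalarTower.algebraMap_apply K N Kb] at h1
    · rw [hT, ← pm_sm, (hP ϖ).2 dvd_rfl, map_zero]
  have h1 := hfr V hV σ hσ φ hφ T hTa
  obtain ⟨h2, h3, h4⟩ := hφ T hT0
  have hfix : ∀ x : N, σ (ι x) = ι x := fun x => σ.commutes x
  have h5 : φ T = T := by
    have hu : (((1 : VariableChange Kb).u : Kbˣ) : Kb) = 1 := rfl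
    have hr : (1 : VariableChange Kb).r = 0 := rfl
    have hs : (1 : VariableChange Kb).s = 0 := rfl
    have ht : (1 : VariableChange Kb).t = 0 := rfl
    have ex : cx (1 : VariableChange Kb) T = ι (xc P) := by
      rw [cx, hu, hr, one_pow, div_one, sub_zero, hT, xc_pm]
    have ey : cy (1 : VariableChange Kb) T = ι (yc P) := by
      rw [cy, hu, hr, hs, ht, one_pow, div_one, zero_mul, sub_zero, sub_zero, hT, yc_pm]
    refine cxy_ext (D := 1) h2 hT0 ?_ ?_
    · rw [h3, ex, hfix]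
    · rw [h4, ey, hfix]
  rw [h5, hT, ← pm_sm] at h1
  have h6 := pm_inj ι h1
  have h7 : sm N 1 P = sm N (Hv (E N) w) P := by
    rw [← h6, map_one]
    rfl
  have h8 := (hP.sm_eq_iff _ _).1 h7
  rwa [← dvd_neg, neg_sub] at h8

open scoped Pointwise in
/-- trivial decomposition group: unramified of degree one -/
private theorem dte_ef {k N : Type} [Field k] [NumberField k] [Field N] [NumberField N]
    [Algebra k N] [IsGalois k N] (v : HeightOneSpectrum (𝓞 N))
    (hst : ∀ σ : Gal(N/k), gpl σ v = v → σ = 1) :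
    v.asIdeal.ramificationIdx (𝓞 k) = 1 ∧ v.asIdeal.inertiaDeg (𝓞 k) = 1 := by
  have i1 : v.asIdeal.IsPrime := v.isPrime
  have i2 : (v.under (𝓞 k)).asIdeal.IsPrime := (v.under (𝓞 k)).isPrime
  have i3 : (v.under (𝓞 k)).asIdeal.IsMaximal := (v.under (𝓞 k)).isMaximal
  have i4 : v.asIdeal.LiesOver (v.under (𝓞 k)).asIdeal := ⟨rfl⟩
  have i5 : Finite (v.under (𝓞 k)).asIdeal.ResidueField := by
    have j1 : Finite (𝓞 k ⧸ (v.under (𝓞 k)).asIdeal) :=
      Ideal.finiteQuotientOfFreeOfNeBot _ (v.under (𝓞 k)).ne_bot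
    exact Finite.of_surjective _
      (Ideal.bijective_algebraMap_quotient_residueField (v.under (𝓞 k)).asIdeal).2
  have h1 := Ideal.card_stabilizer_eq (G := Gal(N/k)) (v.under (𝓞 k)).asIdeal v.asIdeal
  have h2 : Nat.card (MulAction.stabilizer Gal(N/k) v.asIdeal) = 1 := by
    rw [Nat.card_eq_one_iff_unique]
    refine ⟨⟨?_⟩, ⟨1⟩⟩
    have hone : ∀ g : MulAction.stabilizer Gal(N/k) v.asIdeal, g.1 = 1 := by
      rintro ⟨g, hg⟩
      change g = 1
      apply hst
      apply HeightOneSpectrum.ext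
      rw [MulAction.mem_stabilizer_iff] at hg
      conv_rhs => rw [← hg]
      rw [Ideal.pointwise_smul_eq_comap]
      rfl
    intro a b
    exact Subtype.ext ((hone a).trans (hone b).symm)
  rw [h2, Ideal.ramificationIdxIn_eq_ramificationIdx _ v.asIdeal Gal(N/k),
    Ideal.inertiaDegIn_eq_inertiaDeg _ v.asIdeal Gal(N/k)] at h1
  exact ⟨Nat.eq_one_of_mul_eq_one_right h1.symm, Nat.eq_one_of_mul_eq_one_left h1.symm⟩

/-- **The decomposition groups at the bad places are not trivial** if the bad places of good reduction are not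
anomalous. -/
theorem dt_expl (hE : EllK) {F : Type} [Field F] [NumberField F] [Algebra K F] {ϖ : 𝓞 K}
    {ℓ q : ℕ} (h : PD ϖ ℓ q) (hna : ∀ v : HeightOneSpectrum (𝓞 F),
      ((CD.bad : ℤ) : 𝓞 F) ∈ v.asIdeal → Gd (E F) v → ¬ ϖ ∣ Hv (E F) v - 1) : DT ϖ F := by
  intro N _ _ _ _ _ _ _ P hF v hv
  by_contra hcon
  push Not at hcon
  obtain ⟨he, hf⟩ := dte_ef (k := F) v (fun σ hσ => by
    by_contra h1
    exact hcon σ h1 hσ)
  have hvk : (v.under (𝓞 F)).valuation F (bD F) < 1 := by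
    rw [← val_map_lt, map_intCast]
    exact hv
  have hvb : ((CD.bad : ℤ) : 𝓞 F) ∈ (v.under (𝓞 F)).asIdeal := by
    have e : bD F = (((CD.bad : ℤ) : 𝓞 F) : F) := (map_intCast (algebraMap (𝓞 F) F) _).symm
    rw [e] at hvk
    exact ((v.under (𝓞 F)).valuation_lt_one_iff_mem _).1 hvk
  have hpi : v.valuation N (ℓ : N) = 1 := by
    refine le_antisymm (v_nat_le _ ℓ) (not_lt.1 fun h2 => ?_)
    rw [DG.bad_of_ell (v.valuation N) h.hl h.good h2] at hv
    exact lt_irrefl _ hv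
  have hvϖ : v.valuation N (algebraMap K N (ϖ : K)) = 1 := by
    obtain ⟨c, hc⟩ := h.dvd
    refine le_antisymm (v_alg_le _ _) (not_lt.1 fun h2 => ?_)
    have e : (ℓ : N) = algebraMap K N (ϖ : K) * algebraMap K N (c : K) := by
      rw [← map_mul]
      have e1 : ((ϖ * c : 𝓞 K) : K) = (ϖ : K) * (c : K) := map_mul _ _ _
      rw [← e1, ← hc]
      have e2 : (((ℓ : ℕ) : 𝓞 K) : K) = (ℓ : K) := map_natCast _ _
      rw [e2, map_natCast]
    rw [e, map_mul] at hpi
    exact absurd hpi (mul_lt_one_of_lt_of_le h2 (v_alg_le _ c)).ne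
  have hP0 : P ≠ 0 := by
    rintro rfl
    exact h.prime.not_isUnit (isUnit_of_dvd_one ((hF.ord 1).1 (map_zero _)))
  have hlP : ℓ • P = 0 := by
    rw [← sm_nat, hF.ord]
    exact h.dvd
  have hgN : Gd (E N) v := by
    have e : (E K).map (algebraMap K N) = E N := Per.E_map _
    have h1 : Gd ((E K).map (algebraMap K N)) v := by
      refine gd_of_tors (W := (E K).map (algebraMap K N)) ?_ v ?_ h.hl h.five hpi (P := P) hP0 hlP
      · rw [e]
        exact LF.E_Δ_ne
      · rw [e]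
        exact LF.c4_le v
    rwa [e] at h1
  have hgF : Gd (E F) (v.under (𝓞 F)) :=
    LF.good_down LF.inEx_48 (by rw [he]; exact Nat.coprime_one_left _) hgN
  have h1 := hv_tors hE hgN hF.ord hvϖ
  have e2 := PH.hv_up (F' := N) hE (PH.fm_E (F := F)) v hgF
  rw [PH.E_map_up, hf, pow_one] at e2
  rw [e2] at h1
  exact hna _ hvb hgF h1

end

end Pool.Agent.Lib.MP_1a91b9_nuE
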