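import Pool.Agent.Lib.MP_1a91b9_nuE.Gi

/-!
# Good reduction and the number of points for the four families
-/

set_option autoImplicit false

namespace Pool.Agent.Lib.MP_1a91b9_nuE

open NumberField IsDedekindDomain WeierstrassCurve Module
open Pool.Agent.Lib.MP_1a91b9_nuI

section
variable (R : Type*) [CommRing R] [IsDomain R] [IsDiscreteValuationRing R]
  {F : Type*} [Field F] [CharZero F] [Algebra R F] [IsFractionRing R F]
  [Finite (IsLocalRing.ResidueField R)]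

theorem good_smul (W : WeierstrassCurve F) (C : VariableChange F) (n : ℕ) :
    Good R (C • W) n ↔ Good R W n :=
  ⟨good_change R W C n, good_change' R W C n⟩

theorem p2_good {r a' b' a b : ℤ} (h : P2 r a' b' a b) (D : F) (n : ℕ) :
    Good R (cv (a' * D ^ 2) (b' * D ^ 3)) n ↔ Good R (cv (a * D ^ 2) (b * D ^ 3)) n := by
  have e1 := h.e1 D
  have e2 := h.e2 D
  rw [← good_smul R (cv (a' * D ^ 2) (b' * D ^ 3)) (⟨1, r * D, 0, 0⟩ : VariableChange F) n, e1,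
    good_two_iff R, ← e2, good_smul, good_smul]

theorem t3_good (D : F) (n : ℕ) :
    Good R (cv ((-120 : ℤ) * D ^ 2) ((506 : ℤ) * D ^ 3)) n ↔
      Good R (cv ((0 : ℤ) * D ^ 2) ((2 : ℤ) * D ^ 3)) n := by
  have hj' : HasJ (cv ((-120 : ℤ) * D ^ 2) ((506 : ℤ) * D ^ 3)) (-12288000) := by
    apply hasJ_cv
    push_cast
    ring
  have hj : HasJ (cv ((0 : ℤ) * D ^ 2) ((2 : ℤ) * D ^ 3)) 0 := by
    apply hasJ_cv
    push_cast
    ring
  have k1' := hasJ_change _ (⟨1, -2 * D, 0, 0⟩ : VariableChange F) _ hj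
  have k2' := hasJ_change _ (⟨1, -2 * D, 0, 0⟩ : VariableChange F) _ hj'
  rw [← good_smul R (cv ((-120 : ℤ) * D ^ 2) ((506 : ℤ) * D ^ 3))
      (⟨1, -2 * D, 0, 0⟩ : VariableChange F) n,
    ← good_smul R (cv ((0 : ℤ) * D ^ 2) ((2 : ℤ) * D ^ 3))
      (⟨1, -2 * D, 0, 0⟩ : VariableChange F) n]
  rw [T3.e1 D] at k1' ⊢
  rw [T3.e2 D] at k2' ⊢
  exact (good_three_iff R _ _ _ (by ring) 0 (-12288000) (by norm_num) (by norm_num) k1' k2'
    n).symm

/-- **Good models of the two curves correspond.** -/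
theorem four_good {a' b' a b : ℤ} {n : ℕ} {j' j d : ℤ} (h : Four a' b' a b n j' j d) (D : F)
    (k : ℕ) :
    Good R (cv (a' * D ^ 2) (b' * D ^ 3)) k ↔ Good R (cv (a * D ^ 2) (b * D ^ 3)) k := by
  rcases h with ⟨rfl, rfl, rfl, rfl, rfl, rfl, rfl, rfl⟩ | ⟨rfl, rfl, rfl, rfl, rfl, rfl, rfl, rfl⟩ |
    ⟨rfl, rfl, rfl, rfl, rfl, rfl, rfl, rfl⟩ | ⟨rfl, rfl, rfl, rfl, rfl, rfl, rfl, rfl⟩
  · exact p2_good R p2_12 D k
  · exact p2_good R p2_16 D k
  · exact p2_good R p2_28 D k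
  · exact t3_good R D k

end

/-- the numbers of points of the good models -/
theorem four_pts {a' b' a b : ℤ} {n : ℕ} {j' j d : ℤ} (h : Four a' b' a b n j' j d) (D₀ : ℤ)
    {F : Type} [Field F] [NumberField F] {ℓ : ℕ} (v : HeightOneSpectrum (𝓞 F))
    (H : ∀ (V : WeierstrassCurve (𝓞 F)) (C : VariableChange F),
      C • (⟨0, 0, 0, ((a' * D₀ ^ 2 : ℤ) : F), ((b' * D₀ ^ 3 : ℤ) : F)⟩ : WeierstrassCurve F) =
        V.map (algebraMap (𝓞 F) F) → V.Δ ∉ v.asIdeal →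
      ¬ ℓ ∣ Nat.card (V.map (Ideal.Quotient.mk v.asIdeal)).toAffine.Point) :
    ∀ (V : WeierstrassCurve (𝓞 F)) (C : VariableChange F),
      C • (⟨0, 0, 0, ((a * D₀ ^ 2 : ℤ) : F), ((b * D₀ ^ 3 : ℤ) : F)⟩ : WeierstrassCurve F) =
        V.map (algebraMap (𝓞 F) F) → V.Δ ∉ v.asIdeal →
      ¬ ℓ ∣ Nat.card (V.map (Ideal.Quotient.mk v.asIdeal)).toAffine.Point := by
  intro V C hC hΔ
  have e1 : ∀ (p q : ℤ),
      (⟨0, 0, 0, ((p * D₀ ^ 2 : ℤ) : F), ((q * D₀ ^ 3 : ℤ) : F)⟩ : WeierstrassCurve F) =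
        cv ((p : F) * (D₀ : F) ^ 2) ((q : F) * (D₀ : F) ^ 3) := by
    intro p q
    push_cast
    rfl
  have h1 := good_of_model v hC hΔ
  rw [e1 a b, ← four_good (Rv v) h, ← e1 a' b'] at h1
  obtain ⟨V', C', h2, h3, h4⟩ := model_of_good v h1
  rw [← h4]
  exact H V' C' h2 h3

end Pool.Agent.Lib.MP_1a91b9_nuE
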