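import Pool.Agent.Lib.MP_1a91b9_nuI.Fa.FamW
import Pool.Agent.Lib.MP_1a91b9_nt.Residue

/-!
# Good reduction and the number of points for isogenous curves
-/

set_option autoImplicit false

namespace Pool.Agent.Lib.MP_1a91b9_nuE

open NumberField IsDedekindDomain WeierstrassCurve Module
open Pool.Agent.Lib.MP_1a91b9_nuI
open Pool.Agent.Lib.MP_1a91b9_nt (card_point_variableChange card_point_map_equiv)

universe u

section
variable {F : Type u} [Field F] [NumberField F] (v : HeightOneSpectrum (𝓞 F))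

/-- the localisation at `v` -/
noncomputable abbrev Rv : ValuationSubring F := HeightOneSpectrum.valuationSubringAtPrime F v

instance dvr_Rv : IsDiscreteValuationRing (Rv v) :=
  IsLocalization.AtPrime.isDiscreteValuationRing_of_dedekind_domain (𝓞 F) v.ne_bot (Rv v)

/-- the residue fields -/
noncomputable def resE : (𝓞 F ⧸ v.asIdeal) ≃+* IsLocalRing.ResidueField (Rv v) :=
  haveI : v.asIdeal.IsMaximal := v.isMaximal
  IsLocalization.AtPrime.equivQuotMaximalIdeal v.asIdeal (Rv v)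

theorem resE_comp : (resE v : (𝓞 F ⧸ v.asIdeal) →+* _).comp (Ideal.Quotient.mk v.asIdeal) =
    (IsLocalRing.residue (Rv v)).comp (algebraMap (𝓞 F) (Rv v)) := by
  apply RingHom.ext
  intro x
  rfl

instance fin_Rv : Finite (IsLocalRing.ResidueField (Rv v)) := by
  have i2 : Finite (𝓞 F ⧸ v.asIdeal) := Ideal.finiteQuotientOfFreeOfNeBot _ v.ne_bot
  exact Finite.of_equiv _ (resE v).toEquiv

theorem card_res (V : WeierstrassCurve (𝓞 F)) :
    Nat.card ((V.map (algebraMap (𝓞 F) (Rv v))).map (IsLocalRing.residue (Rv v))).toAffine.Point =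
      Nat.card (V.map (Ideal.Quotient.mk v.asIdeal)).toAffine.Point := by
  have hm : v.asIdeal.IsMaximal := v.isMaximal
  let _ : Field (𝓞 F ⧸ v.asIdeal) := Ideal.Quotient.field _
  have h1 := card_point_map_equiv (V.map (Ideal.Quotient.mk v.asIdeal)) (resE v)
  have h2 : (V.map (Ideal.Quotient.mk v.asIdeal)).map (resE v).toRingHom =
      (V.map (algebraMap (𝓞 F) (Rv v))).map (IsLocalRing.residue (Rv v)) := by
    rw [WeierstrassCurve.map_map, WeierstrassCurve.map_map]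
    exact congrArg V.map (resE_comp v)
  rw [h2] at h1
  exact h1

theorem good_of_model {W : WeierstrassCurve F} {V : WeierstrassCurve (𝓞 F)} {C : VariableChange F}
    (hC : C • W = V.map (algebraMap (𝓞 F) F)) (hΔ : V.Δ ∉ v.asIdeal) :
    Good (Rv v) W (Nat.card (V.map (Ideal.Quotient.mk v.asIdeal)).toAffine.Point) := by
  refine ⟨C, V.map (algebraMap (𝓞 F) (Rv v)), ?_, ?_, card_res v V⟩
  · rw [hC, WeierstrassCurve.map_map]
    exact congrArg V.map (IsScalarTower.algebraMap_eq (𝓞 F) (Rv v) F)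
  · rw [WeierstrassCurve.map_Δ]
    exact IsLocalization.map_units (Rv v) (⟨V.Δ, hΔ⟩ : v.asIdeal.primeCompl)

theorem model_of_good {W : WeierstrassCurve F} {n : ℕ} (h : Good (Rv v) W n) :
    ∃ (V : WeierstrassCurve (𝓞 F)) (C : VariableChange F),
      C • W = V.map (algebraMap (𝓞 F) F) ∧ V.Δ ∉ v.asIdeal ∧
        Nat.card (V.map (Ideal.Quotient.mk v.asIdeal)).toAffine.Point = n := by
  obtain ⟨C, W₀, hC, hΔ, hn⟩ := h
  obtain ⟨s, hs⟩ := IsLocalization.exist_integer_multiples_of_finite v.asIdeal.primeCompl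
    (S := Rv v) ![W₀.a₁, W₀.a₂, W₀.a₃, W₀.a₄, W₀.a₆]
  obtain ⟨b1, h1⟩ := hs 0
  obtain ⟨b2, h2⟩ := hs 1
  obtain ⟨b3, h3⟩ := hs 2
  obtain ⟨b4, h4⟩ := hs 3
  obtain ⟨b6, h6⟩ := hs 4
  obtain ⟨σ, hσ⟩ : ∃ σ : Rv v, σ = algebraMap (𝓞 F) (Rv v) (s : 𝓞 F) := ⟨_, rfl⟩
  have h1 : algebraMap (𝓞 F) (Rv v) b1 = σ * W₀.a₁ := by
    rw [hσ, ← Algebra.smul_def]
    exact h1
  have h2 : algebraMap (𝓞 F) (Rv v) b2 = σ * W₀.a₂ := by
    rw [hσ, ← Algebra.smul_def]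
    exact h2
  have h3 : algebraMap (𝓞 F) (Rv v) b3 = σ * W₀.a₃ := by
    rw [hσ, ← Algebra.smul_def]
    exact h3
  have h4 : algebraMap (𝓞 F) (Rv v) b4 = σ * W₀.a₄ := by
    rw [hσ, ← Algebra.smul_def]
    exact h4
  have h6 : algebraMap (𝓞 F) (Rv v) b6 = σ * W₀.a₆ := by
    rw [hσ, ← Algebra.smul_def]
    exact h6
  have hu : IsUnit σ := by
    rw [hσ]
    exact IsLocalization.map_units (Rv v) s
  obtain ⟨u, hu⟩ := hu
  have e : ((((u⁻¹)⁻¹ : (Rv v)ˣ)) : Rv v) = σ := by rw [inv_inv, hu]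
  obtain ⟨D, hD⟩ : ∃ D : VariableChange (Rv v), D = ⟨u⁻¹, 0, 0, 0⟩ := ⟨_, rfl⟩
  obtain ⟨V, hV⟩ : ∃ V : WeierstrassCurve (𝓞 F), V = ⟨b1, s * b2, s ^ 2 * b3, s ^ 3 * b4,
    s ^ 5 * b6⟩ := ⟨_, rfl⟩
  have hmap : D • W₀ = V.map (algebraMap (𝓞 F) (Rv v)) := by
    rw [hV, hD]
    refine WeierstrassCurve.ext ?_ ?_ ?_ ?_ ?_
    · rw [variableChange_a₁, e]
      change σ * (W₀.a₁ + 2 * 0) = algebraMap (𝓞 F) (Rv v) b1
      rw [h1]
      ring
    · rw [variableChange_a₂, e]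
      change σ ^ 2 * (W₀.a₂ - 0 * W₀.a₁ + 3 * 0 - 0 ^ 2) = algebraMap (𝓞 F) (Rv v) (s * b2)
      rw [map_mul, h2, ← hσ]
      ring
    · rw [variableChange_a₃, e]
      change σ ^ 3 * (W₀.a₃ + 0 * W₀.a₁ + 2 * 0) = algebraMap (𝓞 F) (Rv v) (s ^ 2 * b3)
      rw [map_mul, map_pow, h3, ← hσ]
      ring
    · rw [variableChange_a₄, e]
      change σ ^ 4 * (W₀.a₄ - 0 * W₀.a₃ + 2 * 0 * W₀.a₂ - (0 + 0 * 0) * W₀.a₁ + 3 * 0 ^ 2 -
        2 * 0 * 0) = algebraMap (𝓞 F) (Rv v) (s ^ 3 * b4)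
      rw [map_mul, map_pow, h4, ← hσ]
      ring
    · rw [variableChange_a₆, e]
      change σ ^ 6 * (W₀.a₆ + 0 * W₀.a₄ + 0 ^ 2 * W₀.a₂ + 0 ^ 3 - 0 * W₀.a₃ - 0 ^ 2 -
        0 * 0 * W₀.a₁) = algebraMap (𝓞 F) (Rv v) (s ^ 5 * b6)
      rw [map_mul, map_pow, h6, ← hσ]
      ring
  refine ⟨V, D.map (algebraMap (Rv v) F) * C, ?_, ?_, ?_⟩
  · rw [mul_smul, hC, WeierstrassCurve.map_variableChange, hmap, WeierstrassCurve.map_map]
    exact (congrArg V.map (IsScalarTower.algebraMap_eq (𝓞 F) (Rv v) F)).symm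
  · intro hm
    have h7 : (V.map (algebraMap (𝓞 F) (Rv v))).Δ ∈ IsLocalRing.maximalIdeal (Rv v) := by
      rw [WeierstrassCurve.map_Δ]
      exact (IsLocalization.AtPrime.to_map_mem_maximal_iff (Rv v) v.asIdeal V.Δ).2 hm
    rw [← hmap, variableChange_Δ] at h7
    exact (IsLocalRing.mem_maximalIdeal _).1 h7 ((Units.isUnit _).pow 12 |>.mul hΔ)
  · rw [← card_res, ← hmap, ← WeierstrassCurve.map_variableChange, card_point_variableChange, hn]

end

end Pool.Agent.Lib.MP_1a91b9_nuE
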