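import Pool.Agent.Lib.MP_1a91b9_nuE.Vt
import Pool.Agent.Lib.MP_1a91b9_nuE.Dt
import Pool.Agent.Lib.MP_1a91b9_nuE.Ab
import Pool.Agent.Lib.MP_1a91b9_nuE.Cop
import Pool.Agent.Lib.MP_1a91b9_nuX.TH.Top

/-!
# The hypotheses on the base field from explicit conditions
-/

set_option autoImplicit false

namespace Pool.Agent.Lib.MP_1a91b9_nuE

variable [Pool.Agent.Lib.MP_1a91b9_nuT.CD]

open NumberField IsDedekindDomain Module WeierstrassCurve Pool.Agent.Lib.MP_1a91b9_nuT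
open Pool.Agent.Lib.MP_1a91b9_nuX
open Pool.Agent.Lib.MP_1a91b9_nuX.DB Pool.Agent.Lib.MP_1a91b9_nuX.GL
open Pool.Agent.Lib.MP_1a91b9_nuG (up)
open Pool.Agent.Lib.MP_1a91b9_nuX.PG (Gd)
open Pool.Agent.Lib.MP_1a91b9_nuX.PH (Hv hv_E)
open Pool.Agent.Lib.MP_1a91b9_nuX.TG Pool.Agent.Lib.MP_1a91b9_nuX.TH

variable [HC]

omit [HC] in
/-- **The explicit conditions** on the prime number `ℓ`: the base field `F₀` is contained in the
field generated by a torsion point of order dividing `m`. -/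
structure Expl [HC] (ℓ m : ℕ) (F₀ : Type) [Field F₀] [NumberField F₀] [Algebra K F₀] : Prop where
  prime : ℓ.Prime
  cop : ¬ (ℓ : ℤ) ∣ m * CD.bad
  sq : ∀ p : ℕ, p.Prime → (p : ℤ) ∣ m * CD.bad → ¬ ℓ ∣ p ^ 2 - 1
  na : ∀ v : HeightOneSpectrum (𝓞 F₀), ((m * CD.bad : ℤ) : 𝓞 F₀) ∈ v.asIdeal → Gd (E F₀) v →
    IsCoprime (Hv (E F₀) v - 1) (ℓ : 𝓞 K)
  e2 : ¬ ℓ ∣ 2 ^ finrank K F₀ - 1
  unit : AN.UnitProp ℓ Om F₀

section
variable {ℓ m : ℕ} {F₀ : Type} [Field F₀] [NumberField F₀] [Algebra K F₀] (h : Expl ℓ m F₀)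
include h

theorem Expl.good : ¬ (ℓ : ℤ) ∣ CD.bad := fun hd => h.cop (hd.mul_left _)

theorem Expl.not_m : ¬ ℓ ∣ m := fun hd => h.cop ((Int.natCast_dvd_natCast.2 hd).mul_right _)

theorem Expl.not_mem {F : Type} [Field F] [NumberField F] (v : HeightOneSpectrum (𝓞 F))
    (hv : ((m * CD.bad : ℤ) : 𝓞 F) ∈ v.asIdeal) : (ℓ : 𝓞 F) ∉ v.asIdeal := by
  have h1 : IsCoprime (m * CD.bad : ℤ) (ℓ : ℤ) :=
    ((Nat.prime_iff_prime_int.1 h.prime).coprime_iff_not_dvd.2 h.cop).symm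
  have h2 := not_mem_int v h1 hv
  rwa [Int.cast_natCast] at h2

/-- the condition for the imprimitive character -/
theorem Expl.nac (hE : EllK) (v : HeightOneSpectrum (𝓞 F₀))
    (hv : ((m * CD.bad : ℤ) : 𝓞 F₀) ∈ v.asIdeal) : IsCoprime (psi F₀ v.asIdeal - 1) (ℓ : 𝓞 K) := by
  by_cases hf : up HC.f F₀ ∈ v.asIdeal
  · rw [AN.psi_place_bad v hf, zero_sub]
    exact isCoprime_one_left.neg_left
  · have hf' : HC.f ∉ (v.under (𝓞 K)).asIdeal := hf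
    rw [← hv_E hE hf']
    exact h.na v hv (PH.gd_E hf')

/-- **The hypotheses on the base field.** -/
theorem goodEllH_of (hE : EllK) {μ : 𝓞 K} {L₀ : Type} [Field L₀] [NumberField L₀] [Algebra K L₀]
    [Algebra F₀ L₀] [IsScalarTower K F₀ L₀] [DecidableEq L₀] [IsGalois K L₀] {T : Pt L₀}
    (hJ : AbT μ K T) (hm : m ≠ 0) (hT : m • T = 0)
    (hgen : IntermediateField.adjoin K {xc T, yc T} = ⊤) {c : 𝓞 K}
    (hc : ∀ v : HeightOneSpectrum (𝓞 F₀), up c F₀ ∈ v.asIdeal →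
      ((m * CD.bad : ℤ) : 𝓞 F₀) ∈ v.asIdeal) : GoodEllH μ c ℓ F₀ := by
  have hℓ := h.prime
  have hD := h.good
  have hμm : μ ∣ (m : 𝓞 K) := by
    rw [← hJ.ord, sm_nat, hT]
  have hmu : ¬ ℓ ∣ nAb μ := by
    intro hd
    have h1 : nAb μ ∣ m ^ 2 := by
      rw [← absNorm_natK]
      exact Ideal.absNorm_dvd_absNorm_of_le (Ideal.span_singleton_le_span_singleton.2 hμm)
    exact h.not_m (hℓ.dvd_of_dvd_pow (hd.trans h1))
  have hng : ¬ ℓ ∣ nG μ := by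
    intro hd
    have h1 : IsCoprime (gB μ) (ℓ : 𝓞 K) := by
      refine cop_of_places (gB_ne hJ.ne) fun P hP hPℓ => ?_
      refine h.not_mem P (norm_gB_mem hμm P ?_) hPℓ
      obtain ⟨d, hd⟩ : gB μ ∣ ((Ideal.absNorm (Ideal.span {gB μ}) : ℕ) : 𝓞 K) :=
        Ideal.mem_span_singleton.1 (Ideal.absNorm_mem _)
      have e : ((Ideal.absNorm (Ideal.span {gB μ}) : ℕ) : 𝓞 K) ∈ P.asIdeal := by
        rw [hd]
        exact P.asIdeal.mul_mem_right _ hP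
      exact e
    exact (Nat.Prime.coprime_iff_not_dvd hℓ).1 (absN_cop h1).symm hd
  have hgm : ∀ v : HeightOneSpectrum (𝓞 F₀), up (gB μ) F₀ ∈ v.asIdeal →
      ((m * CD.bad : ℤ) : 𝓞 F₀) ∈ v.asIdeal := by
    intro v hv
    refine norm_gB_mem hμm v ?_
    obtain ⟨d, hd⟩ : gB μ ∣ ((Ideal.absNorm (Ideal.span {gB μ}) : ℕ) : 𝓞 K) :=
      Ideal.mem_span_singleton.1 (Ideal.absNorm_mem _)
    have h2 := congrArg (algebraMap (𝓞 K) (𝓞 F₀)) hd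
    rw [map_natCast, map_mul] at h2
    rw [h2]
    exact v.asIdeal.mul_mem_right _ hv
  have hunr : DS.UnrL ℓ F₀ := unr_ab hJ hℓ hD hmu
  refine ⟨hℓ, hD, hmu, hng, fun v hv _ => h.nac hE v (hgm v hv), fun v hv => h.nac hE v (hc v hv),
    fun w hw hg => h.na w (norm_gB_mem hμm w ?_) hg, fun F _ _ _ hF => ?_⟩
  · have e : up ((nG μ : ℕ) : 𝓞 K) F₀ = ((nG μ : ℕ) : 𝓞 F₀) := map_natCast (algebraMap (𝓞 K) (𝓞 F₀)) _
    rw [e] at hw
    exact hw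
  obtain ⟨e⟩ := hF
  let alg : Algebra F F₀ := (e.symm : F →+* F₀).toAlgebra
  obtain ⟨μ', hM, H, L', i1, i2, i3, i4, i5, i6, J, hAB, hP⟩ := exists_ab1 F₀ hm hT hgen
  have hμ' : (Ideal.absNorm (Ideal.span {μ'})).Coprime ℓ :=
    absN_cop (cop_of_places hAB.ne fun P hPμ => h.not_mem P (hP P hPμ))
  have hcu : ¬ ℓ ∣ Nat.card (DG.U H) := by
    refine card_U hAB.ne hℓ fun P hPμ => ?_
    obtain ⟨p, hp, hpm, hpd⟩ := exists_char P
    have h1 := hpd _ (hP P hPμ)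
    have h2 : ¬ ℓ ∣ p := by
      intro hd
      rw [(Nat.prime_dvd_prime_iff_eq hℓ hp).1 hd] at h
      exact h.cop h1
    have h3 := h.sq p hp h1
    rcases norm_place P hp hpm with h4 | h4
    · rw [h4]
      refine ⟨h2, fun hd => h3 (hd.trans ?_)⟩
      have h5 := Nat.sub_dvd_pow_sub_pow p 1 2
      rwa [one_pow] at h5
    · rw [h4]
      exact ⟨fun hd => h2 (hℓ.dvd_of_dvd_pow hd), h3⟩
  have hdt : ∀ (ϖ : 𝓞 K) (q : ℕ), PD ϖ ℓ q → DT ϖ F₀ := by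
    intro ϖ q hp
    refine dt_expl hE hp fun v hb hg hd => ?_
    have h1 : ((m * CD.bad : ℤ) : 𝓞 F₀) ∈ v.asIdeal := by
      push_cast
      exact v.asIdeal.mul_mem_left _ hb
    obtain ⟨x, y, hxy⟩ := h.na v h1 hg
    apply hp.prime.not_isUnit
    apply isUnit_of_dvd_one
    rw [← hxy]
    exact dvd_add (hd.mul_left _) (hp.dvd.mul_left _)
  have hna' : ∀ v : HeightOneSpectrum (𝓞 F₀), algebraMap (𝓞 K) (𝓞 F₀) μ' ∈ v.asIdeal →
      up HC.f F₀ ∉ v.asIdeal → IsCoprime (psi F₀ v.asIdeal - 1) (ℓ : 𝓞 K) := by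
    intro v hv _
    refine h.nac hE v ?_
    have h1 : ((m * CD.bad : ℤ) : 𝓞 K) ∈ (v.under (𝓞 K)).asIdeal := hP _ hv
    have h2 : algebraMap (𝓞 K) (𝓞 F₀) ((m * CD.bad : ℤ) : 𝓞 K) ∈ v.asIdeal := h1
    rwa [map_intCast] at h2
  have hvt : ∀ (ϖ : 𝓞 K) (q : ℕ), PD ϖ ℓ q → VT ϖ ℓ F₀ := fun ϖ q hp =>
    vt_unit hAB hM hp hμ' hcu (hdt ϖ q hp) hna' h.unit
  refine ⟨?_, TG.unrL_down hℓ.ne_zero hunr, unitProp_iso e h.unit,
    fun ϖ q hp => vt_iso e (hvt ϖ q hp), fun ϖ q hp => dt_iso e (hdt ϖ q hp)⟩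
  rw [← e.toLinearEquiv.finrank_eq]
  exact h.e2

end

end Pool.Agent.Lib.MP_1a91b9_nuE
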