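import Pool.Agent.Lib.MP_1a91b9_nuI.Fa.FamW

/-!
# Torsion points of isogenous curves, with the orders
-/

set_option autoImplicit false

namespace Pool.Agent.Lib.MP_1a91b9_nuE

open NumberField IsDedekindDomain WeierstrassCurve Module
open Pool.Agent.Lib.MP_1a91b9_nuI

/-- Every point of `W'` killed by `m` is the image of a point of `W` killed by `m n` over a larger
field, generated over the base field by its coordinates. -/
theorem lift_ord {K L' : Type} [Field K] [CharZero K] [Field L'] [Algebra K L']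
    [FiniteDimensional K L'] [DecidableEq L'] {W W' : WeierstrassCurve K} {n : ℕ}
    (a : Isg W W' n) (x' y' : L') (hxy : (Affine.baseChange W' L').Nonsingular x' y') {m : ℕ}
    (ht : m • Affine.Point.some x' y' hxy = 0)
    (hL' : IntermediateField.adjoin K {x', y'} = ⊤) :
    ∃ (L : Type) (_ : Field L) (_ : Algebra K L) (_ : FiniteDimensional K L)
      (_ : DecidableEq L) (_ : L' →ₐ[K] L) (x y : L)
      (h : (Affine.baseChange W L).Nonsingular x y),
      (m * n) • Affine.Point.some x y h = 0 ∧ IntermediateField.adjoin K {x, y} = ⊤ := by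
  classical
  let i : L' →ₐ[K] AlgebraicClosure L' := IsScalarTower.toAlgHom K L' (AlgebraicClosure L')
  obtain ⟨T, hT⟩ := a.surj (AlgebraicClosure L')
    (Affine.Point.map i (Affine.Point.some x' y' hxy))
  have hTt : (m * n) • T = 0 := by
    have h1 : a.f (AlgebraicClosure L') (m • T) = 0 := by
      rw [map_nsmul, hT, ← map_nsmul, ht, map_zero]
    have h2 := a.ker (AlgebraicClosure L') _ h1
    rwa [← mul_nsmul] at h2
  rcases T with _ | ⟨x, y, hxy₁⟩
  · exfalso
    have h1 : a.f (AlgebraicClosure L') (0 : (Affine.baseChange W (AlgebraicClosure L')).Point) =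
      Affine.Point.map i (Affine.Point.some x' y' hxy) := hT
    rw [map_zero, Affine.Point.map_some] at h1
    exact Affine.Point.some_ne_zero _ h1.symm
  have halg : Algebra.IsAlgebraic K (AlgebraicClosure L') := Algebra.IsAlgebraic.trans K L' _
  let L₀ : IntermediateField K (AlgebraicClosure L') := IntermediateField.adjoin K {x, y}
  have hx : x ∈ L₀ := IntermediateField.subset_adjoin K _ (Set.mem_insert _ _)
  have hy : y ∈ L₀ := IntermediateField.subset_adjoin K _ (Set.mem_insert_of_mem _ rfl)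
  have hfin : FiniteDimensional K L₀ :=
    IntermediateField.finiteDimensional_adjoin fun z _ => (halg.isAlgebraic z).isIntegral
  have h₀ : (Affine.baseChange W L₀).Nonsingular (⟨x, hx⟩ : L₀) (⟨y, hy⟩ : L₀) :=
    (Affine.baseChange_nonsingular (f := L₀.val) W L₀.val.injective (⟨x, hx⟩ : L₀)
      (⟨y, hy⟩ : L₀)).1 hxy₁
  have hval : Affine.Point.map L₀.val (Affine.Point.some (⟨x, hx⟩ : L₀) (⟨y, hy⟩ : L₀) h₀) =
      Affine.Point.some x y hxy₁ := rfl
  have him : ∀ z : L', i z ∈ L₀ := by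
    have h1 : Affine.Point.map L₀.val
        (a.f L₀ (Affine.Point.some (⟨x, hx⟩ : L₀) (⟨y, hy⟩ : L₀) h₀)) =
        Affine.Point.map i (Affine.Point.some x' y' hxy) := by
      rw [← a.nat, hval, hT]
    rcases hq : a.f L₀ (Affine.Point.some (⟨x, hx⟩ : L₀) (⟨y, hy⟩ : L₀) h₀) with _ | ⟨x₂, y₂, h₂⟩
    · exfalso
      rw [hq] at h1
      exact Affine.Point.some_ne_zero _ h1.symm
    · rw [hq, Affine.Point.map_some, Affine.Point.map_some, Affine.Point.some.injEq] at h1
      have h3 : IntermediateField.adjoin K {x', y'} ≤ L₀.comap i := by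
        rw [IntermediateField.adjoin_le_iff]
        rintro z (rfl | rfl)
        · show i z ∈ L₀
          rw [← h1.1]
          exact x₂.2
        · show i z ∈ L₀
          rw [← h1.2]
          exact y₂.2
      intro z
      have h4 : z ∈ IntermediateField.adjoin K {x', y'} := by
        rw [hL']
        exact IntermediateField.mem_top
      exact h3 h4
  refine ⟨L₀, inferInstance, inferInstance, hfin, inferInstance,
    AlgHom.codRestrict i L₀.toSubalgebra him, ⟨x, hx⟩, ⟨y, hy⟩, h₀, ?_, ?_⟩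
  · apply Affine.Point.map_injective L₀.val
    rw [map_nsmul, hval, hTt, map_zero]
  · apply IntermediateField.lift_injective L₀
    rw [IntermediateField.lift_top, IntermediateField.lift_adjoin, Set.image_pair]

section
variable {a' b' a b : ℤ} {n : ℕ} {j' j d : ℤ}

/-- the torsion points -/
theorem four_tors (h : Four a' b' a b n j' j d) (D₀ : ℤ) (hD₀ : D₀ ≠ 0) {K L' : Type} [Field K]
    [CharZero K] [Field L'] [Algebra K L'] [FiniteDimensional K L'] [DecidableEq L'] (x' y' : L')
    (hxy : (⟨0, 0, 0, ((a' * D₀ ^ 2 : ℤ) : L'), ((b' * D₀ ^ 3 : ℤ) : L')⟩ :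
      WeierstrassCurve L').toAffine.Nonsingular x' y') {m : ℕ}
    (ht : m • Affine.Point.some x' y' hxy = 0)
    (hL' : IntermediateField.adjoin K {x', y'} = ⊤) :
    ∃ (L : Type) (_ : Field L) (_ : Algebra K L) (_ : FiniteDimensional K L)
      (_ : DecidableEq L) (_ : L' →ₐ[K] L) (x y : L)
      (h : (⟨0, 0, 0, ((a * D₀ ^ 2 : ℤ) : L), ((b * D₀ ^ 3 : ℤ) : L)⟩ :
        WeierstrassCurve L).toAffine.Nonsingular x y),
      (m * n) • Affine.Point.some x y h = 0 ∧ IntermediateField.adjoin K {x, y} = ⊤ := by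
  have hDK : (D₀ : K) ≠ 0 := by exact_mod_cast hD₀
  obtain ⟨i⟩ := h.isg' (D₀ : K) hDK
  have e1 : ∀ (L : Type) [Field L] [Algebra K L] (p q : ℤ),
      (⟨0, 0, 0, ((p * D₀ ^ 2 : ℤ) : L), ((q * D₀ ^ 3 : ℤ) : L)⟩ : WeierstrassCurve L) =
        Affine.baseChange (cv ((p : K) * (D₀ : K) ^ 2) ((q : K) * (D₀ : K) ^ 3)) L := by
    intro L _ _ p q
    show _ = (cv ((p : K) * (D₀ : K) ^ 2) ((q : K) * (D₀ : K) ^ 3)).map (algebraMap K L)
    rw [cv_map]
    simp only [map_mul, map_pow, map_intCast]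
    push_cast
    rfl
  have key : ∀ (V : WeierstrassCurve L') (hV : V = Affine.baseChange
      (cv ((a' : K) * (D₀ : K) ^ 2) ((b' : K) * (D₀ : K) ^ 3)) L')
      (h1 : V.toAffine.Nonsingular x' y') (_ : m • Affine.Point.some x' y' h1 = 0),
      ∃ h2 : (Affine.baseChange (cv ((a' : K) * (D₀ : K) ^ 2) ((b' : K) * (D₀ : K) ^ 3))
        L').Nonsingular x' y', m • Affine.Point.some x' y' h2 = 0 := by
    rintro V rfl h1 h2
    exact ⟨h1, h2⟩
  have key' : ∀ (L : Type) [Field L] [Algebra K L] [DecidableEq L] (x y : L) (k : ℕ)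
      (V : WeierstrassCurve L) (hV : V = Affine.baseChange
      (cv ((a : K) * (D₀ : K) ^ 2) ((b : K) * (D₀ : K) ^ 3)) L)
      (h1 : (Affine.baseChange (cv ((a : K) * (D₀ : K) ^ 2) ((b : K) * (D₀ : K) ^ 3))
        L).Nonsingular x y) (_ : k • Affine.Point.some x y h1 = 0),
      ∃ h2 : V.toAffine.Nonsingular x y, k • Affine.Point.some x y h2 = 0 := by
    rintro L _ _ _ x y k V rfl h1 h2
    exact ⟨h1, h2⟩
  obtain ⟨hxy', ht'⟩ := key _ (e1 L' a' b') hxy ht
  obtain ⟨L, i1, i2, i3, i4, φ, x, y, h5, h6, h7⟩ := lift_ord i x' y' hxy' ht' hL'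
  obtain ⟨h8, h9⟩ := key' L x y (m * n) _ (e1 L a b) h5 h6
  exact ⟨L, i1, i2, i3, i4, φ, x, y, h8, h9, h7⟩

end

end Pool.Agent.Lib.MP_1a91b9_nuE
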