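import Mathlib

/-!
# Quadratic twists with integral coefficients
-/

set_option autoImplicit false

namespace Pool.Agent.Lib.MP_1a91b9_nuE

/-- the quadratic twists -/
theorem exists_sigma {A B A0 B0 : ℤ} (hA0 : A0 ≠ 0) (hB0 : B0 ≠ 0)
    (h : 4 * A ^ 3 + 27 * B ^ 2 ≠ 0) (hAB : A ^ 3 * B0 ^ 2 = A0 ^ 3 * B ^ 2)
    (hq : ∀ q : ℤ, q ^ 2 ∣ A0 → q ^ 2 ∣ B0 → q ∣ 4) :
    ∃ s : ℤ, s ≠ 0 ∧ 16 * A = A0 * s ^ 2 ∧ 64 * B = B0 * s ^ 3 := by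
  have hA : A ≠ 0 := by
    rintro rfl
    have h1 : A0 ^ 3 * B ^ 2 = 0 := by rw [← hAB]; ring
    rcases mul_eq_zero.1 h1 with h2 | h2
    · exact pow_ne_zero 3 hA0 h2
    · exact h (by rw [h2]; ring)
  have hB : B ≠ 0 := by
    rintro rfl
    have h1 : A ^ 3 * B0 ^ 2 = 0 := by rw [hAB]; ring
    rcases mul_eq_zero.1 h1 with h2 | h2
    · exact h (by rw [h2]; ring)
    · exact pow_ne_zero 2 hB0 h2
  have hAQ : (A : ℚ) ≠ 0 := Int.cast_ne_zero.2 hA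
  have hBQ : (B : ℚ) ≠ 0 := Int.cast_ne_zero.2 hB
  have hA0Q : (A0 : ℚ) ≠ 0 := Int.cast_ne_zero.2 hA0
  have hB0Q : (B0 : ℚ) ≠ 0 := Int.cast_ne_zero.2 hB0
  have hABQ : (A : ℚ) ^ 3 * (B0 : ℚ) ^ 2 = (A0 : ℚ) ^ 3 * (B : ℚ) ^ 2 := by exact_mod_cast hAB
  obtain ⟨r, hr⟩ : ∃ r : ℚ, r = (B : ℚ) * A0 / (A * B0) := ⟨_, rfl⟩
  have h2 : (A : ℚ) = A0 * r ^ 2 := by
    rw [hr, div_pow, mul_div_assoc', eq_div_iff (pow_ne_zero 2 (mul_ne_zero hAQ hB0Q))]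
    linear_combination hABQ
  have h3 : (B : ℚ) = B0 * r ^ 3 := by
    have e : (B0 : ℚ) * r ^ 3 = B0 * r * (r ^ 2) := by ring
    have e2 : (r : ℚ) ^ 2 = A / A0 := by
      rw [eq_div_iff hA0Q]
      linear_combination -h2
    rw [e, e2, hr]
    field_simp
  have hr0 : r ≠ 0 := by
    rintro rfl
    apply hAQ
    rw [h2]
    ring
  obtain ⟨p, hp⟩ : ∃ p : ℤ, p = r.num := ⟨_, rfl⟩
  obtain ⟨q, hqd⟩ : ∃ q : ℤ, q = (r.den : ℤ) := ⟨_, rfl⟩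
  have hq0 : q ≠ 0 := by
    rw [hqd]
    exact_mod_cast r.den_ne_zero
  have hp0 : p ≠ 0 := by
    rw [hp]
    exact Rat.num_ne_zero.2 hr0
  have hcop : IsCoprime p q := by
    rw [hp, hqd, Int.isCoprime_iff_gcd_eq_one, Int.gcd, Int.natAbs_natCast]
    exact r.reduced
  have hrq : r = (p : ℚ) / (q : ℚ) := by
    rw [hp, hqd]
    push_cast
    exact (Rat.num_div_den r).symm
  have hqQ : (q : ℚ) ≠ 0 := Int.cast_ne_zero.2 hq0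
  have h4 : A * q ^ 2 = A0 * p ^ 2 := by
    have h5 : (A : ℚ) * q ^ 2 = A0 * p ^ 2 := by
      rw [h2, hrq]
      field_simp
    exact_mod_cast h5
  have h5 : B * q ^ 3 = B0 * p ^ 3 := by
    have h5 : (B : ℚ) * q ^ 3 = B0 * p ^ 3 := by
      rw [h3, hrq]
      field_simp
    exact_mod_cast h5
  have d1 : q ^ 2 ∣ A0 :=
    IsCoprime.dvd_of_dvd_mul_right (hcop.symm.pow_left.pow_right : IsCoprime (q ^ 2) (p ^ 2))
      ⟨A, by rw [← h4]; ring⟩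
  have d2 : q ^ 3 ∣ B0 :=
    IsCoprime.dvd_of_dvd_mul_right (hcop.symm.pow_left.pow_right : IsCoprime (q ^ 3) (p ^ 3))
      ⟨B, by rw [← h5]; ring⟩
  obtain ⟨k, hk⟩ := hq q d1 ((pow_dvd_pow q (by norm_num)).trans d2)
  have hk0 : k ≠ 0 := by
    rintro rfl
    rw [mul_zero] at hk
    norm_num at hk
  refine ⟨p * k, mul_ne_zero hp0 hk0, ?_, ?_⟩
  · have e : (16 : ℤ) = (q * k) ^ 2 := by rw [← hk]; norm_num
    rw [e]
    linear_combination (k ^ 2) * h4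
  · have e : (64 : ℤ) = (q * k) ^ 3 := by rw [← hk]; norm_num
    rw [e]
    linear_combination (k ^ 3) * h5

/-- the denominators -/
theorem sq_dvd {A0 B0 G : ℤ} (hG : ∃ x y : ℤ, A0 * x + B0 * y = G) (hG0 : 0 < G) (b : ℕ)
    (hb : G < (b : ℤ) ^ 2) (h : ∀ q < b, (q : ℤ) ^ 2 ∣ G → (q : ℤ) ∣ 4) (q : ℤ)
    (h1 : q ^ 2 ∣ A0) (h2 : q ^ 2 ∣ B0) : q ∣ 4 := by
  obtain ⟨x, y, hxy⟩ := hG
  have h3 : q ^ 2 ∣ G := by
    rw [← hxy]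
    exact dvd_add (h1.mul_right _) (h2.mul_right _)
  have h4 := Int.le_of_dvd hG0 h3
  have h5 : q.natAbs < b := by
    by_contra hcon
    rw [not_lt] at hcon
    have h6 : (b : ℤ) ≤ |q| := by
      rw [Int.abs_eq_natAbs]
      exact_mod_cast hcon
    have h7 : (b : ℤ) ^ 2 ≤ |q| ^ 2 := pow_le_pow_left₀ (Int.natCast_nonneg b) h6 2
    rw [sq_abs] at h7
    omega
  have h6 := h q.natAbs h5 (by
    rw [Int.natCast_natAbs, sq_abs]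
    exact h3)
  rwa [Int.natCast_natAbs, abs_dvd] at h6

end Pool.Agent.Lib.MP_1a91b9_nuE
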