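import Pool.Agent.Lib.MP_1a91b9_nuE.CdS
import Pool.Agent.Lib.MP_1a91b9_nuE.Sg
import Pool.Agent.Lib.MP_1a91b9_nuX.UF.Main

/-!
# The class `CD` from lists of coefficients
-/

set_option autoImplicit false

namespace Pool.Agent.Lib.MP_1a91b9_nuE

open NumberField Polynomial Pool.Agent.Lib.MP_1a91b9_nuT
open Pool.Agent.Lib.MP_1a91b9_nuX.UF

noncomputable section

/-- the polynomial of a pair of lists -/
def PR {R : Type*} [CommRing R] (t : R) (l m : List ℤ) : R[X] :=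
  (toZ l).map (Int.castRingHom R) + C t * (toZ m).map (Int.castRingHom R)

theorem PR_coeff {R : Type*} [CommRing R] (t : R) (l m : List ℤ) (i : ℕ) :
    (PR t l m).coeff i = ((l.getD i 0 : ℤ) : R) + t * ((m.getD i 0 : ℤ) : R) := by
  unfold PR
  rw [coeff_add, coeff_C_mul, coeff_map, coeff_map, toZ_coeff, toZ_coeff]
  rfl

theorem PR_natDegree_le {R : Type*} [CommRing R] (t : R) (l m : List ℤ) {k : ℕ}
    (hl : l.length = k + 1) (hm : m.length = k + 1) : (PR t l m).natDegree ≤ k := by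
  rw [natDegree_le_iff_coeff_eq_zero]
  intro i hi
  rw [PR_coeff, List.getD_eq_default _ _ (by omega), List.getD_eq_default _ _ (by omega)]
  simp

theorem PR_map {R : Type*} [CommRing R] (t : R) (l m : List ℤ) (f : R →+* ℂ) :
    (PR t l m).map f = PC (f t) l m := by
  unfold PR PC
  rw [Polynomial.map_add, Polynomial.map_mul, map_C, Polynomial.map_map, Polynomial.map_map,
    RingHom.eq_intCast' (f.comp (Int.castRingHom R))]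

theorem cast_nm {R : Type*} [Ring R] {nm : ℤ} {n : ℕ} (h : nm = (n : ℤ)) :
    ((nm : ℤ) : R) = ((n : ℕ) : R) := by rw [h, Int.cast_natCast]

/-- The class `CD` over the field `KK`. -/
def HasCD (tr nm : ℤ) (h : 0 < 4 * nm - tr ^ 2) (A B : ℤ) : Prop :=
  ∃ (u : ℤ) (_ : u ≠ 0) (c : CD) (e : KK tr nm h ≃+* c.K), c.A = u ^ 4 * A ∧ c.B = u ^ 6 * B ∧
    (6 * (4 * A ^ 3 + 27 * B ^ 2) * nm * (tr ^ 2 - 4 * nm)) ∣ c.bad ∧
    BadP c.bad (6 * (4 * A ^ 3 + 27 * B ^ 2) * nm * (tr ^ 2 - 4 * nm)) ∧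
    (∀ x, c.emb (e x) = (x : ℂ)) ∧ e (taK tr nm h : KK tr nm h) = (c.ta : c.K) ∧ c.tr = tr ∧
    c.nm = nm

theorem hasCD_of {tr nm : ℤ} {m k : ℕ} (hm : 1 ≤ m) (hnm : nm = ((m + 1 : ℕ) : ℤ))
    (hg : Good tr nm k) {A0 B0 A B J : ℤ} (h0 : 4 * A0 ^ 3 + 27 * B0 ^ 2 ≠ 0) (hA0 : A0 ≠ 0)
    (hB0 : B0 ≠ 0) (hj0 : 6912 * A0 ^ 3 = J * (4 * A0 ^ 3 + 27 * B0 ^ 2))
    (h : 4 * A ^ 3 + 27 * B ^ 2 ≠ 0) (hj : 6912 * A ^ 3 = J * (4 * A ^ 3 + 27 * B ^ 2))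
    (hq : ∀ q : ℤ, q ^ 2 ∣ A0 → q ^ 2 ∣ B0 → q ∣ 4) {N₀ N₁ D₀ D₁ : List ℤ}
    (hN0 : N₀.length = m + 2) (hN1 : N₁.length = m + 2) (hD0 : D₀.length = m + 1)
    (hD1 : D₁.length = m + 1) (hN0l : N₀.getD (m + 1) 0 = 1) (hN1l : N₁.getD (m + 1) 0 = 0)
    (hD0l : D₀.getD m 0 = -nm) (hD1l : D₁.getD m 0 = tr)
    (hall : ∀ j : ℕ, j < 4 * (m + 1) → eqnAt tr nm A0 B0 N₀ N₁ D₀ D₁ ((j : ℕ) : ℤ) = true) :
    HasCD tr nm hg.pos A B := by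
  have hAB : A ^ 3 * B0 ^ 2 = A0 ^ 3 * B ^ 2 := by
    have h1 : (27 * 6912 : ℤ) * (A ^ 3 * B0 ^ 2) = 27 * 6912 * (A0 ^ 3 * B ^ 2) := by
      linear_combination (4 * A0 ^ 3 + 27 * B0 ^ 2) * hj - (4 * A ^ 3 + 27 * B ^ 2) * hj0
    exact mul_left_cancel₀ (by norm_num) h1
  obtain ⟨s, hs, h16, h64⟩ := exists_sigma hA0 hB0 h hAB hq
  have hst : ∀ L : PeriodPair, L.g₂ = -4 * (A0 : ℂ) → L.g₃ = -4 * (B0 : ℂ) →
      ∀ l ∈ L.lattice, tt tr nm * l ∈ L.lattice := by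
    intro L h2 h3 l hl
    obtain ⟨h1, h4, h5, h6⟩ := data_ok (A := A0) (B := B0) (N₀ := N₀) (N₁ := N₁)
      (D₀ := D₀) (D₁ := D₁) (m := m) (tt_sq hg.pos) hm (tt_ne hg.pos) hN0 hN1 hD0 hD1 hN0l hN1l
      hD0l hD1l hall
    exact stable (tt_ne hg.pos) h2 h3 h1 h4 h5 h6 l hl
  obtain ⟨Om, hOm, e2, e3⟩ := hasOm_of hg h0 hj0 h hj hst
  have hpid : IsPrincipalIdealRing (𝓞 (KK tr nm hg.pos)) := pid_KK hg
  obtain ⟨h1, h4, h5, h6⟩ := data_ok (A := A0) (B := B0) (N₀ := N₀) (N₁ := N₁)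
      (D₀ := D₀) (D₁ := D₁) (m := m) (tt_sq hg.pos) hm (tt_ne hg.pos) hN0 hN1 hD0 hD1 hN0l hN1l
      hD0l hD1l hall
  have hquad : taK tr nm hg.pos ^ 2 = (tr : 𝓞 (KK tr nm hg.pos)) * taK tr nm hg.pos -
      ((m + 1 : ℕ) : 𝓞 (KK tr nm hg.pos)) := by
    rw [quad_KK hg.pos]
    rw [cast_nm (R := 𝓞 (KK tr nm hg.pos)) hnm]
  have hpt : ph (embKK tr nm hg.pos) (taK tr nm hg.pos) = tt tr nm := rfl
  have hNle := PR_natDegree_le (taK tr nm hg.pos) N₀ N₁ (k := m + 1) hN0 hN1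
  have hDle := PR_natDegree_le (taK tr nm hg.pos) D₀ D₁ (k := m) hD0 hD1
  have hNc : (PR (taK tr nm hg.pos) N₀ N₁).coeff (m + 1) = 1 := by
    rw [PR_coeff, hN0l, hN1l]
    simp
  have hDc : (PR (taK tr nm hg.pos) D₀ D₁).coeff m = taK tr nm hg.pos ^ 2 := by
    rw [PR_coeff, hD0l, hD1l, quad_KK hg.pos]
    push_cast
    ring
  have hta2 : taK tr nm hg.pos ^ 2 ≠ 0 := by
    refine pow_ne_zero 2 fun h0 => ?_
    have h7 := hpt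
    rw [h0, map_zero] at h7
    exact tt_ne hg.pos h7.symm
  have hNd : (PR (taK tr nm hg.pos) N₀ N₁).natDegree = m + 1 :=
    natDegree_eq_of_le_of_coeff_ne_zero hNle (by rw [hNc]; exact one_ne_zero)
  have hDd : (PR (taK tr nm hg.pos) D₀ D₁).natDegree = m :=
    natDegree_eq_of_le_of_coeff_ne_zero hDle (by rw [hDc]; exact hta2)
  obtain ⟨u, hu, c, e, a1, a2, a3, a4, a5, a6, a7, a8⟩ := exists_CDs (KK tr nm hg.pos)
    (embKK tr nm hg.pos) (taK tr nm hg.pos) (gen_KK hg) (im_KK hg.pos) tr (m + 1) (by omega) hquad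
    A B A0 B0 s h ⟨J, by rw [hj, mul_comm]⟩ hs h16 h64 Om hOm e2 e3
    (PR (taK tr nm hg.pos) N₀ N₁) (PR (taK tr nm hg.pos) D₀ D₁)
    (by rw [Monic, leadingCoeff, hNd, hNc]) hNd (by rw [hDd])
    (by rw [leadingCoeff, hDd, hDc]) (by
      rw [PR_map, PR_map, hpt]
      exact h6)
  rw [← hnm] at a3 a4 a8
  exact ⟨u, hu, c, e, a1, a2, a3, a4, fun x => a5 x, a6, a7, a8⟩

end

end Pool.Agent.Lib.MP_1a91b9_nuE
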