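import Pool.Agent.Lib.MP_1a91b9_nuX.PG.Defs

/-!
# Integral models with good reduction
-/

set_option autoImplicit false

namespace Pool.Agent.Lib.MP_1a91b9_nuE

open NumberField IsDedekindDomain WeierstrassCurve Module
open Pool.Agent.Lib.MP_1a91b9_nuX
open Pool.Agent.Lib.MP_1a91b9_nuX.PG

universe u

/-- a common denominator prime to `v` -/
theorem exists_den5 {F : Type u} [Field F] [NumberField F] (v : HeightOneSpectrum (𝓞 F))
    {a : Fin 5 → F} (ha : ∀ i, v.valuation F (a i) ≤ 1) :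
    ∃ s : 𝓞 F, s ∉ v.asIdeal ∧ ∀ i, ∃ b : 𝓞 F, (s : F) * a i = (b : F) := by
  have h : ∀ i, ∃ (b s : 𝓞 F), s ∉ v.asIdeal ∧ a i * (s : F) = (b : F) := by
    intro i
    obtain ⟨b, d, hd⟩ := v.exists_primeCompl_mul_eq_of_integer (K := F) (a i) (ha i)
    exact ⟨b, d, d.2, hd⟩
  choose b s hs hb using h
  refine ⟨∏ i, s i, fun h => ?_, fun i => ?_⟩
  · obtain ⟨i, -, hi⟩ := (v.isPrime.prod_mem_iff).1 h
    exact hs i hi
  · refine ⟨(∏ j ∈ Finset.univ.erase i, s j) * b i, ?_⟩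
    rw [← Finset.prod_erase_mul _ _ (Finset.mem_univ i)]
    have h1 := hb i
    have e1 : ((((∏ j ∈ Finset.univ.erase i, s j) * s i : 𝓞 F)) : F) =
        ((∏ j ∈ Finset.univ.erase i, s j : 𝓞 F) : F) * (s i : F) := map_mul _ _ _
    have e2 : ((((∏ j ∈ Finset.univ.erase i, s j) * b i : 𝓞 F)) : F) =
        ((∏ j ∈ Finset.univ.erase i, s j : 𝓞 F) : F) * (b i : F) := map_mul _ _ _
    rw [e1, e2, mul_assoc, ← h1, mul_comm (a i)]

/-- **An integral model with good reduction.** -/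
theorem exists_model {F : Type u} [Field F] [NumberField F] {W : WeierstrassCurve F}
    {v : HeightOneSpectrum (𝓞 F)} (h : Gd W v) :
    ∃ (V : WeierstrassCurve (𝓞 F)) (C : VariableChange F),
      C • W = V.map (algebraMap (𝓞 F) F) ∧ V.Δ ∉ v.asIdeal := by
  obtain ⟨C, hC⟩ := h
  obtain ⟨s, hs, hb⟩ := exists_den5 v (a := ![(C • W).a₁, (C • W).a₂, (C • W).a₃, (C • W).a₄,
    (C • W).a₆]) (by
      intro i
      fin_cases i
      · exact hC.a1
      · exact hC.a2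
      · exact hC.a3
      · exact hC.a4
      · exact hC.a6)
  obtain ⟨b1, h1⟩ := hb 0
  obtain ⟨b2, h2⟩ := hb 1
  obtain ⟨b3, h3⟩ := hb 2
  obtain ⟨b4, h4⟩ := hb 3
  obtain ⟨b6, h6⟩ := hb 4
  have h1 : (s : F) * (C • W).a₁ = (b1 : F) := h1
  have h2 : (s : F) * (C • W).a₂ = (b2 : F) := h2
  have h3 : (s : F) * (C • W).a₃ = (b3 : F) := h3
  have h4 : (s : F) * (C • W).a₄ = (b4 : F) := h4
  have h6 : (s : F) * (C • W).a₆ = (b6 : F) := h6
  have hs0 : (s : F) ≠ 0 := by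
    intro h0
    have h7 : s = 0 := RingOfIntegers.ext h0
    rw [h7] at hs
    exact hs v.asIdeal.zero_mem
  have e : ((((Units.mk0 (s : F) hs0)⁻¹)⁻¹ : Fˣ) : F) = (s : F) := by rw [inv_inv, Units.val_mk0]
  let D : VariableChange F := ⟨(Units.mk0 (s : F) hs0)⁻¹, 0, 0, 0⟩
  have hmap : D • C • W = (⟨b1, s * b2, s ^ 2 * b3, s ^ 3 * b4, s ^ 5 * b6⟩ :
      WeierstrassCurve (𝓞 F)).map (algebraMap (𝓞 F) F) := by
    refine WeierstrassCurve.ext ?_ ?_ ?_ ?_ ?_
    · rw [variableChange_a₁, e]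
      change (s : F) * ((C • W).a₁ + 2 * 0) = (b1 : F)
      rw [← h1]
      ring
    · rw [variableChange_a₂, e]
      change (s : F) ^ 2 * ((C • W).a₂ - 0 * (C • W).a₁ + 3 * 0 - 0 ^ 2) =
        algebraMap (𝓞 F) F (s * b2)
      rw [map_mul]
      change _ = (s : F) * (b2 : F)
      rw [← h2]
      ring
    · rw [variableChange_a₃, e]
      change (s : F) ^ 3 * ((C • W).a₃ + 0 * (C • W).a₁ + 2 * 0) =
        algebraMap (𝓞 F) F (s ^ 2 * b3)
      rw [map_mul, map_pow]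
      change _ = (s : F) ^ 2 * (b3 : F)
      rw [← h3]
      ring
    · rw [variableChange_a₄, e]
      change (s : F) ^ 4 * ((C • W).a₄ - 0 * (C • W).a₃ + 2 * 0 * (C • W).a₂ -
        (0 + 0 * 0) * (C • W).a₁ + 3 * 0 ^ 2 - 2 * 0 * 0) = algebraMap (𝓞 F) F (s ^ 3 * b4)
      rw [map_mul, map_pow]
      change _ = (s : F) ^ 3 * (b4 : F)
      rw [← h4]
      ring
    · rw [variableChange_a₆, e]
      change (s : F) ^ 6 * ((C • W).a₆ + 0 * (C • W).a₄ + 0 ^ 2 * (C • W).a₂ + 0 ^ 3 -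
        0 * (C • W).a₃ - 0 ^ 2 - 0 * 0 * (C • W).a₁) = algebraMap (𝓞 F) F (s ^ 5 * b6)
      rw [map_mul, map_pow]
      change _ = (s : F) ^ 5 * (b6 : F)
      rw [← h6]
      ring
  refine ⟨_, D * C, by rw [mul_smul, hmap], fun hΔ => ?_⟩
  have h7 := congrArg WeierstrassCurve.Δ hmap
  rw [variableChange_Δ, e, WeierstrassCurve.map_Δ] at h7
  have h8 := (v.valuation_lt_one_iff_mem (K := F) _).2 hΔ
  have h8' : v.valuation F ((s : F) ^ 12 * (C • W).Δ) < 1 := by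
    rw [h7]
    exact h8
  rw [map_mul, map_pow, hC.disc, mul_one] at h8'
  have h9 : v.valuation F (s : F) = 1 := by
    have h10 := (v.valuation_lt_one_iff_mem (K := F) s).not.2 hs
    exact le_antisymm (v.valuation_le_one s) (not_lt.1 h10)
  rw [h9, one_pow] at h8'
  exact lt_irrefl _ h8'

end Pool.Agent.Lib.MP_1a91b9_nuE
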