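import Pool.Agent.Lib.MP_1a91b9_nuE.Per
import Pool.Agent.Lib.MP_1a91b9_nuX.TG.Top

/-!
# The unit property over `F₀ = N₀ K` from the value over `N₀`: the two cases
-/

set_option autoImplicit false

namespace Pool.Agent.Lib.MP_1a91b9_nuE

open NumberField IsDedekindDomain WeierstrassCurve Module IntermediateField
  Pool.Agent.Lib.MP_1a91b9_nuT
open Pool.Agent.Lib.MP_1a91b9_nuX
open Pool.Agent.Lib.MP_1a91b9_nuX.DB Pool.Agent.Lib.MP_1a91b9_nuX.GL
open Pool.Agent.Lib.MP_1a91b9_nuG (up ValueProp)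
open Pool.Agent.Lib.MP_1a91b9_nuX.PG
open Pool.Agent.Lib.MP_1a91b9_nuX.PH
open Pool.Agent.Lib.MP_1a91b9_nuT.PL (Ab)

universe u

variable [CD] [HC]

section
variable {F : Type u} [Field F] [NumberField F] [Algebra K F] {ℓ : ℕ}

omit [HC] in
/-- the condition at a place of a subfield -/
theorem hv_down (hE : EllK) {F' : Type u} [Field F'] [NumberField F'] [Algebra K F']
    [Algebra F F'] [IsScalarTower K F F'] (w : HeightOneSpectrum (𝓞 F'))
    (hg : Gd (E F) (w.under (𝓞 F)))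
    (h : Gd (E F') w → IsCoprime (Hv (E F') w - 1) (ℓ : 𝓞 K)) :
    IsCoprime (Hv (E F) (w.under (𝓞 F)) - 1) (ℓ : 𝓞 K) := by
  have h1 : Gd (E F') w := by
    have h2 := gd_up hg
    rwa [E_map_up] at h2
  have h3 := h h1
  have h4 := hv_up hE (W := E F) fm_E w hg
  rw [E_map_up] at h4
  rw [h4] at h3
  refine h3.of_isCoprime_of_dvd_left ?_
  exact sub_one_dvd_pow_sub_one _ _

omit [HC] in
/-- a place above -/
theorem exists_placeU (F' : Type u) [Field F'] [NumberField F'] [Algebra F F']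
    (v : HeightOneSpectrum (𝓞 F)) : ∃ w : HeightOneSpectrum (𝓞 F'), w.under (𝓞 F) = v := by
  obtain ⟨w, hw⟩ := S5.exists_above (K := F) F' v
  refine ⟨w, ?_⟩
  rw [← hw]
  rfl

/-- the conditions over a subfield -/
theorem EuC.down (hE : EllK) {F' : Type u} [Field F'] [NumberField F'] [Algebra K F']
    [Algebra F F'] [IsScalarTower K F F'] (h : EuC ℓ F') : EuC ℓ F := by
  have hup : ∀ w : HeightOneSpectrum (𝓞 F'), up HC.f F ∈ (w.under (𝓞 F)).asIdeal →
      up HC.f F' ∈ w.asIdeal := by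
    intro w hw
    have h1 : algebraMap (𝓞 F) (𝓞 F') (up HC.f F) ∈ w.asIdeal := hw
    have h2 : algebraMap (𝓞 F) (𝓞 F') (up HC.f F) = up HC.f F' :=
      (IsScalarTower.algebraMap_apply (𝓞 K) (𝓞 F) (𝓞 F') HC.f).symm
    rwa [h2] at h1
  refine ⟨h.hℓ, fun v hv hl => ?_, fun v hv hg => ?_⟩
  · obtain ⟨w, rfl⟩ := exists_placeU F' v
    refine h.not w (hup w hv) ?_
    have h1 : algebraMap (𝓞 F) (𝓞 F') (ℓ : 𝓞 F) ∈ w.asIdeal := hl
    rwa [map_natCast] at h1
  · obtain ⟨w, rfl⟩ := exists_placeU F' v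
    exact hv_down hE w hg (h.na w (hup w hv))

end

/-- the integrality of the values -/
theorem value_of_unr {ℓ : ℕ} (hℓ : ℓ.Prime) (h5 : 5 ≤ ℓ) {F : Type u} [Field F] [NumberField F]
    [Algebra K F] (hu : DS.UnrL ℓ F) (h : ¬ ℓ ∣ 2 ^ finrank K F - 1) : ValueProp HC.f ℓ Om F := by
  refine TG.valueProp_e2 hℓ h5 F h (MP_1a91b9_nuT3.S8.uq_of_unram ℓ hℓ F fun v hv => ?_)
  exact TG.not_ram_of_unr hu hℓ.ne_zero v hv

/-- **The unit property over `F₀ = N₀ K`.** -/
theorem unitProp_base (hE : EllK) {N₀ F₀ : Type} [Field N₀] [NumberField N₀] [Field F₀]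
    [NumberField F₀] [Algebra K F₀] [Algebra N₀ F₀]
    (hN : IntermediateField.adjoin N₀ (Set.range (algebraMap K F₀)) = ⊤)
    {ℓ : ℕ} (h : EuC ℓ F₀) (hf : IsCoprime HC.f (ℓ : 𝓞 K)) (h5 : 5 ≤ ℓ) (hu : DS.UnrL ℓ F₀)
    (he : ¬ ℓ ∣ 2 ^ finrank K F₀ - 1)
    (W : WeierstrassCurve N₀) (C : VariableChange F₀) (hC : C • W.map (algebraMap N₀ F₀) = E F₀)
    {g : ℂ → ℂ} (hg : Differentiable ℂ g)
    (hgs : ∀ s : ℂ, 3 / 2 < s.re → g s = W.LSeries s)
    (h1 : ∀ A : ValuationSubring ℂ, Ab ℓ A →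
      A.valuation (g 1) = A.valuation Om ^ finrank ℚ N₀) : AN.UnitProp ℓ Om F₀ := by
  have hgen : IntermediateField.adjoin N₀ {algebraMap K F₀ om} = ⊤ := by
    rw [eq_top_iff, ← hN, IntermediateField.adjoin_le_iff]
    rintro _ ⟨z, rfl⟩
    obtain ⟨a, b, rfl⟩ := exists_rat_coords z
    rw [map_add, map_mul, map_ratCast, map_ratCast]
    have h2 : ∀ q : ℚ, (q : F₀) ∈ IntermediateField.adjoin N₀ {algebraMap K F₀ om} := fun q => by
      have h3 := (IntermediateField.adjoin N₀ {algebraMap K F₀ om}).algebraMap_mem (q : N₀)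
      rwa [map_ratCast] at h3
    exact add_mem (h2 a) (mul_mem (h2 b) (mem_adjoin_simple_self N₀ _))
  have hK2 : finrank ℚ K = 2 := finrank_K
  rcases TG.exists_sub F₀ N₀ with ⟨aKN, hst⟩ | ⟨F, _, _, _, _, _, t1, t2, h2, hn⟩
  · have hb : Function.Bijective (algebraMap N₀ F₀) := by
      refine ⟨(algebraMap N₀ F₀).injective, fun y => ?_⟩
      have h5 : y ∈ (⊥ : IntermediateField N₀ F₀) := by
        have h6 : IntermediateField.adjoin N₀ {algebraMap K F₀ om} ≤ ⊥ := by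
          rw [adjoin_simple_le_iff, IntermediateField.mem_bot]
          exact ⟨algebraMap K N₀ om, (IsScalarTower.algebraMap_apply K N₀ F₀ om).symm⟩
        rw [hgen] at h6
        exact h6 mem_top
      exact IntermediateField.mem_bot.1 h5
    let e : N₀ ≃ₐ[K] F₀ := AlgEquiv.ofBijective (IsScalarTower.toAlgHom K N₀ F₀) hb
    have he1 : ((e.symm : F₀ ≃ₐ[K] N₀) : F₀ →+* N₀).comp (algebraMap N₀ F₀) = RingHom.id N₀ :=
      RingHom.ext fun x => e.symm_apply_apply x
    have hfr : finrank K N₀ = finrank K F₀ := e.toLinearEquiv.finrank_eq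
    have hV : ValueProp HC.f ℓ Om N₀ :=
      value_of_unr h.hℓ h5 (TG.unrL_down h.hℓ.ne_zero hu) (by rw [hfr]; exact he)
    refine TG.unitProp_iso e (unitProp_K hE (h.down hE) hf hV W
      (C.map ((e.symm : F₀ ≃ₐ[K] N₀) : F₀ →+* N₀)) ?_ hg hgs fun A hA => ?_)
    · have h7 : (C • W.map (algebraMap N₀ F₀)).map ((e.symm : F₀ ≃ₐ[K] N₀) : F₀ →+* N₀) =
          (E F₀).map ((e.symm : F₀ ≃ₐ[K] N₀) : F₀ →+* N₀) := by rw [hC]
      rw [← WeierstrassCurve.map_variableChange, WeierstrassCurve.map_map, he1,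
        WeierstrassCurve.map_id, TG.E_map] at h7
      exact h7
    · rw [h1 A hA, ← Module.finrank_mul_finrank ℚ K N₀, hK2]
  · have hb : Function.Bijective (algebraMap F F₀) := by
      refine ⟨(algebraMap F F₀).injective, fun y => ?_⟩
      have h6 : IntermediateField.adjoin N₀ {algebraMap K F₀ om} ≤
          (IsScalarTower.toAlgHom N₀ F F₀).fieldRange := by
        rw [adjoin_simple_le_iff]
        exact ⟨algebraMap K F om, (IsScalarTower.algebraMap_apply K F F₀ om).symm⟩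
      rw [hgen] at h6
      obtain ⟨z, hz⟩ := h6 (mem_top (x := y))
      exact ⟨z, hz⟩
    let e : F ≃ₐ[K] F₀ := AlgEquiv.ofBijective (IsScalarTower.toAlgHom K F F₀) hb
    have h3 : finrank N₀ F₀ = 2 := by
      rw [← h2]
      exact (AlgEquiv.ofBijective (IsScalarTower.toAlgHom N₀ F F₀) hb).toLinearEquiv.finrank_eq.symm
    refine unitProp_N hE h h3 (fun x hx => hn x ((algebraMap F F₀).injective ?_)) W C hC hg hgs
      fun A hA => ?_
    · rw [← IsScalarTower.algebraMap_apply N₀ F F₀, ← IsScalarTower.algebraMap_apply K F F₀]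
      exact hx
    · rw [h1 A hA]
      have h8 : finrank ℚ N₀ * finrank N₀ F₀ = finrank ℚ K * finrank K F₀ := by
        rw [Module.finrank_mul_finrank, Module.finrank_mul_finrank]
      rw [h3, hK2] at h8
      have h9 : finrank ℚ N₀ = finrank K F₀ := by omega
      rw [h9]

end Pool.Agent.Lib.MP_1a91b9_nuE
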