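import Pool.Agent.Lib.MP_1a91b9_nuX.QW.Pe
import Pool.Agent.Lib.MP_1a91b9_nuT.PL.Disc

/-!
# The value from the quotient by the period
-/

set_option autoImplicit false

namespace Pool.Agent.Lib.MP_1a91b9_nuE

variable [Pool.Agent.Lib.MP_1a91b9_nuT.CD]

open NumberField IsDedekindDomain WeierstrassCurve Pool.Agent.Lib.MP_1a91b9_nuT
open Pool.Agent.Lib.MP_1a91b9_nuT.PL (Ab)
open Pool.Agent.Lib.MP_1a91b9_nuT.Per (cv)
open Pool.Agent.Lib.MP_1a91b9_nuT.S9 (period)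
open Pool.Agent.Lib.MP_1a91b9_nuX.QW

/-- a rational number prime to `ℓ` -/
theorem val_rat {ℓ : ℕ} {A : ValuationSubring ℂ} (hA : Ab ℓ A) {q : ℚ}
    (h1 : IsCoprime q.num (ℓ : ℤ)) (h2 : q.den.Coprime ℓ) : A.valuation ((q : ℚ) : ℂ) = 1 := by
  have e : ((q : ℚ) : ℂ) = ((q.num : ℤ) : ℂ) / ((q.den : ℕ) : ℂ) := by
    conv_lhs => rw [← Rat.num_div_den q]
    push_cast
    rfl
  rw [e, map_div₀, hA.int h1, hA.nat h2, div_one]

theorem val_quot {N : Type} [Field N] [NumberField N] {a b : N} (h : TwC a b)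
    {W : WeierstrassCurve N} {D : VariableChange N} (hD : D • W = cv a b) {ℓ : ℕ} (hℓ : ℓ.Prime)
    (hg : ¬ (ℓ : ℤ) ∣ CD.bad)
    (hgood : ∀ v : HeightOneSpectrum (𝓞 N), (ℓ : 𝓞 N) ∈ v.asIdeal → GdA a b v)
    (hd : IsCoprime (discr N) (ℓ : ℤ)) {x : ℂ} {q : ℚ} (h1 : IsCoprime q.num (ℓ : ℤ))
    (h2 : q.den.Coprime ℓ)
    (hx : x * ((√|(discr N : ℝ)| : ℝ) : ℂ) / ((period W : ℝ) : ℂ) = ((q : ℚ) : ℂ))
    {A : ValuationSubring ℂ} (hA : Ab ℓ A) :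
    A.valuation x = A.valuation Om ^ Module.finrank ℚ N := by
  obtain ⟨hp0, hp⟩ := period_W h hD hℓ hg hgood
  have h3 : ((period W : ℝ) : ℂ) ≠ 0 := Complex.ofReal_ne_zero.2 hp0
  have h4 : x * ((√|(discr N : ℝ)| : ℝ) : ℂ) = ((q : ℚ) : ℂ) * ((period W : ℝ) : ℂ) :=
    (div_eq_iff h3).1 hx
  have h5 := congrArg A.valuation h4
  rw [map_mul, map_mul, hA.sqrt_int hd, mul_one, val_rat hA h1 h2, one_mul, hp A hA] at h5
  exact h5

end Pool.Agent.Lib.MP_1a91b9_nuE
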