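import Pool.Agent.Lib.MP_1a91b9_nuE.Gi
import Pool.Agent.Lib.MP_1a91b9_nuT.S4.Add

/-!
# The curve `y² = x³ + 16`: points of order three, reduction above two and three
-/

set_option autoImplicit false

namespace Pool.Agent.Lib.MP_1a91b9_nuE

open NumberField IsDedekindDomain WeierstrassCurve Module WithZero
open Pool.Agent.Lib.MP_1a91b9_nuI
open Pool.Agent.Lib.MP_1a91b9_nuT.S4 (fermatCubic fermatCubic_map fermatCubic_delta)

theorem three_tors {F : Type*} [Field F] [DecidableEq F] {W : WeierstrassCurve F} (h1 : W.a₁ = 0)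
    (h2 : W.a₂ = 0) (h4 : W.a₄ = 0) {y : F} (h : W.toAffine.Nonsingular 0 y)
    (hy : y ≠ W.toAffine.negY 0 y) : 3 • Affine.Point.some 0 y h = 0 := by
  have hs : W.toAffine.slope 0 0 y y = 0 := by
    rw [Affine.slope_of_Y_ne rfl hy]
    have e : (3 * (0 : F) ^ 2 + 2 * W.toAffine.a₂ * 0 + W.toAffine.a₄ - W.toAffine.a₁ * y) = 0 := by
      rw [show W.toAffine.a₄ = 0 from h4, show W.toAffine.a₁ = 0 from h1]
      ring
    rw [e, zero_div]
  have hx : W.toAffine.addX 0 0 0 = 0 := by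
    simp only [Affine.addX]
    rw [show W.toAffine.a₂ = 0 from h2]
    ring
  have key : Affine.Point.some 0 y h + Affine.Point.some 0 y h = -Affine.Point.some 0 y h := by
    rw [Affine.Point.add_self_of_Y_ne hy, Affine.Point.neg_some, Affine.Point.some.injEq]
    constructor
    · rw [hs, hx]
    · rw [hs, Affine.addY, hx, Affine.negAddY, hx]
      congr 1
      ring
  rw [succ_nsmul, two_nsmul, key, neg_add_cancel]

theorem three_dvd (k : Type*) [Field k] [Finite k] :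
    3 ∣ Nat.card (fermatCubic k).toAffine.Point := by
  classical
  have hns : (fermatCubic k).toAffine.Nonsingular 0 0 := by
    rw [Affine.nonsingular_iff, Affine.equation_iff]
    refine ⟨by simp [fermatCubic], Or.inr ?_⟩
    simp [fermatCubic]
  have h1 := three_tors (W := fermatCubic k) rfl rfl rfl hns (by
    simp [Affine.negY, fermatCubic])
  have hP : addOrderOf (Affine.Point.some 0 0 hns) = 3 := by
    refine (addOrderOf_eq_prime_iff (p := 3)).2 ⟨h1, ?_⟩
    exact Affine.Point.some_ne_zero _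
  rw [← hP]
  exact addOrderOf_dvd_natCard _

theorem good_unique (R : Type*) [CommRing R] [IsDomain R] [IsDiscreteValuationRing R]
    {K : Type*} [Field K] [Algebra R K] [IsFractionRing R K] {W : WeierstrassCurve K} {n n' : ℕ}
    (h : Good R W n) (h' : Good R W n') : n = n' := by
  obtain ⟨C, W₀, e1, e2, e3⟩ := h
  obtain ⟨C', W₀', e1', e2', e3'⟩ := h'
  have h1 := Pool.Agent.Lib.MP_1a91b9_nt.localPolynomial_of_model R W C W₀ e1 e2
  rw [Pool.Agent.Lib.MP_1a91b9_nt.localPolynomial_of_model R W C' W₀' e1' e2', e3, e3'] at h1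
  have h2 := congrArg (fun P : Polynomial ℤ => P.coeff 1) h1
  simp only [Polynomial.coeff_add, Polynomial.coeff_sub, Polynomial.coeff_one,
    Polynomial.coeff_C_mul, Polynomial.coeff_X_pow, Polynomial.coeff_X_one] at h2
  norm_num at h2
  exact h2.symm

section
variable {F : Type} [Field F] [NumberField F] (v : HeightOneSpectrum (𝓞 F))

theorem absNorm_dvd_of_mem {p k : ℕ} (hv : (p : 𝓞 F) ∈ v.asIdeal ^ k) :
    (Nat.card (𝓞 F ⧸ v.asIdeal)) ^ k ∣ p ^ finrank ℚ F := by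
  have h1 : Ideal.absNorm (v.asIdeal ^ k) ∣ Ideal.absNorm (Ideal.span {(p : 𝓞 F)}) :=
    Ideal.absNorm_dvd_absNorm_of_le ((Ideal.span_singleton_le_iff_mem _).2 hv)
  rw [map_pow, Ideal.absNorm_span_singleton] at h1
  have h2 : Algebra.norm ℤ (p : 𝓞 F) = (p : ℤ) ^ finrank ℤ (𝓞 F) := by
    have h3 := Algebra.norm_algebraMap (R := ℤ) (S := 𝓞 F) (p : ℤ)
    rwa [map_natCast] at h3
  rw [h2, RingOfIntegers.rank, Int.natAbs_pow, Int.natAbs_natCast] at h1
  rwa [Ideal.absNorm_apply, Submodule.cardQuot_apply] at h1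

theorem one_lt_card : 1 < Nat.card (𝓞 F ⧸ v.asIdeal) := by
  have hm : v.asIdeal.IsMaximal := v.isMaximal
  let _ : Field (𝓞 F ⧸ v.asIdeal) := Ideal.Quotient.field _
  have i2 : Finite (𝓞 F ⧸ v.asIdeal) := Ideal.finiteQuotientOfFreeOfNeBot _ v.ne_bot
  exact Finite.one_lt_card

/-- above two the numbers of points are divisible by three and at most nine -/
theorem pts_two (h2 : finrank ℚ F = 2) (hv : (2 : 𝓞 F) ∈ v.asIdeal) (V : WeierstrassCurve (𝓞 F))
    (C : VariableChange F)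
    (hC : C • (⟨0, 0, 0, 0, 16⟩ : WeierstrassCurve F) = V.map (algebraMap (𝓞 F) F))
    (hΔ : V.Δ ∉ v.asIdeal) :
    3 ∣ Nat.card (V.map (Ideal.Quotient.mk v.asIdeal)).toAffine.Point ∧
      1 ≤ Nat.card (V.map (Ideal.Quotient.mk v.asIdeal)).toAffine.Point ∧
      Nat.card (V.map (Ideal.Quotient.mk v.asIdeal)).toAffine.Point ≤ 9 := by
  have h3 : (3 : 𝓞 F) ∉ v.asIdeal := by
    intro h3
    apply v.isPrime.ne_top
    rw [Ideal.eq_top_iff_one]
    have e : (1 : 𝓞 F) = 3 - 2 := by norm_num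
    rw [e]
    exact v.asIdeal.sub_mem h3 hv
  have hΔ' : (fermatCubic (𝓞 F)).Δ ∉ v.asIdeal := by
    rw [fermatCubic_delta]
    intro h4
    have h5 : (3 : 𝓞 F) ^ 3 ∈ v.asIdeal := by
      have e : (3 : 𝓞 F) ^ 3 = -(-27) := by norm_num
      rw [e]
      exact v.asIdeal.neg_mem h4
    exact h3 (v.isPrime.mem_of_pow_mem 3 h5)
  obtain ⟨C₀, hC₀⟩ : ∃ C₀ : VariableChange F, C₀ • (⟨0, 0, 0, 0, 16⟩ : WeierstrassCurve F) =
      (fermatCubic (𝓞 F)).map (algebraMap (𝓞 F) F) := by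
    refine ⟨⟨Units.mk0 2 two_ne_zero, 0, 0, 4⟩, ?_⟩
    rw [fermatCubic_map]
    ext
    · simp [variableChange_a₁, fermatCubic]
    · simp [variableChange_a₂, fermatCubic]
    · simp only [variableChange_a₃, fermatCubic, Units.val_inv_eq_inv_val, Units.val_mk0]
      norm_num
    · simp [variableChange_a₄, fermatCubic]
    · simp only [variableChange_a₆, fermatCubic, Units.val_inv_eq_inv_val, Units.val_mk0]
      norm_num
  have g1 := good_of_model v hC hΔ
  have g2 := good_of_model v hC₀ hΔ'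
  rw [good_unique (Rv v) g1 g2, fermatCubic_map]
  have hm : v.asIdeal.IsMaximal := v.isMaximal
  let _ : Field (𝓞 F ⧸ v.asIdeal) := Ideal.Quotient.field _
  have i2 : Finite (𝓞 F ⧸ v.asIdeal) := Ideal.finiteQuotientOfFreeOfNeBot _ v.ne_bot
  have h4 : Nat.card (𝓞 F ⧸ v.asIdeal) ≤ 4 := by
    have h5 := absNorm_dvd_of_mem v (p := 2) (k := 1) (by
      rw [pow_one]
      exact_mod_cast hv)
    rw [h2, pow_one] at h5
    exact Nat.le_of_dvd (by norm_num) h5
  obtain ⟨h6, h7⟩ := Pool.Agent.Lib.MP_1a91b9_nt.card_point_le (fermatCubic (𝓞 F ⧸ v.asIdeal))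
  exact ⟨three_dvd _, h6, h7.trans (by omega)⟩

/-- there is no good reduction above three -/
theorem pts_three (h2 : finrank ℚ F = 2) (hv : (3 : 𝓞 F) ∈ v.asIdeal)
    (V : WeierstrassCurve (𝓞 F)) (C : VariableChange F)
    (hC : C • (⟨0, 0, 0, 0, 16⟩ : WeierstrassCurve F) = V.map (algebraMap (𝓞 F) F)) :
    V.Δ ∈ v.asIdeal := by
  by_contra hΔ
  have h2' : (2 : 𝓞 F) ∉ v.asIdeal := by
    intro h3
    apply v.isPrime.ne_top
    rw [Ideal.eq_top_iff_one]
    have e : (1 : 𝓞 F) = 3 - 2 := by norm_num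
    rw [e]
    exact v.asIdeal.sub_mem hv h3
  have h9 : (3 : 𝓞 F) ∉ v.asIdeal ^ 3 := by
    intro h4
    have h5 := absNorm_dvd_of_mem v (p := 3) (k := 3) (by exact_mod_cast h4)
    rw [h2] at h5
    have h6 := one_lt_card v
    have h7 := Nat.le_of_dvd (by norm_num) h5
    have h8 : Nat.card (𝓞 F ⧸ v.asIdeal) ∣ 3 ^ 2 := (dvd_pow_self _ three_ne_zero).trans h5
    obtain ⟨i, hi, hi'⟩ := (Nat.dvd_prime_pow Nat.prime_three).1 h8
    rw [hi'] at h7 h6
    interval_cases i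
    · norm_num at h6
    · norm_num at h7
    · norm_num at h7
  have val1 : ∀ x : 𝓞 F, x ∉ v.asIdeal → v.valuation F (algebraMap (𝓞 F) F x) = 1 := by
    intro x hx
    have h10 := (v.valuation_lt_one_iff_mem (K := F) x).not.2 hx
    exact le_antisymm (v.valuation_le_one x) (not_lt.1 h10)
  obtain ⟨k, hk, hk1, hk3⟩ : ∃ k : ℕ, v.valuation F (3 : F) = exp (-(k : ℤ)) ∧ 1 ≤ k ∧ k < 3 := by
    have h30 : (3 : 𝓞 F) ≠ 0 := by
      exact_mod_cast (by norm_num : (3 : ℕ) ≠ 0)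
    have e0 : algebraMap (𝓞 F) F (3 : 𝓞 F) = (3 : F) := map_ofNat _ 3
    have e1 : v.valuation F (3 : F) = v.intValuation (3 : 𝓞 F) := by
      rw [← e0]
      exact v.valuation_of_algebraMap (3 : 𝓞 F)
    obtain ⟨k, hk⟩ : ∃ k : ℕ, v.intValuation (3 : 𝓞 F) = exp (-(k : ℤ)) :=
      ⟨_, v.intValuation_if_neg h30⟩
    refine ⟨k, by rw [e1, hk], ?_, ?_⟩
    · have h12 := (v.intValuation_le_pow_iff_mem (3 : 𝓞 F) 1).2 (by rwa [pow_one])
      rw [hk, exp_le_exp] at h12
      push_cast at h12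
      omega
    · by_contra hcon
      apply h9
      rw [← v.intValuation_le_pow_iff_mem, hk, exp_le_exp]
      push_cast
      omega
  have h13 := congrArg WeierstrassCurve.Δ hC
  rw [variableChange_Δ, WeierstrassCurve.map_Δ] at h13
  have h14 := congrArg (v.valuation F) h13
  rw [val1 _ hΔ] at h14
  have hE : (⟨0, 0, 0, 0, 16⟩ : WeierstrassCurve F).Δ = -(2 ^ 12 * 3 ^ 3) := by
    simp only [WeierstrassCurve.Δ, WeierstrassCurve.b₂, WeierstrassCurve.b₄,
      WeierstrassCurve.b₆, WeierstrassCurve.b₈]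
    norm_num
  have v2 : v.valuation F (2 : F) = 1 := by
    have e0 : algebraMap (𝓞 F) F (2 : 𝓞 F) = (2 : F) := map_ofNat _ 2
    rw [← e0]
    exact val1 _ h2'
  rw [hE, map_mul, Valuation.map_neg, map_mul, map_pow, map_pow, map_pow, v2, hk, one_pow,
    one_mul] at h14
  obtain ⟨n, hn⟩ : ∃ n : ℤ, v.valuation F (↑C.u⁻¹ : F) = exp n := by
    have h16 : v.valuation F (↑C.u⁻¹ : F) ≠ 0 := (Valuation.ne_zero_iff _).2 (Units.ne_zero _)
    exact ⟨log (v.valuation F (↑C.u⁻¹ : F)), (exp_log h16).symm⟩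
  rw [hn, ← exp_nsmul, ← exp_nsmul, ← exp_add, exp_eq_one] at h14
  simp only [nsmul_eq_mul] at h14
  push_cast at h14
  omega

end

end Pool.Agent.Lib.MP_1a91b9_nuE
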