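import Pool.Agent.Lib.MP_1a91b9_nuE.Tf
import Pool.Agent.Lib.MP_1a91b9_nuI.TopX

/-!
# Towers over abelian fields with explicit conditions on the prime number, for the thirteen orders
-/

set_option autoImplicit false

namespace Pool.Agent.Lib.MP_1a91b9_nuE

open NumberField IsDedekindDomain Module WeierstrassCurve
open Pool.Agent.Lib.MP_1a91b9_nuI
open Pool.Agent.Lib.MP_1a91b9_nuT.S9 (period tam)
open Pool.Agent.Lib.MP_1a91b9_nuT3.S9 (ShaP FormulaQ)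

/-- the nine maximal orders -/
theorem nine_E {J d A B : ℤ} (hJ : (J, d) ∈ nine) (K N₀ F₀ L₀ : Type) [Field K] [NumberField K]
    [Field N₀] [NumberField N₀] [Field F₀] [NumberField F₀] [Field L₀] [NumberField L₀]
    [DecidableEq L₀] [Algebra K F₀] [Algebra N₀ F₀] [Algebra K L₀] [Algebra F₀ L₀]
    [IsScalarTower K F₀ L₀] (hK : finrank ℚ K = 2)
    (hd : ∃ w : K, w ^ 2 = (d : K)) (hAB : 4 * A ^ 3 + 27 * B ^ 2 ≠ 0)
    (hj : 6912 * A ^ 3 = J * (4 * A ^ 3 + 27 * B ^ 2))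
    (hN : IntermediateField.adjoin N₀ (Set.range (algebraMap K F₀)) = ⊤) (x y : L₀)
    (hxy : (⟨0, 0, 0, ((A : ℤ) : L₀), ((B : ℤ) : L₀)⟩ :
      WeierstrassCurve L₀).toAffine.Nonsingular x y) {m : ℕ} (hm : m ≠ 0)
    (ht : m • Affine.Point.some x y hxy = 0)
    (hL₀ : IntermediateField.adjoin K {x, y} = ⊤)
    {g : ℂ → ℂ} (hg : Differentiable ℂ g) (hgs : ∀ s : ℂ, 3 / 2 < s.re →
      g s = (⟨0, 0, 0, ((A : ℤ) : N₀), ((B : ℤ) : N₀)⟩ : WeierstrassCurve N₀).LSeries s)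
    {q : ℚ} (hq : g 1 * ((√|(discr N₀ : ℝ)| : ℝ) : ℂ) / ((period (⟨0, 0, 0, ((A : ℤ) : N₀),
      ((B : ℤ) : N₀)⟩ : WeierstrassCurve N₀) : ℝ) : ℂ) = ((q : ℚ) : ℂ)) {ℓ : ℕ}
    (h : Cnd ℓ m A B (bE A B d) (finrank K F₀) q F₀) :
    TowW ℓ ∅ A B d F₀ (fun N _ _ W => Con1 N W ∧ Con2' ℓ N W) ∧ ¬ (ℓ : ℤ) ∣ discr F₀ := by
  obtain ⟨hS, hnd⟩ := towG_of K N₀ F₀ L₀ hK hJ hd hAB hj hN x y hxy hm ht hL₀ hg hgs hq h
  refine ⟨?_, hnd⟩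
  intro n N L M _ _ _ _ _ _ _ _ _ _ _ _ hM hR W C hC
  obtain ⟨h1, h2⟩ := hS n N L M hM
    (fun v w hvw => ⟨fun hv => ((hR v w hvw).1 hv).2.2, (hR v w hvw).2⟩) W C hC
  refine ⟨h1, fun hf g g1 g2 => ?_⟩
  obtain ⟨h3, h4, h5, h6, h7⟩ := h2 hf
  exact ⟨h3 g g1 fun s hs => g2 s (by linarith), h4, h5, h6, h7⟩

/-- **The theorem with explicit conditions on the prime number, for the thirteen orders.** -/
theorem topE {J d A B : ℤ} (hJ : (J, d) ∈ thirteen) (K N₀ F₀ L₀ : Type) [Field K] [NumberField K]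
    [Field N₀] [NumberField N₀] [Field F₀] [NumberField F₀] [Field L₀] [NumberField L₀]
    [DecidableEq L₀] [Algebra K F₀] [Algebra N₀ F₀] [Algebra K L₀] [Algebra F₀ L₀]
    [IsScalarTower K F₀ L₀] (hK : finrank ℚ K = 2)
    (hd : ∃ w : K, w ^ 2 = (d : K)) (hAB : 4 * A ^ 3 + 27 * B ^ 2 ≠ 0)
    (hj : 6912 * A ^ 3 = J * (4 * A ^ 3 + 27 * B ^ 2))
    (hN : IntermediateField.adjoin N₀ (Set.range (algebraMap K F₀)) = ⊤) (x y : L₀)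
    (hxy : (⟨0, 0, 0, ((A : ℤ) : L₀), ((B : ℤ) : L₀)⟩ :
      WeierstrassCurve L₀).toAffine.Nonsingular x y) {m : ℕ} (hm : m ≠ 0)
    (ht : m • Affine.Point.some x y hxy = 0)
    (hL₀ : IntermediateField.adjoin K {x, y} = ⊤)
    {g : ℂ → ℂ} (hg : Differentiable ℂ g) (hgs : ∀ s : ℂ, 3 / 2 < s.re →
      g s = (⟨0, 0, 0, ((A : ℤ) : N₀), ((B : ℤ) : N₀)⟩ : WeierstrassCurve N₀).LSeries s)
    {q : ℚ} (hq : g 1 * ((√|(discr N₀ : ℝ)| : ℝ) : ℂ) / ((period (⟨0, 0, 0, ((A : ℤ) : N₀),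
      ((B : ℤ) : N₀)⟩ : WeierstrassCurve N₀) : ℝ) : ℂ) = ((q : ℚ) : ℂ)) {ℓ : ℕ}
    (h : Cnd ℓ m A B (bE A B d) (finrank K F₀) q F₀) :
    TowW ℓ ∅ A B d F₀ (fun N _ _ W => Con1 N W ∧ Con2' ℓ N W) := by
  rcases thirteen_cases hJ with h9 | ⟨a', b', a, b, n, j, H⟩
  · exact (nine_E h9 K N₀ F₀ L₀ hK hd hAB hj hN x y hxy hm ht hL₀ hg hgs hq h).1
  obtain ⟨D, hD, rfl, rfl⟩ := H.int A B hAB hj
  obtain ⟨L, i1, i2, i3, i4, φ, x₁, y₁, hxy₁, ht₁, hgen₁⟩ := four_tors H D hD x y hxy ht hL₀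
  have i5 : NumberField L := NumberField.of_module_finite K L
  let aFL : Algebra F₀ L := ((φ : L₀ →+* L).comp (algebraMap F₀ L₀)).toAlgebra
  have i6 : IsScalarTower K F₀ L := by
    refine IsScalarTower.of_algebraMap_eq fun k => ?_
    show algebraMap K L k = φ (algebraMap F₀ L₀ (algebraMap K F₀ k))
    rw [← IsScalarTower.algebraMap_apply K F₀ L₀]
    exact (φ.commutes k).symm
  obtain ⟨_, _, _, _, _, _, cd, _⟩ := Pool.Agent.Lib.MP_1a91b9_nuX.UF.exists_cd (A := 0) (B := 1)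
    (J := 0) (by norm_num) (by norm_num) (by simp [Pool.Agent.Lib.MP_1a91b9_nuX.UF.jList]) 1
    one_ne_zero
  have hDN : (D : N₀) ≠ 0 := Int.cast_ne_zero.2 hD
  have e1 : ∀ (p q : ℤ),
      (⟨0, 0, 0, ((p * D ^ 2 : ℤ) : N₀), ((q * D ^ 3 : ℤ) : N₀)⟩ : WeierstrassCurve N₀) =
        cv ((p : N₀) * (D : N₀) ^ 2) ((q : N₀) * (D : N₀) ^ 3) := by
    intro p q
    push_cast
    rfl
  obtain ⟨x₀, ⟨i, k, hik⟩, hper⟩ := H.per (D : N₀) hDN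
  have hx0 : (x₀ : ℂ) ≠ 0 := by
    rw [hik]
    exact_mod_cast (mul_ne_zero (zpow_ne_zero i two_ne_zero) (zpow_ne_zero k three_ne_zero) :
      (2 : ℝ) ^ i * 3 ^ k ≠ 0)
  have hq' : g 1 * ((√|(discr N₀ : ℝ)| : ℝ) : ℂ) / ((period (⟨0, 0, 0, ((a * D ^ 2 : ℤ) : N₀),
      ((b * D ^ 3 : ℤ) : N₀)⟩ : WeierstrassCurve N₀) : ℝ) : ℂ) =
        ((q * ((2 : ℚ) ^ i * 3 ^ k) : ℚ) : ℂ) := by
    have e2 : ((q * ((2 : ℚ) ^ i * 3 ^ k) : ℚ) : ℂ) = (q : ℂ) * (x₀ : ℂ) := by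
      rw [hik]
      push_cast
      ring
    rw [e2, ← hq, e1 a b, e1 a' b', hper]
    push_cast
    field_simp
  have hgs' : ∀ s : ℂ, 3 / 2 < s.re → g s = (⟨0, 0, 0, ((a * D ^ 2 : ℤ) : N₀),
      ((b * D ^ 3 : ℤ) : N₀)⟩ : WeierstrassCurve N₀).LSeries s := by
    intro s hs
    rw [hgs s hs, e1 a b, e1 a' b', lser_eq (H.lf (D : N₀))]
  have hn : n ≠ 0 := by
    rcases H.n23 with rfl | rfl <;> norm_num
  obtain ⟨hT, hnd⟩ := nine_E H.jnine K N₀ F₀ L hK hd (H.discV D hD) (H.jV D) hN x₁ y₁ hxy₁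
    (mul_ne_zero hm hn) ht₁ hgen₁ hg hgs' hq' (cnd_four H D i k h)
  refine four_con H D hD h.prime (fun h1 => h.cop ((h1.trans ?_).mul_left _)) hnd hT
  exact ⟨d * (if d ≤ -19 then (1 - d) / 4 else 1), by unfold bE; ring⟩

/-- a field is not ramified over itself -/
theorem not_le_sq {F₀ : Type} [Field F₀] [NumberField F₀] (v w : HeightOneSpectrum (𝓞 F₀))
    (hvw : v.asIdeal.map (algebraMap (𝓞 F₀) (𝓞 F₀)) ≤ w.asIdeal ^ 2) : False := by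
  have h2 : ∀ x ∈ v.asIdeal, x ∈ w.asIdeal ^ 2 := fun x hx => hvw (Ideal.mem_map_of_mem _ hx)
  have h3 : v.asIdeal ≤ w.asIdeal := fun x hx => Ideal.pow_le_self two_ne_zero (h2 x hx)
  have h4 : v.asIdeal = w.asIdeal := v.isMaximal.eq_of_le w.isPrime.ne_top h3
  obtain ⟨π, hπ⟩ := v.intValuation_exists_uniformizer
  have h5 : π ∈ v.asIdeal := by
    have h6 := (v.intValuation_le_pow_iff_mem π 1).1 (by
      rw [hπ]
      exact le_of_eq rfl)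
    rwa [pow_one] at h6
  have h6 := h2 π h5
  rw [← h4] at h6
  have h7 := (v.intValuation_le_pow_iff_mem π 2).2 h6
  rw [hπ, WithZero.exp_le_exp] at h7
  norm_num at h7

/-- **The normalised value of the L-function is a rational number.** -/
theorem exists_rat {J d A B : ℤ} (hJ : (J, d) ∈ thirteen) (K N₀ F₀ L₀ : Type) [Field K]
    [NumberField K] [Field N₀] [NumberField N₀] [Field F₀] [NumberField F₀] [Field L₀]
    [NumberField L₀] [DecidableEq L₀] [Algebra K F₀] [Algebra N₀ F₀] [Algebra K L₀]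
    [Algebra F₀ L₀] [IsScalarTower K F₀ L₀] (hK : finrank ℚ K = 2)
    (hd : ∃ w : K, w ^ 2 = (d : K)) (hAB : 4 * A ^ 3 + 27 * B ^ 2 ≠ 0)
    (hj : 6912 * A ^ 3 = J * (4 * A ^ 3 + 27 * B ^ 2))
    (hN : IntermediateField.adjoin N₀ (Set.range (algebraMap K F₀)) = ⊤) (x y : L₀)
    (hxy : (⟨0, 0, 0, ((A : ℤ) : L₀), ((B : ℤ) : L₀)⟩ :
      WeierstrassCurve L₀).toAffine.Nonsingular x y) {m : ℕ} (hm : m ≠ 0)
    (ht : m • Affine.Point.some x y hxy = 0)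
    (hL₀ : IntermediateField.adjoin K {x, y} = ⊤)
    {g : ℂ → ℂ} (hg : Differentiable ℂ g) (hgs : ∀ s : ℂ, 3 / 2 < s.re →
      g s = (⟨0, 0, 0, ((A : ℤ) : N₀), ((B : ℤ) : N₀)⟩ : WeierstrassCurve N₀).LSeries s)
    (hg1 : g 1 ≠ 0) :
    ∃ q : ℚ, q ≠ 0 ∧ g 1 * ((√|(discr N₀ : ℝ)| : ℝ) : ℂ) / ((period (⟨0, 0, 0, ((A : ℤ) : N₀),
      ((B : ℤ) : N₀)⟩ : WeierstrassCurve N₀) : ℝ) : ℂ) = ((q : ℚ) : ℂ) := by
  have htor : IsOfFinAddOrder (Affine.Point.some x y hxy) :=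
    isOfFinAddOrder_iff_nsmul_eq_zero.2 ⟨m, Nat.pos_of_ne_zero hm, ht⟩
  obtain ⟨S, T, -, hS⟩ := topX2 A B J d hAB hj hJ K N₀ F₀ L₀ hK hd hN x y ⟨hxy, htor⟩ hL₀
    (fun _ => ⟨g, hg, hgs, hg1⟩)
  obtain ⟨ℓ, hℓ, hℓS⟩ : ∃ ℓ₀ : ℕ, ℓ₀.Prime ∧ ℓ₀ ∉ S := by
    obtain ⟨p, hp1, hp2⟩ := Nat.exists_infinite_primes (S.sup id + 1)
    refine ⟨p, hp2, fun h => ?_⟩
    have := Finset.le_sup (f := id) h
    simp only [id] at this
    omega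
  have h1 := hS ℓ hℓ hℓS 0 N₀ F₀ F₀ (by rw [finrank_self, pow_zero])
    (fun v w hvw => (not_le_sq v w hvw).elim)
    (⟨0, 0, 0, ((A : ℤ) : N₀), ((B : ℤ) : N₀)⟩ : WeierstrassCurve N₀) 1 (by
      rw [one_smul]
      exact (cv_map _ _ _).trans (by rw [map_intCast, map_intCast]; rfl))
  obtain ⟨⟨q, hq1, hq2, hq⟩, hs, ht, hf, hc⟩ := h1 (Fact.mk hℓ) g hg hgs
  obtain ⟨t, htt⟩ : ∃ t : ℕ, t = ∏ᶠ v : HeightOneSpectrum (𝓞 N₀), tam (⟨0, 0, 0, ((A : ℤ) : N₀),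
    ((B : ℤ) : N₀)⟩ : WeierstrassCurve N₀) v := ⟨_, rfl⟩
  have htc : t.Coprime ℓ := by
    rw [htt]
    exact finprod_induction (p := fun n : ℕ => n.Coprime ℓ) (Nat.coprime_one_left ℓ)
      (fun _ _ => Nat.Coprime.mul_left) ht
  have nz : ∀ m : ℕ, m.Coprime ℓ → m ≠ 0 := by
    rintro m hm rfl
    rw [Nat.coprime_zero_left] at hm
    exact hℓ.one_lt.ne' hm
  have hq0 : q ≠ 0 := by
    rintro rfl
    rw [Rat.num_zero, isCoprime_zero_left] at hq1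
    have h4 := Int.isUnit_iff.1 hq1
    have h5 := hℓ.one_lt
    omega
  obtain ⟨c, hcc⟩ : ∃ c : ℕ, c = Nat.card (⟨0, 0, 0, ((A : ℤ) : N₀),
    ((B : ℤ) : N₀)⟩ : WeierstrassCurve N₀).toAffine.Point := ⟨_, rfl⟩
  rw [← hcc] at hc
  have ht0 : (t : ℚ) ≠ 0 := Nat.cast_ne_zero.2 (nz t htc)
  have hc0 : (c : ℚ) ≠ 0 := Nat.cast_ne_zero.2 (nz c hc)
  refine ⟨q * (t / c ^ 2), mul_ne_zero hq0 (div_ne_zero ht0 (pow_ne_zero 2 hc0)), ?_⟩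
  rw [hq, hs, ← htt, ← hcc]
  push_cast
  ring

end Pool.Agent.Lib.MP_1a91b9_nuE
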