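import Pool.Agent.Lib.MP_1a91b9_nuE.Sa
import Pool.Agent.Lib.MP_1a91b9_nuE.TopE

/-!
# The curves without hypothesis on the L-function, with explicit exceptional sets
-/

set_option autoImplicit false

namespace Pool.Agent.Lib.MP_1a91b9_nuE

open NumberField IsDedekindDomain Module WeierstrassCurve
open Pool.Agent.Lib.MP_1a91b9_nuI
open Pool.Agent.Lib.MP_1a91b9_nuT.S9 (period tam)
open Pool.Agent.Lib.MP_1a91b9_nuT3.S9 (ShaP FormulaQ)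

theorem bE16 : ((3 : ℕ) : ℤ) * bE 0 16 (-3) = -(2 ^ 9 * 3 ^ 6) := by
  unfold bE
  norm_num

theorem prime16 {p : ℕ} (hp : p.Prime) (h : (p : ℤ) ∣ ((3 : ℕ) : ℤ) * bE 0 16 (-3)) :
    p = 2 ∨ p = 3 := by
  rw [bE16, dvd_neg] at h
  have h1 : p ∣ 2 ^ 9 * 3 ^ 6 := by exact_mod_cast h
  rcases hp.dvd_mul.1 h1 with h2 | h2
  · exact Or.inl ((Nat.prime_dvd_prime_iff_eq hp Nat.prime_two).1 (hp.dvd_of_dvd_pow h2))
  · exact Or.inr ((Nat.prime_dvd_prime_iff_eq hp Nat.prime_three).1 (hp.dvd_of_dvd_pow h2))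

theorem cnd16 {F₀ : Type} [Field F₀] [NumberField F₀] (h2 : finrank ℚ F₀ = 2) {ℓ : ℕ}
    (hℓ : ℓ.Prime) (h5 : 5 ≤ ℓ) {q : ℚ} (hn : IsCoprime q.num (ℓ : ℤ)) (hd : q.den.Coprime ℓ) :
    Cnd ℓ 3 0 16 (bE 0 16 (-3)) 1 q F₀ := by
  refine ⟨hℓ, fun h => ?_, fun p hp h => ?_, ?_, hn, hd, fun v hv V C hC hΔ => ?_⟩
  · rcases prime16 hℓ h with rfl | rfl <;> omega
  · intro h1
    rcases prime16 hp h with rfl | rfl
    · have h3 := Nat.le_of_dvd (by norm_num) h1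
      norm_num at h3
      omega
    · have h3 : ℓ ∣ 2 ^ 3 := by
        norm_num at h1 ⊢
        exact h1
      have h4 := Nat.le_of_dvd (by norm_num) (hℓ.dvd_of_dvd_pow h3)
      omega
  · intro h
    have h3 := Nat.le_of_dvd (by norm_num) h
    norm_num at h3
    omega
  · have hC' : C • (⟨0, 0, 0, 0, 16⟩ : WeierstrassCurve F₀) = V.map (algebraMap (𝓞 F₀) F₀) := by
      rw [← hC]
      push_cast
      rfl
    have hP := v.isPrime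
    have hv' : (2 : 𝓞 F₀) ^ 9 * (3 : 𝓞 F₀) ^ 6 ∈ v.asIdeal := by
      rw [bE16] at hv
      have e : (2 : 𝓞 F₀) ^ 9 * (3 : 𝓞 F₀) ^ 6 = -((-(2 ^ 9 * 3 ^ 6) : ℤ) : 𝓞 F₀) := by
        push_cast
        ring
      rw [e]
      exact v.asIdeal.neg_mem hv
    rcases hP.mem_or_mem hv' with h3 | h3
    · obtain ⟨h4, h6, h7⟩ := pts_two v h2 (hP.mem_of_pow_mem 9 h3) V C hC' hΔ
      intro h8
      obtain ⟨k, hk⟩ := h4
      rw [hk] at h6 h7 h8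
      have hk3 : k ≤ 3 := by omega
      have hk1 : 1 ≤ k := by omega
      rcases hℓ.dvd_mul.1 h8 with h9 | h9
      · have := Nat.le_of_dvd (by norm_num) h9
        omega
      · have := Nat.le_of_dvd (by omega) h9
        omega
    · exact absurd (pts_three v h2 (hP.mem_of_pow_mem 6 h3) V C hC') hΔ

/-- the ramification condition is empty for the base field -/
theorem ramC_self {ℓ : ℕ} {A B : ℤ} {F₀ : Type} [Field F₀] [NumberField F₀] :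
    RamC ℓ A B F₀ F₀ := fun v w hvw => (not_le_sq v w hvw).elim

/-- the curve `y² = x³ + 16` over `ℚ(√-3)` -/
theorem spec16 (K N₀ F₀ : Type) [Field K] [NumberField K] [Field N₀] [NumberField N₀] [Field F₀]
    [NumberField F₀] [Algebra K F₀] [Algebra N₀ F₀] (hK : finrank ℚ K = 2)
    (hd : ∃ w : K, w ^ 2 = ((-3 : ℤ) : K)) (h1 : finrank K F₀ = 1)
    (hN : IntermediateField.adjoin N₀ (Set.range (algebraMap K F₀)) = ⊤) {ℓ : ℕ}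
    (hℓ : ℓ.Prime) (h5 : 5 ≤ ℓ) :
    TowW ℓ ∅ 0 16 (-3) F₀ (fun N _ _ W => Con1 N W ∧ Con2' ℓ N W) ∧ ¬ (ℓ : ℤ) ∣ discr F₀ := by
  classical
  have h2 : finrank ℚ F₀ = 2 := by
    rw [← finrank_mul_finrank ℚ K F₀, hK, h1]
  have hAB : 4 * (0 : ℤ) ^ 3 + 27 * 16 ^ 2 ≠ 0 := by norm_num
  have hj : 6912 * (0 : ℤ) ^ 3 = 0 * (4 * 0 ^ 3 + 27 * 16 ^ 2) := by norm_num
  have h9 : ((0 : ℤ), (-3 : ℤ)) ∈ nine := by simp [nine]
  have h13 : ((0 : ℤ), (-3 : ℤ)) ∈ thirteen := by simp [thirteen]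
  have hns : (⟨0, 0, 0, ((0 : ℤ) : F₀), ((16 : ℤ) : F₀)⟩ :
      WeierstrassCurve F₀).toAffine.Nonsingular 0 4 := by
    rw [Affine.nonsingular_iff, Affine.equation_iff]
    refine ⟨?_, Or.inr ?_⟩
    · push_cast
      norm_num
    · simp only [zero_mul, sub_zero]
      intro h
      have h8 : (8 : F₀) = 0 := by linear_combination h
      norm_num at h8
  have ht : 3 • Affine.Point.some 0 4 hns = 0 := by
    refine three_tors rfl rfl (by simp) hns ?_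
    simp only [Affine.negY]
    norm_num
  have htor : Tor (⟨0, 0, 0, ((0 : ℤ) : F₀), ((16 : ℤ) : F₀)⟩ : WeierstrassCurve F₀) 0 4 :=
    ⟨hns, isOfFinAddOrder_iff_nsmul_eq_zero.2 ⟨3, by norm_num, ht⟩⟩
  have hgen : IntermediateField.adjoin K {(0 : F₀), 4} = ⊤ := by
    rw [eq_top_iff]
    intro z _
    have h3 : z ∈ (⊥ : Subalgebra K F₀) := by
      rw [Subalgebra.bot_eq_top_of_finrank_eq_one h1]
      exact Algebra.mem_top
    obtain ⟨k, rfl⟩ := Algebra.mem_bot.1 h3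
    exact IntermediateField.algebraMap_mem _ k
  have hno : ¬ ((((0 : ℤ) = 0 ∧ (16 : ℤ) = 16) ∨ ((0 : ℤ) = -480 ∧ (16 : ℤ) = 4048)) ∧
      finrank K F₀ = 1) → Lne (⟨0, 0, 0, ((0 : ℤ) : N₀), ((16 : ℤ) : N₀)⟩ :
        WeierstrassCurve N₀) := fun hn => absurd ⟨Or.inl ⟨rfl, rfl⟩, h1⟩ hn
  obtain ⟨S, hS1, hS2⟩ := topV1 0 16 0 (-3) hAB hj h13 K N₀ F₀ F₀ hK hd hN 0 4 htor hgen hno
  obtain ⟨g, hg, hgs, hg1⟩ : Lne (⟨0, 0, 0, ((0 : ℤ) : N₀), ((16 : ℤ) : N₀)⟩ :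
      WeierstrassCurve N₀) := by
    refine lne_base (hS2 5 (by norm_num) ?_)
    rw [hS1 ⟨Or.inl ⟨rfl, rfl⟩, h1⟩]
    decide
  obtain ⟨S', hS1', hS2'⟩ := topV2 0 16 0 (-3) hAB hj h13 K N₀ F₀ F₀ hK hd hN 0 4 htor hgen hno
  have hℓS : ℓ ∉ S' := by
    rw [hS1' ⟨Or.inl ⟨rfl, rfl⟩, h1⟩, if_pos rfl, Finset.mem_singleton]
    omega
  have h6 := hS2' ℓ hℓ hℓS 0 N₀ F₀ F₀ (by rw [finrank_self, pow_zero]) ramC_self
    (⟨0, 0, 0, ((0 : ℤ) : N₀), ((16 : ℤ) : N₀)⟩ : WeierstrassCurve N₀) 1 (by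
      rw [one_smul]
      exact (cv_map _ _ _).trans (by rw [map_intCast, map_intCast]; rfl))
  have := Fact.mk hℓ
  obtain ⟨⟨q, hq1, hq2, hq⟩, hs, ht', hf, hc⟩ := h6 this g hg hgs
  obtain ⟨t, htt⟩ : ∃ t : ℕ, t = ∏ᶠ v : HeightOneSpectrum (𝓞 N₀), tam (⟨0, 0, 0, ((0 : ℤ) : N₀),
    ((16 : ℤ) : N₀)⟩ : WeierstrassCurve N₀) v := ⟨_, rfl⟩
  have htc : t.Coprime ℓ := by
    rw [htt]
    exact finprod_induction (p := fun n : ℕ => n.Coprime ℓ) (Nat.coprime_one_left ℓ)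
      (fun _ _ => Nat.Coprime.mul_left) ht'
  have nz : ∀ m : ℕ, m.Coprime ℓ → m ≠ 0 := by
    rintro m hm rfl
    rw [Nat.coprime_zero_left] at hm
    exact hℓ.one_lt.ne' hm
  have hq0 : q ≠ 0 := by
    rintro rfl
    rw [Rat.num_zero, isCoprime_zero_left] at hq1
    have h4 := Int.isUnit_iff.1 hq1
    have h5 := hℓ.one_lt
    omega
  obtain ⟨c, hcc⟩ : ∃ c : ℕ, c = Nat.card (⟨0, 0, 0, ((0 : ℤ) : N₀),
    ((16 : ℤ) : N₀)⟩ : WeierstrassCurve N₀).toAffine.Point := ⟨_, rfl⟩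
  rw [← hcc] at hc
  have ht0 : (t : ℚ) ≠ 0 := Nat.cast_ne_zero.2 (nz t htc)
  have hc0 : (c : ℚ) ≠ 0 := Nat.cast_ne_zero.2 (nz c hc)
  have hq' : g 1 * ((√|(discr N₀ : ℝ)| : ℝ) : ℂ) / ((period (⟨0, 0, 0, ((0 : ℤ) : N₀),
      ((16 : ℤ) : N₀)⟩ : WeierstrassCurve N₀) : ℝ) : ℂ) = ((q * (t / c ^ 2) : ℚ) : ℂ) := by
    rw [hq, hs, ← htt, ← hcc]
    push_cast
    ring
  have hr0 : q * (t / c ^ 2) ≠ 0 := mul_ne_zero hq0 (div_ne_zero ht0 (pow_ne_zero 2 hc0))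
  have hrv : padicValRat ℓ (q * (t / c ^ 2)) = 0 := by
    rw [padicValRat.mul hq0 (div_ne_zero ht0 (pow_ne_zero 2 hc0)),
      padicValRat.div ht0 (pow_ne_zero 2 hc0), padicValRat.pow, val_nat htc, val_nat hc,
      (val_zero hq0).1 ⟨hq1, hq2⟩]
    ring
  obtain ⟨hr1, hr2⟩ := (val_zero hr0).2 hrv
  have hcnd := cnd16 h2 hℓ h5 hr1 hr2
  exact nine_E h9 K N₀ F₀ F₀ hK hd hAB hj hN 0 4 hns (by norm_num) ht hgen hg hgs hq'
    (by rw [h1]; exact hcnd)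

end Pool.Agent.Lib.MP_1a91b9_nuE
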