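import Pool.Agent.Lib.MP_1a91b9_nuE.Tk
import Pool.Agent.Lib.MP_1a91b9_nuW.TH.Main

/-!
# The towers for one prime number with explicit conditions
-/

set_option autoImplicit false

namespace Pool.Agent.Lib.MP_1a91b9_nuE

open NumberField IsDedekindDomain Module WeierstrassCurve Pool.Agent.Lib.MP_1a91b9_nuT
open Pool.Agent.Lib.MP_1a91b9_nt
open Pool.Agent.Lib.MP_1a91b9_nuX
open Pool.Agent.Lib.MP_1a91b9_nuX.DB
open Pool.Agent.Lib.MP_1a91b9_nuX.TG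
open Pool.Agent.Lib.MP_1a91b9_nuW.TH (STW TowZ scale_ramS conclH_ell conclP_ell)
open Pool.Agent.Lib.MP_1a91b9_nuT.S9 (period)

variable [CD]

section
variable [HC] {N₀ F₀ L₀ : Type} [Field N₀] [NumberField N₀] [Field F₀] [NumberField F₀]
  [Algebra K F₀] [Algebra N₀ F₀] [Field L₀] [NumberField L₀] [Algebra K L₀] [Algebra F₀ L₀]
  [IsScalarTower K F₀ L₀] [DecidableEq L₀]

/-- **The towers for one prime number** over the concrete field `K`. -/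
theorem towZ_K (hE : GL.EllK) (hS : ∀ ℓ : ℕ, ℓ.Prime → ¬ (ℓ : ℤ) ∣ CD.bad → STW.{0} ℓ)
    {A₀ B₀ k c b : ℤ} (hk : k ≠ 0) (hA : CD.A = k ^ 4 * A₀)
    (hB : CD.B = k ^ 6 * B₀) (hbad : BadP CD.bad b) (hc : c ∣ CD.bad)
    (hN : IntermediateField.adjoin N₀ (Set.range (algebraMap K F₀)) = ⊤) (x y : L₀)
    (hxy : (⟨0, 0, 0, ((A₀ : ℤ) : L₀), ((B₀ : ℤ) : L₀)⟩ :
      WeierstrassCurve L₀).toAffine.Nonsingular x y) {m : ℕ} (hm : m ≠ 0)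
    (ht : m • Affine.Point.some x y hxy = 0)
    (hL₀ : IntermediateField.adjoin K {x, y} = ⊤)
    {g : ℂ → ℂ} (hg : Differentiable ℂ g) (hgs : ∀ s : ℂ, 3 / 2 < s.re →
      g s = (⟨0, 0, 0, ((A₀ : ℤ) : N₀), ((B₀ : ℤ) : N₀)⟩ : WeierstrassCurve N₀).LSeries s)
    {q : ℚ} (hq : g 1 * ((√|(discr N₀ : ℝ)| : ℝ) : ℂ) / ((period (⟨0, 0, 0, ((A₀ : ℤ) : N₀),
      ((B₀ : ℤ) : N₀)⟩ : WeierstrassCurve N₀) : ℝ) : ℂ) = ((q : ℚ) : ℂ)) {ℓ : ℕ}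
    (h : Cnd ℓ m A₀ B₀ b (finrank K F₀) q F₀) :
    TowZ ℓ A₀ B₀ c F₀ ∧ ¬ (ℓ : ℤ) ∣ discr F₀ := by
  obtain ⟨T, hT, hx, hy⟩ := scale_torsm hk hA hB x y hxy ht
  have hgen := scale_gen hk hx hy hL₀
  obtain ⟨μ, hμ, hO⟩ := exists_ann hm hT
  have hGal : IsGalois K L₀ := gal_of_gen hμ hO hgen
  have hAb : AbT μ K T := ⟨hμ, hO, eq_one_of_gen hgen⟩
  obtain ⟨hex, hnd⟩ := expl_of hE hk hA hB hbad hN hAb hT hg hgs hq h
  have hH : TH.GoodEllH μ ((c * CD.bad : ℤ) : 𝓞 K) ℓ F₀ := by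
    refine goodEllH_of hex hE hAb hm hT hgen fun v hv => ?_
    have h5 : MP_1a91b9_nuG.up ((c * CD.bad : ℤ) : 𝓞 K) F₀ = ((c * CD.bad : ℤ) : 𝓞 F₀) :=
      map_intCast (algebraMap (𝓞 K) (𝓞 F₀)) _
    rw [h5] at hv
    obtain ⟨d, hd⟩ := hc
    have h6 : ((CD.bad : ℤ) : 𝓞 F₀) ∈ v.asIdeal := by
      rw [Int.cast_mul] at hv
      rcases v.isPrime.mem_or_mem hv with h7 | h7
      · rw [hd, Int.cast_mul]
        exact v.asIdeal.mul_mem_right _ h7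
      · exact h7
    rw [Int.cast_mul]
    exact v.asIdeal.mul_mem_left _ h6
  have hcd : ((CD.bad : ℤ) : 𝓞 K) ∣ ((c * CD.bad : ℤ) : 𝓞 K) :=
    map_dvd (Int.castRingHom (𝓞 K)) (Dvd.intro_left c rfl)
  have hℓ := h.prime
  refine ⟨?_, hnd⟩
  intro n N L M _ _ _ _ _ _ _ _ _ _ _ _ hM hL W C hC
  obtain ⟨C', hC'⟩ := scale_curve hk hA hB hC
  have hR := scale_ramS hk hA hB hL
  exact ⟨conclH_ell hE hAb hcd hH (hS ℓ hℓ hH.good) N L M n hM hR W C' hC',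
    fun hF => conclP_ell hE hAb hcd hH (hS ℓ hℓ hH.good) N L M n hM hR W C' hC'⟩

end

/-- **The towers for one prime number.** -/
theorem towZ_of [HC] (hE : GL.EllK) (hS : ∀ ℓ : ℕ, ℓ.Prime → ¬ (ℓ : ℤ) ∣ CD.bad → STW.{0} ℓ)
    (K₀ N₀ F₀ L₀ : Type) [Field K₀] [NumberField K₀]
    (hK : finrank ℚ K₀ = 2)
    {w : K₀} (hw : w ^ 2 = (CD.tr : K₀) * w - (CD.nm : K₀)) [Field N₀] [NumberField N₀] [Field F₀]
    [NumberField F₀] [Field L₀] [NumberField L₀] [DecidableEq L₀] [Algebra K₀ F₀] [Algebra N₀ F₀]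
    [Algebra K₀ L₀] [Algebra F₀ L₀] [IsScalarTower K₀ F₀ L₀] {A₀ B₀ k c b : ℤ} (hk : k ≠ 0)
    (hA : CD.A = k ^ 4 * A₀) (hB : CD.B = k ^ 6 * B₀) (hbad : BadP CD.bad b) (hc : c ∣ CD.bad)
    (hN : IntermediateField.adjoin N₀ (Set.range (algebraMap K₀ F₀)) = ⊤) (x y : L₀)
    (hxy : (⟨0, 0, 0, ((A₀ : ℤ) : L₀), ((B₀ : ℤ) : L₀)⟩ :
      WeierstrassCurve L₀).toAffine.Nonsingular x y) {m : ℕ} (hm : m ≠ 0)
    (ht : m • Affine.Point.some x y hxy = 0)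
    (hL₀ : IntermediateField.adjoin K₀ {x, y} = ⊤)
    {g : ℂ → ℂ} (hg : Differentiable ℂ g) (hgs : ∀ s : ℂ, 3 / 2 < s.re →
      g s = (⟨0, 0, 0, ((A₀ : ℤ) : N₀), ((B₀ : ℤ) : N₀)⟩ : WeierstrassCurve N₀).LSeries s)
    {q : ℚ} (hq : g 1 * ((√|(discr N₀ : ℝ)| : ℝ) : ℂ) / ((period (⟨0, 0, 0, ((A₀ : ℤ) : N₀),
      ((B₀ : ℤ) : N₀)⟩ : WeierstrassCurve N₀) : ℝ) : ℂ) = ((q : ℚ) : ℂ)) {ℓ : ℕ}
    (h : Cnd ℓ m A₀ B₀ b (finrank K₀ F₀) q F₀) :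
    TowZ ℓ A₀ B₀ c F₀ ∧ ¬ (ℓ : ℤ) ∣ discr F₀ := by
  obtain ⟨e, he⟩ := MP_1a91b9_nuT3.S8.exists_equiv hK hw
  let aF : Algebra K F₀ := ((algebraMap K₀ F₀).comp e.toRingHom).toAlgebra
  let aL : Algebra K L₀ := ((algebraMap K₀ L₀).comp e.toRingHom).toAlgebra
  have hFe : ∀ x : K, algebraMap K F₀ x = algebraMap K₀ F₀ (e x) := fun x => rfl
  have hLe : ∀ x : K, algebraMap K L₀ x = algebraMap K₀ L₀ (e x) := fun x => rfl
  have hst : IsScalarTower K F₀ L₀ := IsScalarTower.of_algebraMap_eq fun x => by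
    rw [hLe, hFe]
    exact IsScalarTower.algebraMap_apply K₀ F₀ L₀ (e x)
  have hrange : Set.range (algebraMap K F₀) = Set.range (algebraMap K₀ F₀) := by
    ext z
    constructor
    · rintro ⟨u, rfl⟩
      exact ⟨e u, rfl⟩
    · rintro ⟨u, rfl⟩
      exact ⟨e.symm u, by rw [hFe, RingEquiv.apply_symm_apply]⟩
  have hgen : IntermediateField.adjoin K {x, y} = (⊤ : IntermediateField K L₀) := by
    obtain ⟨A, hA⟩ : ∃ A : IntermediateField K L₀, A = IntermediateField.adjoin K {x, y} :=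
      ⟨_, rfl⟩
    let B : IntermediateField K₀ L₀ := A.toSubfield.toIntermediateField fun z => by
      change algebraMap K₀ L₀ z ∈ A
      have h4 := A.algebraMap_mem (e.symm z)
      rwa [hLe, RingEquiv.apply_symm_apply] at h4
    have hB : B = ⊤ := by
      rw [eq_top_iff, ← hL₀, IntermediateField.adjoin_le_iff]
      intro z hz
      change z ∈ A
      rw [hA]
      exact IntermediateField.subset_adjoin K {x, y} hz
    rw [← hA, eq_top_iff]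
    intro z _
    have h4 : z ∈ B := by
      rw [hB]
      exact IntermediateField.mem_top
    exact h4
  have hfin : finrank K F₀ = finrank K₀ F₀ := by
    have h1 := finrank_mul_finrank ℚ K F₀
    have h2 := finrank_mul_finrank ℚ K₀ F₀
    rw [finrank_K] at h1
    rw [hK] at h2
    omega
  exact towZ_K hE hS hk hA hB hbad hc (by rw [hrange]; exact hN) x y hxy hm ht hgen hg hgs hq
    (by rw [hfin]; exact h)

end Pool.Agent.Lib.MP_1a91b9_nuE
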