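import Pool.Agent.Lib.MP_1a91b9_nuE.Tn
import Pool.Agent.Lib.MP_1a91b9_nuE.Lfm
import Pool.Agent.Lib.MP_1a91b9_nuE.Fg

/-!
# The four families: the conditions on the prime number
-/

set_option autoImplicit false

namespace Pool.Agent.Lib.MP_1a91b9_nuE

open NumberField IsDedekindDomain Module WeierstrassCurve
open Pool.Agent.Lib.MP_1a91b9_nuI
open Pool.Agent.Lib.MP_1a91b9_nuT.S9 (period)

section
variable {a' b' a b : ℤ} {n : ℕ} {j' j d : ℤ}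

theorem bE_dvd (h : Four a' b' a b n j' j d) (D : ℤ) :
    bE (a * D ^ 2) (b * D ^ 3) d ∣ bE (a' * D ^ 2) (b' * D ^ 3) d := by
  obtain ⟨c, hc, -⟩ := h.disc D
  unfold bE
  rw [hc]
  exact ⟨c, by ring⟩

theorem n_dvd_bE (h : Four a' b' a b n j' j d) (A B : ℤ) : (n : ℤ) ∣ bE A B d := by
  unfold bE
  have h6 : (n : ℤ) ∣ 6 := by
    rcases h.n23 with rfl | rfl
    · exact ⟨3, by norm_num⟩
    · exact ⟨2, by norm_num⟩
  exact ((h6.mul_right _).mul_right _).mul_right _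

theorem prime_mn (h : Four a' b' a b n j' j d) (D : ℤ) {m p : ℕ} (hp : p.Prime)
    (hd : (p : ℤ) ∣ ((m * n : ℕ) : ℤ) * bE (a * D ^ 2) (b * D ^ 3) d) :
    (p : ℤ) ∣ m * bE (a' * D ^ 2) (b' * D ^ 3) d := by
  have hpp := Nat.prime_iff_prime_int.1 hp
  rcases hpp.dvd_mul.1 hd with h1 | h1
  · push_cast at h1
    rcases hpp.dvd_mul.1 h1 with h2 | h2
    · exact h2.mul_right _
    · exact (h2.trans (n_dvd_bE h _ _)).mul_left _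
  · exact (h1.trans (bE_dvd h D)).mul_left _

theorem mem_mn (h : Four a' b' a b n j' j d) (D : ℤ) {m : ℕ} {F : Type} [Field F] [NumberField F]
    (v : HeightOneSpectrum (𝓞 F))
    (hv : ((((m * n : ℕ) : ℤ) * bE (a * D ^ 2) (b * D ^ 3) d : ℤ) : 𝓞 F) ∈ v.asIdeal) :
    ((m * bE (a' * D ^ 2) (b' * D ^ 3) d : ℤ) : 𝓞 F) ∈ v.asIdeal := by
  have hP := v.isPrime
  have key : ∀ x y : ℤ, x ∣ y → (x : 𝓞 F) ∈ v.asIdeal → (y : 𝓞 F) ∈ v.asIdeal := by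
    rintro x y ⟨c, rfl⟩ hx
    rw [Int.cast_mul]
    exact v.asIdeal.mul_mem_right _ hx
  rw [Int.cast_mul, Nat.cast_mul, Int.cast_mul] at hv
  rcases hP.mem_or_mem hv with h1 | h1
  · rcases hP.mem_or_mem h1 with h2 | h2
    · exact key _ _ (Dvd.intro _ rfl) h2
    · exact key _ _ ((n_dvd_bE h _ _).mul_left _) h2
  · exact key _ _ ((bE_dvd h D).mul_left _) h1

end

theorem two_zpow {ℓ : ℕ} [hℓ : Fact ℓ.Prime] (h2 : ℓ ≠ 2) (h3 : ℓ ≠ 3) {q : ℚ}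
    (hn : IsCoprime q.num (ℓ : ℤ)) (hd : q.den.Coprime ℓ) (i j : ℤ) :
    IsCoprime (q * ((2 : ℚ) ^ i * 3 ^ j)).num (ℓ : ℤ) ∧
      (q * ((2 : ℚ) ^ i * 3 ^ j)).den.Coprime ℓ := by
  have hq0 : q ≠ 0 := by
    rintro rfl
    rw [Rat.num_zero, isCoprime_zero_left] at hn
    have h4 := Int.isUnit_iff.1 hn
    have h5 := hℓ.out.one_lt
    omega
  have q2 : padicValRat ℓ (2 : ℚ) = 0 := by
    have h4 := val_nat (ℓ := ℓ) (m := 2) ((Nat.coprime_primes Nat.prime_two hℓ.out).2 h2.symm)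
    exact_mod_cast h4
  have q3 : padicValRat ℓ (3 : ℚ) = 0 := by
    have h4 := val_nat (ℓ := ℓ) (m := 3) ((Nat.coprime_primes Nat.prime_three hℓ.out).2 h3.symm)
    exact_mod_cast h4
  have z2 : ((2 : ℚ) ^ i) ≠ 0 := zpow_ne_zero i two_ne_zero
  have z3 : ((3 : ℚ) ^ j) ≠ 0 := zpow_ne_zero j three_ne_zero
  refine (val_zero (mul_ne_zero hq0 (mul_ne_zero z2 z3))).2 ?_
  rw [padicValRat.mul hq0 (mul_ne_zero z2 z3), padicValRat.mul z2 z3, padicValRat.zpow,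
    padicValRat.zpow, q2, q3, (val_zero hq0).1 ⟨hn, hd⟩]
  ring

section
variable {a' b' a b : ℤ} {n : ℕ} {j' j d : ℤ}

/-- **The conditions for the isogenous curve.** -/
theorem cnd_four (h : Four a' b' a b n j' j d) (D : ℤ) {ℓ m e : ℕ} {q : ℚ} {F : Type} [Field F]
    [NumberField F] (i k : ℤ)
    (H : Cnd ℓ m (a' * D ^ 2) (b' * D ^ 3) (bE (a' * D ^ 2) (b' * D ^ 3) d) e q F) :
    Cnd ℓ (m * n) (a * D ^ 2) (b * D ^ 3) (bE (a * D ^ 2) (b * D ^ 3) d) e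
      (q * ((2 : ℚ) ^ i * 3 ^ k)) F := by
  have hℓ := H.prime
  have := Fact.mk hℓ
  have hno : ∀ r : ℤ, r ∣ 6 → ¬ (ℓ : ℤ) ∣ r := by
    intro r hr h1
    refine H.cop (((h1.trans hr).trans ?_).mul_left _)
    exact ⟨(4 * (a' * D ^ 2) ^ 3 + 27 * (b' * D ^ 3) ^ 2) * d *
      (if d ≤ -19 then (1 - d) / 4 else 1), by unfold bE; ring⟩
  have h2 : ℓ ≠ 2 := by
    rintro rfl
    exact hno 2 ⟨3, by norm_num⟩ (dvd_refl _)
  have h3 : ℓ ≠ 3 := by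
    rintro rfl
    exact hno 3 ⟨2, by norm_num⟩ (dvd_refl _)
  obtain ⟨h4, h5⟩ := two_zpow h2 h3 H.num H.den i k
  exact ⟨hℓ, fun h1 => H.cop (prime_mn h D hℓ h1), fun p hp h1 => H.sq p hp (prime_mn h D hp h1),
    H.e2, h4, h5, fun v hv => four_pts h D v (H.pts v (mem_mn h D v hv))⟩

/-- the transfer, for one prime number -/
theorem four_tow (h : Four a' b' a b n j' j d) (D₀ : ℤ) (hD₀ : D₀ ≠ 0) {ℓ : ℕ} {T : Finset ℕ}
    {F₀ : Type} [Field F₀] [NumberField F₀]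
    {Q Q' : ∀ (N : Type) [Field N] [NumberField N], WeierstrassCurve N → Prop}
    (hQ : ∀ (m : ℕ) (N L M : Type) [Field N] [NumberField N] [Field L] [NumberField L] [Field M]
      [NumberField M] [Algebra N L] [Algebra F₀ L] [Algebra L M] [Algebra F₀ M]
      [IsScalarTower F₀ L M] [IsGalois F₀ M], finrank F₀ M = ℓ ^ m →
      ∀ (W : WeierstrassCurve N) (D : N), D ≠ 0 →
      (∃ C : VariableChange N, C • W = cv (a' * D ^ 2) (b' * D ^ 3)) →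
      (∃ C : VariableChange L, C • (cv (a' * D ^ 2) (b' * D ^ 3)).baseChange L =
        cv ((a' * D₀ ^ 2 : ℤ) : L) ((b' * D₀ ^ 3 : ℤ) : L)) →
      Q N (cv (a * D ^ 2) (b * D ^ 3)) → Q' N W)
    (H : TowW ℓ T (a * D₀ ^ 2) (b * D₀ ^ 3) d F₀ Q) :
    TowW ℓ T (a' * D₀ ^ 2) (b' * D₀ ^ 3) d F₀ Q' := by
  intro m N L' M _ _ _ _ _ _ _ _ _ _ _ _ hM hR W C hC
  have hDL : (D₀ : L') ≠ 0 := by exact_mod_cast hD₀
  have hC' : C • W.baseChange L' = cv ((a' : L') * (D₀ : L') ^ 2) ((b' : L') * (D₀ : L') ^ 3) := by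
    rw [hC]
    push_cast
    rfl
  obtain ⟨D, hD, ⟨C₁, hC₁⟩, -, C₂, hC₂⟩ := h.cls W C (D₀ : L') hDL hC'
  refine hQ m N L' M hM W D hD ⟨C₁, hC₁⟩ ?_ (H m N L' M hM (h.ramW D₀ hR) _ C₂ ?_)
  · refine ⟨C * (C₁.map (algebraMap N L'))⁻¹, ?_⟩
    have e : (cv ((a' : N) * D ^ 2) (b' * D ^ 3)).baseChange L' =
        C₁.map (algebraMap N L') • W.baseChange L' := by
      rw [← hC₁]
      exact (bc_change W (C₁ • W) C₁ rfl L').symm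
    rw [e, mul_smul, inv_smul_smul]
    exact hC
  · rw [hC₂]
    push_cast
    rfl

/-- the conclusion for the two questions -/
theorem four_con [Pool.Agent.Lib.MP_1a91b9_nuT.CD] (h : Four a' b' a b n j' j d) (D₀ : ℤ)
    (hD₀ : D₀ ≠ 0) {ℓ : ℕ} (hℓ : ℓ.Prime)
    (hg6 : ¬ (ℓ : ℤ) ∣ 6 * (4 * (a' * D₀ ^ 2) ^ 3 + 27 * (b' * D₀ ^ 3) ^ 2))
    {F₀ : Type} [Field F₀] [NumberField F₀] (hgd : ¬ (ℓ : ℤ) ∣ discr F₀)
    (H : TowW ℓ ∅ (a * D₀ ^ 2) (b * D₀ ^ 3) d F₀ (fun N _ _ W => Con1 N W ∧ Con2' ℓ N W)) :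
    TowW ℓ ∅ (a' * D₀ ^ 2) (b' * D₀ ^ 3) d F₀ (fun N _ _ W => Con1 N W ∧ Con2' ℓ N W) := by
  have h2 : ℓ ≠ 2 := by
    rintro rfl
    exact hg6 ⟨3 * (4 * (a' * D₀ ^ 2) ^ 3 + 27 * (b' * D₀ ^ 3) ^ 2), by push_cast; ring⟩
  have h3 : ℓ ≠ 3 := by
    rintro rfl
    exact hg6 ⟨2 * (4 * (a' * D₀ ^ 2) ^ 3 + 27 * (b' * D₀ ^ 3) ^ 2), by push_cast; ring⟩
  have h4 : ℓ ≠ 4 := by
    rintro rfl
    exact absurd hℓ (by decide)
  have h5 : 5 ≤ ℓ := by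
    have := hℓ.two_le
    omega
  refine four_tow h D₀ hD₀ ?_ H
  intro m N L M _ _ _ _ _ _ _ _ _ _ _ _ hM W D hD hW hW' hQ
  refine ⟨h.q1 N W D hD hW hQ.1, fun hf => ?_⟩
  obtain ⟨C₂, hC₂⟩ := hW'
  refine h.q2g h5 N W D hD hW (fun v hv => ?_) (hQ.2 hf)
  exact good_tower_w (M := M) hℓ h5 hM (not_mem_sq hℓ hgd) (h.jeq D) hg6 C₂ hC₂ v hv

end

end Pool.Agent.Lib.MP_1a91b9_nuE
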