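import Pool.Agent.Lib.MP_1a91b9_nuE.Good
import Pool.Agent.Lib.MP_1a91b9_nuE.PerB
import Pool.Agent.Lib.MP_1a91b9_nuE.Quot
import Pool.Agent.Lib.MP_1a91b9_nuE.Cnt
import Pool.Agent.Lib.MP_1a91b9_nuE.Mdl
import Pool.Agent.Lib.MP_1a91b9_nuE.CdS
import Pool.Agent.Lib.MP_1a91b9_nuX.TH.Gda
import Pool.Agent.Lib.MP_1a91b9_nuX.TG.Red

/-!
# The explicit conditions over the base field
-/

set_option autoImplicit false

namespace Pool.Agent.Lib.MP_1a91b9_nuE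

open NumberField IsDedekindDomain Module WeierstrassCurve Pool.Agent.Lib.MP_1a91b9_nuT
open Pool.Agent.Lib.MP_1a91b9_nt
open Pool.Agent.Lib.MP_1a91b9_nuX
open Pool.Agent.Lib.MP_1a91b9_nuX.DB Pool.Agent.Lib.MP_1a91b9_nuX.GL
open Pool.Agent.Lib.MP_1a91b9_nuG (up)
open Pool.Agent.Lib.MP_1a91b9_nuX.PG (Gd)
open Pool.Agent.Lib.MP_1a91b9_nuX.PH (Hv)
open Pool.Agent.Lib.MP_1a91b9_nuX.TG Pool.Agent.Lib.MP_1a91b9_nuX.TH
open Pool.Agent.Lib.MP_1a91b9_nuT.PL (Ab)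
open Pool.Agent.Lib.MP_1a91b9_nuT.Per (cv)
open Pool.Agent.Lib.MP_1a91b9_nuT.S9 (period)

/-- The conditions on the prime number `ℓ`; `e` is the degree of `F₀` over the field of complex
multiplication, `q` is the normalised value of the L-function. -/
structure Cnd (ℓ m : ℕ) (A₀ B₀ b : ℤ) (e : ℕ) (q : ℚ) (F₀ : Type) [Field F₀] [NumberField F₀] :
    Prop where
  prime : ℓ.Prime
  cop : ¬ (ℓ : ℤ) ∣ m * b
  sq : ∀ p : ℕ, p.Prime → (p : ℤ) ∣ m * b → ¬ ℓ ∣ p ^ 2 - 1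
  e2 : ¬ ℓ ∣ 2 ^ e - 1
  num : IsCoprime q.num (ℓ : ℤ)
  den : q.den.Coprime ℓ
  pts : ∀ v : HeightOneSpectrum (𝓞 F₀), ((m * b : ℤ) : 𝓞 F₀) ∈ v.asIdeal →
    ∀ (V : WeierstrassCurve (𝓞 F₀)) (C : VariableChange F₀),
      C • (⟨0, 0, 0, ((A₀ : ℤ) : F₀), ((B₀ : ℤ) : F₀)⟩ : WeierstrassCurve F₀) =
        V.map (algebraMap (𝓞 F₀) F₀) → V.Δ ∉ v.asIdeal →
      ¬ ℓ ∣ Nat.card (V.map (Ideal.Quotient.mk v.asIdeal)).toAffine.Point

section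
variable [Pool.Agent.Lib.MP_1a91b9_nuT.CD]

/-- transport of a point of order dividing `m` -/
theorem scale_torsm {A₀ B₀ k : ℤ} (hk : k ≠ 0) (hA : CD.A = k ^ 4 * A₀) (hB : CD.B = k ^ 6 * B₀)
    {L : Type*} [Field L] [Algebra K L] [DecidableEq L] (x y : L)
    (hxy : (⟨0, 0, 0, ((A₀ : ℤ) : L), ((B₀ : ℤ) : L)⟩ :
      WeierstrassCurve L).toAffine.Nonsingular x y) {m : ℕ}
    (ht : m • Affine.Point.some x y hxy = 0) :
    ∃ T : Pt L, m • T = 0 ∧ xc T = (k : L) ^ 2 * x ∧ yc T = (k : L) ^ 3 * y := by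
  have hcz : CharZero L := charZero_of_injective_algebraMap (algebraMap K L).injective
  have hk' : ((k : ℤ) : L) ≠ 0 := Int.cast_ne_zero.2 hk
  obtain ⟨C, hC, hu, hr, hs, htt⟩ := scale_field hk hA hB L
  obtain ⟨e, he⟩ := exists_point_equiv
    (⟨0, 0, 0, ((A₀ : ℤ) : L), ((B₀ : ℤ) : L)⟩ : WeierstrassCurve L) C
  have heq : ((k : L) ^ 3 * y) ^ 2 = ((k : L) ^ 2 * x) ^ 3 + cA L * ((k : L) ^ 2 * x) + cB L := by
    have h4 := hxy.1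
    rw [Affine.equation_iff] at h4
    have h5 : y ^ 2 = x ^ 3 + ((A₀ : ℤ) : L) * x + ((B₀ : ℤ) : L) := by simpa using h4
    have e4 : cA L = ((k : ℤ) : L) ^ 4 * ((A₀ : ℤ) : L) := by
      change ((CD.A : ℤ) : L) = _
      rw [hA]
      push_cast
      ring
    have e6 : cB L = ((k : ℤ) : L) ^ 6 * ((B₀ : ℤ) : L) := by
      change ((CD.B : ℤ) : L) = _
      rw [hB]
      push_cast
      ring
    rw [e4, e6]
    linear_combination (k : L) ^ 6 * h5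
  have hE : C • (⟨0, 0, 0, ((A₀ : ℤ) : L), ((B₀ : ℤ) : L)⟩ : WeierstrassCurve L) =
      (E K).baseChange L := by
    rw [hC]
    exact (E_map (algebraMap K L)).symm
  have hns : (C • (⟨0, 0, 0, ((A₀ : ℤ) : L), ((B₀ : ℤ) : L)⟩ :
      WeierstrassCurve L)).toAffine.Nonsingular ((k : L) ^ 2 * x) ((k : L) ^ 3 * y) := by
    rw [hE]
    exact (nons_iff _ _).2 heq
  obtain ⟨h', h2⟩ := he _ _ hns
  have h3 : e (Affine.Point.some _ _ hns) = Affine.Point.some x y hxy := by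
    rw [h2, Affine.Point.some.injEq]
    rw [hr, hs, htt, hu]
    constructor
    · field_simp
      ring
    · field_simp
      ring
  have h4 : m • Affine.Point.some _ _ hns = 0 := by
    apply e.injective
    rw [map_nsmul, h3, ht, map_zero]
  exact ⟨mkPt _ _ heq, nsmul_transport hE _ _ hns ((nons_iff _ _).2 heq) h4, rfl, rfl⟩

/-- a place which divides `m CD.bad` divides `m b` -/
theorem mem_mb {m : ℕ} {b : ℤ} (hbad : BadP CD.bad b) {F : Type*} [Field F] [NumberField F]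
    (v : HeightOneSpectrum (𝓞 F)) (h : ((m * CD.bad : ℤ) : 𝓞 F) ∈ v.asIdeal) :
    ((m * b : ℤ) : 𝓞 F) ∈ v.asIdeal := by
  obtain ⟨p, hp, hpm, hpd⟩ := exists_char v
  have h1 := hpd _ h
  have h2 : (p : ℤ) ∣ m * b := by
    rcases (Nat.prime_iff_prime_int.1 hp).dvd_mul.1 h1 with h3 | h3
    · exact h3.mul_right _
    · exact (hbad p hp h3).mul_left _
  obtain ⟨c, hc⟩ := h2
  rw [hc]
  push_cast
  exact v.asIdeal.mul_mem_right _ hpm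

theorem dvd_mb {m : ℕ} {b : ℤ} (hbad : BadP CD.bad b) {p : ℕ} (hp : p.Prime)
    (h : (p : ℤ) ∣ m * CD.bad) : (p : ℤ) ∣ m * b := by
  rcases (Nat.prime_iff_prime_int.1 hp).dvd_mul.1 h with h3 | h3
  · exact h3.mul_right _
  · exact (hbad p hp h3).mul_left _

variable [HC]

/-- the number of points -/
theorem cnd_na (hE : EllK) {A₀ B₀ k : ℤ} (hk : k ≠ 0) (hA : CD.A = k ^ 4 * A₀)
    (hB : CD.B = k ^ 6 * B₀) {ℓ m : ℕ} {b : ℤ} {e : ℕ} {q : ℚ} {F₀ : Type} [Field F₀]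
    [NumberField F₀] [Algebra K F₀] (h : Cnd ℓ m A₀ B₀ b e q F₀) (hbad : BadP CD.bad b)
    (v : HeightOneSpectrum (𝓞 F₀)) (hv : ((m * CD.bad : ℤ) : 𝓞 F₀) ∈ v.asIdeal)
    (hg : Gd (E F₀) v) : IsCoprime (Hv (E F₀) v - 1) (ℓ : 𝓞 K) := by
  obtain ⟨V, C, hC, hΔ⟩ := exists_model hg
  obtain ⟨C₀, hC₀⟩ := scale_curve hk hA hB (F := F₀)
    (W := ⟨0, 0, 0, ((A₀ : ℤ) : F₀), ((B₀ : ℤ) : F₀)⟩) (C := 1) (one_smul _ _)
  refine cop_of_model hE h.prime v V C hC hΔ ?_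
  exact h.pts v (mem_mb hbad v hv) V (C * C₀) (by rw [mul_smul, hC₀, hC]) hΔ

omit [HC] in
/-- the curve has good reduction above `ℓ` -/
theorem gda_ell {A₀ B₀ k : ℤ} (hA : CD.A = k ^ 4 * A₀) (hB : CD.B = k ^ 6 * B₀)
    {ℓ : ℕ} (hℓ : ℓ.Prime) (hD : ¬ (ℓ : ℤ) ∣ CD.bad) {N : Type} [Field N] [NumberField N]
    (v : HeightOneSpectrum (𝓞 N)) (hv : (ℓ : 𝓞 N) ∈ v.asIdeal) :
    QW.GdA ((A₀ : ℤ) : N) ((B₀ : ℤ) : N) v := by
  have hp : Prime (ℓ : ℤ) := Nat.prime_iff_prime_int.1 hℓ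
  have hcast : ∀ a : ℤ, algebraMap (𝓞 N) N ((a : ℤ) : 𝓞 N) = ((a : ℤ) : N) := fun a =>
    map_intCast _ _
  have hle : ∀ a : ℤ, v.valuation N ((a : ℤ) : N) ≤ 1 := by
    intro a
    rw [← hcast a]
    exact v.valuation_le_one (K := N) ((a : ℤ) : 𝓞 N)
  have hnd : ¬ (ℓ : ℤ) ∣ -(16 * (4 * A₀ ^ 3 + 27 * B₀ ^ 2)) := by
    intro h
    have h6 : (ℓ : ℤ) ∣ 6 * (4 * CD.A ^ 3 + 27 * CD.B ^ 2) := by
      rcases hp.dvd_mul.1 ((dvd_neg).1 h) with h1 | h1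
      · have h3 : (ℓ : ℤ) ∣ 2 := by
          have h4 : (ℓ : ℤ) ∣ 2 ^ 4 := by
            rw [show (2 : ℤ) ^ 4 = 16 by norm_num]
            exact h1
          exact hp.dvd_of_dvd_pow h4
        exact (h3.trans ⟨3, by norm_num⟩).mul_right _
      · have e : 6 * (4 * CD.A ^ 3 + 27 * CD.B ^ 2) =
            6 * k ^ 12 * (4 * A₀ ^ 3 + 27 * B₀ ^ 2) := by
          rw [hA, hB]
          ring
        rw [e]
        exact h1.mul_left _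
    exact hD (((h6.mul_right _).mul_right _).trans CD.bad_dvd)
  have h1 : v.valuation N ((-(16 * (4 * A₀ ^ 3 + 27 * B₀ ^ 2)) : ℤ) : N) = 1 := by
    have h2 : ((-(16 * (4 * A₀ ^ 3 + 27 * B₀ ^ 2)) : ℤ) : 𝓞 N) ∉ v.asIdeal := by
      refine not_mem_int v ((hp.coprime_iff_not_dvd).2 hnd) ?_
      rw [Int.cast_natCast]
      exact hv
    have h3 := (v.valuation_lt_one_iff_mem (K := N) _).not.2 h2
    refine le_antisymm (hle _) (not_lt.1 ?_)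
    rw [← hcast]
    exact h3
  refine gdA_of_gd (W := ⟨0, 0, 0, ((A₀ : ℤ) : N), ((B₀ : ℤ) : N)⟩) (D := 1) (one_smul _ _)
    ⟨1, ?_⟩
  rw [one_smul]
  have h0 : v.valuation N (0 : N) ≤ 1 := by
    rw [map_zero]
    exact zero_le_one
  refine { a1 := h0, a2 := h0, a3 := h0, a4 := hle A₀, a6 := hle B₀, disc := ?_ }
  have e : (⟨0, 0, 0, ((A₀ : ℤ) : N), ((B₀ : ℤ) : N)⟩ : WeierstrassCurve N).Δ =
      ((-(16 * (4 * A₀ ^ 3 + 27 * B₀ ^ 2)) : ℤ) : N) := by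
    simp only [WeierstrassCurve.Δ, WeierstrassCurve.b₂, WeierstrassCurve.b₄, WeierstrassCurve.b₆,
      WeierstrassCurve.b₈]
    push_cast
    ring
  rw [e]
  exact h1

omit [HC] in
/-- the scaling factors -/
theorem twC_int {A₀ B₀ k : ℤ} (hk : k ≠ 0) (hA : CD.A = k ^ 4 * A₀) (hB : CD.B = k ^ 6 * B₀)
    (N : Type) [Field N] : QW.TwC ((A₀ : ℤ) : N) ((B₀ : ℤ) : N) := by
  intro φ
  have hk' : ((k : ℤ) : ℂ) ≠ 0 := Int.cast_ne_zero.2 hk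
  refine ⟨((k : ℤ) : ℂ)⁻¹, inv_ne_zero hk', ?_, ?_⟩
  · rw [map_intCast, hA]
    push_cast
    field_simp
  · rw [map_intCast, hB]
    push_cast
    field_simp

/-- **The explicit conditions over the base field.** -/
theorem expl_of (hE : EllK) {A₀ B₀ k b : ℤ} (hk : k ≠ 0) (hA : CD.A = k ^ 4 * A₀)
    (hB : CD.B = k ^ 6 * B₀) (hbad : BadP CD.bad b) {N₀ F₀ L₀ : Type} [Field N₀] [NumberField N₀]
    [Field F₀] [NumberField F₀] [Algebra K F₀] [Algebra N₀ F₀] [Field L₀] [NumberField L₀]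
    [Algebra K L₀] [Algebra F₀ L₀] [IsScalarTower K F₀ L₀] [DecidableEq L₀] [IsGalois K L₀]
    (hN : IntermediateField.adjoin N₀ (Set.range (algebraMap K F₀)) = ⊤)
    {m : ℕ} {μ : 𝓞 K} {T : Pt L₀} (hJ : AbT μ K T) (hT : m • T = 0)
    {g : ℂ → ℂ} (hg : Differentiable ℂ g) (hgs : ∀ s : ℂ, 3 / 2 < s.re →
      g s = (⟨0, 0, 0, ((A₀ : ℤ) : N₀), ((B₀ : ℤ) : N₀)⟩ : WeierstrassCurve N₀).LSeries s)
    {q : ℚ} (hq : g 1 * ((√|(discr N₀ : ℝ)| : ℝ) : ℂ) / ((period (⟨0, 0, 0, ((A₀ : ℤ) : N₀),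
      ((B₀ : ℤ) : N₀)⟩ : WeierstrassCurve N₀) : ℝ) : ℂ) = ((q : ℚ) : ℂ)) {ℓ : ℕ}
    (h : Cnd ℓ m A₀ B₀ b (finrank K F₀) q F₀) : Expl ℓ m F₀ ∧ ¬ (ℓ : ℤ) ∣ discr F₀ := by
  have hℓ := h.prime
  have hcop : ¬ (ℓ : ℤ) ∣ m * CD.bad := fun hd => h.cop (dvd_mb hbad hℓ hd)
  have hD : ¬ (ℓ : ℤ) ∣ CD.bad := fun hd => hcop (hd.mul_left _)
  have hμm : μ ∣ (m : 𝓞 K) := by
    rw [← hJ.ord, sm_nat, hT]
  have hmu : ¬ ℓ ∣ nAb μ := by
    intro hd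
    have h1 : nAb μ ∣ m ^ 2 := by
      rw [← absNorm_natK]
      exact Ideal.absNorm_dvd_absNorm_of_le (Ideal.span_singleton_le_span_singleton.2 hμm)
    exact hcop ((Int.natCast_dvd_natCast.2 (hℓ.dvd_of_dvd_pow (hd.trans h1))).mul_right _)
  have hunr : DS.UnrL ℓ F₀ := unr_ab hJ hℓ hD hmu
  have hna := fun v hv hgv => cnd_na hE hk hA hB h hbad v hv hgv
  have hfv : ∀ v : HeightOneSpectrum (𝓞 F₀), up HC.f F₀ ∈ v.asIdeal →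
      ((m * CD.bad : ℤ) : 𝓞 F₀) ∈ v.asIdeal := by
    intro v hv
    have h1 : algebraMap (𝓞 K) (𝓞 F₀) ((CD.bad : ℤ) : 𝓞 K) ∈ v.asIdeal :=
      HC.hd.good (v.under (𝓞 K)) hv
    rw [map_intCast] at h1
    push_cast
    exact v.asIdeal.mul_mem_left _ h1
  have heu : EuC ℓ F₀ := by
    refine ⟨hℓ, fun v hv hl => ?_, fun v hv hgv => hna v (hfv v hv) hgv⟩
    have h1 : IsCoprime (m * CD.bad : ℤ) (ℓ : ℤ) :=
      ((Nat.prime_iff_prime_int.1 hℓ).coprime_iff_not_dvd.2 hcop).symm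
    have h2 := not_mem_int v h1 (hfv v hv)
    rw [Int.cast_natCast] at h2
    exact h2 hl
  refine ⟨⟨hℓ, hcop, fun p hp hd => h.sq p hp (dvd_mb hbad hp hd), hna, h.e2, ?_⟩,
    PL.not_dvd_discr hℓ F₀ hunr⟩
  obtain ⟨C₀, hC₀⟩ := scale_curve hk hA hB (F := N₀)
    (W := ⟨0, 0, 0, ((A₀ : ℤ) : N₀), ((B₀ : ℤ) : N₀)⟩) (C := 1) (one_smul _ _)
  refine unitProp_base hE hN heu (f_coprime hℓ hD) (five_le hℓ hD) hunr h.e2
    (⟨0, 0, 0, ((A₀ : ℤ) : N₀), ((B₀ : ℤ) : N₀)⟩ : WeierstrassCurve N₀)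
    (C₀.map (algebraMap N₀ F₀)) (by
      rw [WeierstrassCurve.map_variableChange, hC₀, TG.E_map]) hg hgs fun A hAb => ?_
  exact val_quot (twC_int hk hA hB N₀) (W := ⟨0, 0, 0, ((A₀ : ℤ) : N₀), ((B₀ : ℤ) : N₀)⟩)
    (D := 1) (one_smul _ _) hℓ hD (fun v hv => gda_ell hA hB hℓ hD v hv)
    (PL.coprime_discr hℓ N₀ F₀ hunr) h.num h.den hq hAb

end

end Pool.Agent.Lib.MP_1a91b9_nuE
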