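import Pool.Agent.Lib.MP_1a91b9_nuE.Te
import Pool.Agent.Lib.MP_1a91b9_nuE.Cn
import Pool.Agent.Lib.MP_1a91b9_nuW.UG.Top

/-!
# The towers for one prime number with explicit conditions: the nine maximal orders
-/

set_option autoImplicit false

namespace Pool.Agent.Lib.MP_1a91b9_nuE

open NumberField IsDedekindDomain Module WeierstrassCurve Pool.Agent.Lib.MP_1a91b9_nuT
open Pool.Agent.Lib.MP_1a91b9_nuX
open Pool.Agent.Lib.MP_1a91b9_nuX.UF (jd jd_mem jd_disc jd_case jList)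
open Pool.Agent.Lib.MP_1a91b9_nuW.UG (TowG splt_of_sq)
open Pool.Agent.Lib.MP_1a91b9_nuW
open Pool.Agent.Lib.MP_1a91b9_nuT.S9 (period)

/-- The explicit bad number. -/
def bE (A B d : ℤ) : ℤ :=
  6 * (4 * A ^ 3 + 27 * B ^ 2) * d * (if d ≤ -19 then (1 - d) / 4 else 1)

theorem badP_bE {J d tr nm A B b : ℤ} (hJ : (J, d) ∈ jd) (h2 : (J, tr, nm) ∈ jList)
    (hb : BadP b (6 * (4 * A ^ 3 + 27 * B ^ 2) * nm * (tr ^ 2 - 4 * nm))) : BadP b (bE A B d) := by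
  intro p hp hd
  have hd' := jd_disc hJ h2
  have h3 := hb p hp hd
  have hpp := Nat.prime_iff_prime_int.1 hp
  rw [← hd'] at h3
  unfold bE
  rcases hpp.dvd_mul.1 h3 with h4 | h4
  · rcases hpp.dvd_mul.1 h4 with h5 | h5
    · exact (h5.mul_right _).mul_right _
    · have h6 : nm ∣ 6 ∨ (d ≤ -19 ∧ nm = (1 - d) / 4) := by
        simp only [jList, List.mem_cons, Prod.mk.injEq, List.not_mem_nil, or_false] at h2
        rcases h2 with ⟨-, rfl, rfl⟩ | ⟨-, rfl, rfl⟩ | ⟨-, rfl, rfl⟩ | ⟨-, rfl, rfl⟩ |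
          ⟨-, rfl, rfl⟩ | ⟨-, rfl, rfl⟩ | ⟨-, rfl, rfl⟩ | ⟨-, rfl, rfl⟩ | ⟨-, rfl, rfl⟩ <;>
          subst hd' <;> norm_num
      rcases h6 with h6 | ⟨h6, h7⟩
      · exact (((h5.trans h6).mul_right _).mul_right _).mul_right _
      · rw [if_pos h6, ← h7]
        exact h5.mul_left _
  · exact (h4.mul_left _).mul_right _

/-- **The towers for one prime number, the nine maximal orders.** -/
theorem towG_of (K₀ N₀ F₀ L₀ : Type) [Field K₀] [NumberField K₀] [Field N₀] [NumberField N₀]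
    [Field F₀] [NumberField F₀] [Field L₀] [NumberField L₀] [DecidableEq L₀] [Algebra K₀ F₀]
    [Algebra N₀ F₀] [Algebra K₀ L₀] [Algebra F₀ L₀] [IsScalarTower K₀ F₀ L₀]
    (hK : finrank ℚ K₀ = 2) {J d A B : ℤ} (hJd : (J, d) ∈ jd)
    (hd : ∃ w : K₀, w ^ 2 = ((d : ℤ) : K₀)) (hAB : 4 * A ^ 3 + 27 * B ^ 2 ≠ 0)
    (hj : 6912 * A ^ 3 = J * (4 * A ^ 3 + 27 * B ^ 2))
    (hN : IntermediateField.adjoin N₀ (Set.range (algebraMap K₀ F₀)) = ⊤) (x y : L₀)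
    (hxy : (⟨0, 0, 0, ((A : ℤ) : L₀), ((B : ℤ) : L₀)⟩ :
      WeierstrassCurve L₀).toAffine.Nonsingular x y) {m : ℕ} (hm : m ≠ 0)
    (ht : m • Affine.Point.some x y hxy = 0)
    (hL₀ : IntermediateField.adjoin K₀ {x, y} = ⊤)
    {g : ℂ → ℂ} (hg : Differentiable ℂ g) (hgs : ∀ s : ℂ, 3 / 2 < s.re →
      g s = (⟨0, 0, 0, ((A : ℤ) : N₀), ((B : ℤ) : N₀)⟩ : WeierstrassCurve N₀).LSeries s)
    {q : ℚ} (hq : g 1 * ((√|(discr N₀ : ℝ)| : ℝ) : ℂ) / ((period (⟨0, 0, 0, ((A : ℤ) : N₀),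
      ((B : ℤ) : N₀)⟩ : WeierstrassCurve N₀) : ℝ) : ℂ) = ((q : ℚ) : ℂ)) {ℓ : ℕ}
    (h : Cnd ℓ m A B (bE A B d) (finrank K₀ F₀) q F₀) :
    TowG ℓ A B d (6 * (4 * A ^ 3 + 27 * B ^ 2)) F₀ ∧ ¬ (ℓ : ℤ) ∣ discr F₀ := by
  have hJ : J ∈ UF.jList.map Prod.fst := jd_mem hJd
  obtain ⟨tr, nm, -, hg', hmem, u, hu, cd, -, hA, hB, hdvd, hbad, -, -, htr, hnm⟩ :=
    exists_cdE hAB hj hJ
  subst htr
  subst hnm
  have hdd : d = CD.tr ^ 2 - 4 * CD.nm := jd_disc hJd hmem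
  have hcase := jd_case hmem
  have hE := HW.ellK_all hcase
  obtain ⟨f, p, hp⟩ := HW.hdat_all hcase
  let iH : HC := ⟨f, p, hp⟩
  obtain ⟨w, hw⟩ := hd
  have hw' : ((w + (CD.tr : K₀)) / 2) ^ 2 =
      (CD.tr : K₀) * ((w + (CD.tr : K₀)) / 2) - (CD.nm : K₀) := by
    rw [hdd] at hw
    push_cast at hw
    linear_combination hw / 4
  have hbE : BadP CD.bad (bE A B d) := badP_bE hJd hmem hbad
  obtain ⟨hS, hnd⟩ := towZ_of hE (fun ℓ hℓ hb => TH.stw_all hℓ hb) K₀ N₀ F₀ L₀ hK hw' (k := u) hu hA hB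
    hbE (((Dvd.intro _ rfl).trans (Dvd.intro _ rfl)).trans hdvd) hN x y hxy hm ht hL₀ hg hgs hq h
  have hb : ¬ (ℓ : ℤ) ∣ CD.bad := fun h1 => h.cop (dvd_mb hbE h.prime (h1.mul_left _))
  refine ⟨?_, hnd⟩
  intro n N L M _ _ _ _ _ _ _ _ _ _ _ _ hM hR W C hC
  refine hS n N L M hM (fun v w hvw => ⟨fun hv => ?_, (hR v w hvw).2⟩) W C hC
  refine splt_of_sq h.prime hb ?_
  have h1 := (hR v w hvw).1 hv
  rwa [hdd] at h1

end Pool.Agent.Lib.MP_1a91b9_nuE
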