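import Pool.Agent.Lib.MP_1a91b9_nuE.Sb

/-!
# Towers over abelian fields with explicit conditions on the prime number: the final theorem
-/

set_option autoImplicit false

namespace Pool.Agent.Lib.MP_1a91b9_nuE

open NumberField IsDedekindDomain Module WeierstrassCurve
open Pool.Agent.Lib.MP_1a91b9_nuI
open Pool.Agent.Lib.MP_1a91b9_nuT.S9 (period tam)
open Pool.Agent.Lib.MP_1a91b9_nuT3.S9 (ShaP FormulaQ)

/-- the conditions in plain terms -/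
theorem cnd_mk {ℓ m : ℕ} (hℓ : ℓ.Prime) {A B b : ℤ} {e : ℕ} {q : ℚ} {F₀ : Type} [Field F₀]
    [NumberField F₀]
    (h : ¬ (ℓ : ℤ) ∣ m * b ∧ (∀ p : ℕ, p.Prime → (p : ℤ) ∣ m * b → ¬ ℓ ∣ p ^ 2 - 1) ∧
      ¬ ℓ ∣ 2 ^ e - 1 ∧ ¬ (ℓ : ℤ) ∣ q.num ∧ ¬ ℓ ∣ q.den ∧
      ∀ v : HeightOneSpectrum (𝓞 F₀), ((m * b : ℤ) : 𝓞 F₀) ∈ v.asIdeal →
      ∀ (V : WeierstrassCurve (𝓞 F₀)) (D : VariableChange F₀),
        D • (⟨0, 0, 0, ((A : ℤ) : F₀), ((B : ℤ) : F₀)⟩ : WeierstrassCurve F₀) =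
          V.map (algebraMap (𝓞 F₀) F₀) → V.Δ ∉ v.asIdeal →
        ¬ ℓ ∣ Nat.card (V.map (Ideal.Quotient.mk v.asIdeal)).toAffine.Point) :
    Cnd ℓ m A B b e q F₀ := by
  obtain ⟨h1, h2, h3, h4, h5, h6⟩ := h
  exact ⟨hℓ, h1, h2, h3, ((Nat.prime_iff_prime_int.1 hℓ).coprime_iff_not_dvd.2 h4).symm,
    ((Nat.Prime.coprime_iff_not_dvd hℓ).2 h5).symm, h6⟩

/-- the two curves without hypothesis on the L-function -/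
def Spc (A B : ℤ) : Prop := (A = 0 ∧ B = 16) ∨ (A = -480 ∧ B = 4048)

theorem spc_J {A B J d : ℤ} (hj : 6912 * A ^ 3 = J * (4 * A ^ 3 + 27 * B ^ 2))
    (hJ : (J, d) ∈ thirteen) (hs : Spc A B) : d = -3 := by
  rcases hs with ⟨rfl, rfl⟩ | ⟨rfl, rfl⟩
  · have h : J = 0 := by omega
    subst h
    simp only [thirteen, List.mem_cons, Prod.mk.injEq, List.not_mem_nil, or_false] at hJ
    omega
  · have h : J = -12288000 := by omega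
    subst h
    simp only [thirteen, List.mem_cons, Prod.mk.injEq, List.not_mem_nil, or_false] at hJ
    omega

/-- the two curves over `ℚ(√-3)`, with ramification above the prime numbers which split -/
theorem spec5 (K N₀ F₀ : Type) [Field K] [NumberField K] [Field N₀] [NumberField N₀] [Field F₀]
    [NumberField F₀] [Algebra K F₀] [Algebra N₀ F₀] (hK : finrank ℚ K = 2)
    (hd : ∃ w : K, w ^ 2 = ((-3 : ℤ) : K)) (h1 : finrank K F₀ = 1)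
    (hN : IntermediateField.adjoin N₀ (Set.range (algebraMap K F₀)) = ⊤) {ℓ : ℕ}
    (hℓ : ℓ.Prime) (h5 : 5 ≤ ℓ) {A B : ℤ} (hs : Spc A B) :
    TowW ℓ ∅ A B (-3) F₀ (fun N _ _ W => Con1 N W ∧ Con2' ℓ N W) := by
  obtain ⟨H, hnd⟩ := spec16 K N₀ F₀ hK hd h1 hN hℓ h5
  rcases hs with ⟨rfl, rfl⟩ | ⟨rfl, rfl⟩
  · exact H
  obtain ⟨_, _, _, _, _, _, cd, _⟩ := Pool.Agent.Lib.MP_1a91b9_nuX.UF.exists_cd (A := 0) (B := 1)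
    (J := 0) (by norm_num) (by norm_num) (by simp [Pool.Agent.Lib.MP_1a91b9_nuX.UF.jList]) 1
    one_ne_zero
  have F : Four (-120) 506 0 2 3 (-12288000) 0 (-3) :=
    Or.inr (Or.inr (Or.inr ⟨rfl, rfl, rfl, rfl, rfl, rfl, rfl, rfl⟩))
  have hp : Prime (ℓ : ℤ) := Nat.prime_iff_prime_int.1 hℓ
  have h6 : ¬ (ℓ : ℤ) ∣ 6 * (4 * (-120 * 2 ^ 2) ^ 3 + 27 * (506 * 2 ^ 3) ^ 2) := by
    intro h
    have e : (6 : ℤ) * (4 * (-120 * 2 ^ 2) ^ 3 + 27 * (506 * 2 ^ 3) ^ 2) =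
        ((2 ^ 9 * 3 ^ 6 : ℕ) : ℤ) := by norm_num
    rw [e, Int.natCast_dvd_natCast] at h
    rcases hℓ.dvd_mul.1 h with h2 | h2
    · have := Nat.le_of_dvd (by norm_num) (hℓ.dvd_of_dvd_pow h2)
      omega
    · have := Nat.le_of_dvd (by norm_num) (hℓ.dvd_of_dvd_pow h2)
      omega
  have h7 := four_con F 2 two_ne_zero hℓ h6 hnd (by
    have e1 : (0 : ℤ) * 2 ^ 2 = 0 := by norm_num
    have e2 : (2 : ℤ) * 2 ^ 3 = 16 := by norm_num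
    rw [e1, e2]
    exact H)
  have e1 : (-120 : ℤ) * 2 ^ 2 = -480 := by norm_num
  have e2 : (506 : ℤ) * 2 ^ 3 = 4048 := by norm_num
  rw [e1, e2] at h7
  exact h7

section
variable {J d A B : ℤ} (hJ : (J, d) ∈ thirteen) (K N₀ F₀ : Type) [Field K]
    [NumberField K] [Field N₀] [NumberField N₀] [Field F₀] [NumberField F₀]
    [Algebra K F₀] [Algebra N₀ F₀] (hK : finrank ℚ K = 2)
    (hd : ∃ w : K, w ^ 2 = (d : K))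
    (hj : 6912 * A ^ 3 = J * (4 * A ^ 3 + 27 * B ^ 2))
    (hN : IntermediateField.adjoin N₀ (Set.range (algebraMap K F₀)) = ⊤)

include hJ hK hd hj hN

/-- the two curves over `ℚ(√-3)`, for a conclusion `Q` -/
theorem specW (Q : ∀ (N : Type) [Field N] [NumberField N], WeierstrassCurve N → Prop) {ℓ : ℕ}
    (hQ : ∀ (N : Type) [Field N] [NumberField N] (W : WeierstrassCurve N),
      Con1 N W ∧ Con2' ℓ N W → Q N W) (hs : Spc A B) (h1 : finrank K F₀ = 1) (hℓ : ℓ.Prime)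
    (h3 : ℓ ≠ 3) (H : TowV ℓ A B F₀ Q) : TowW ℓ ∅ A B d F₀ Q := by
  intro n N L M _ _ _ _ _ _ _ _ _ _ _ _ hM hR W C hC
  by_cases h : ∃ (v : HeightOneSpectrum (𝓞 F₀)) (w : HeightOneSpectrum (𝓞 L)),
      v.asIdeal.map (algebraMap (𝓞 F₀) (𝓞 L)) ≤ w.asIdeal ^ 2 ∧ (ℓ : 𝓞 F₀) ∈ v.asIdeal
  · obtain ⟨v, w, hvw, hv⟩ := h
    have h2 : ℓ ≠ 2 := ((hR v w hvw).1 hv).2.1
    have h4 : ℓ ≠ 4 := by
      rintro rfl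
      exact absurd hℓ (by decide)
    have h5 : 5 ≤ ℓ := by
      have := hℓ.two_le
      omega
    have hd3 := spc_J hj hJ hs
    subst hd3
    exact hQ N W (spec5 K N₀ F₀ hK hd h1 hN hℓ h5 hs n N L M hM hR W C hC)
  · exact H n N L M hM (fun v w hvw => ⟨fun hv => h ⟨v, w, hvw, hv⟩, (hR v w hvw).2⟩) W C hC

end

section
variable {J d A B : ℤ} (hJ : (J, d) ∈ thirteen) (K N₀ F₀ L₀ : Type) [Field K]
    [NumberField K] [Field N₀] [NumberField N₀] [Field F₀] [NumberField F₀] [Field L₀]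
    [NumberField L₀] [DecidableEq L₀] [Algebra K F₀] [Algebra N₀ F₀] [Algebra K L₀]
    [Algebra F₀ L₀] [IsScalarTower K F₀ L₀] (hK : finrank ℚ K = 2)
    (hd : ∃ w : K, w ^ 2 = (d : K)) (hAB : 4 * A ^ 3 + 27 * B ^ 2 ≠ 0)
    (hj : 6912 * A ^ 3 = J * (4 * A ^ 3 + 27 * B ^ 2))
    (hN : IntermediateField.adjoin N₀ (Set.range (algebraMap K F₀)) = ⊤) (x y : L₀)
    (hxy : (⟨0, 0, 0, ((A : ℤ) : L₀), ((B : ℤ) : L₀)⟩ :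
      WeierstrassCurve L₀).toAffine.Nonsingular x y) {m : ℕ} (hm : m ≠ 0)
    (ht : m • Affine.Point.some x y hxy = 0)
    (hL₀ : IntermediateField.adjoin K {x, y} = ⊤)

include hJ hK hd hAB hj hN hm ht hL₀

/-- the data over the base field -/
theorem base_F (hg : ¬ (Spc A B ∧ finrank K F₀ = 1) →
      Lne (⟨0, 0, 0, ((A : ℤ) : N₀), ((B : ℤ) : N₀)⟩ : WeierstrassCurve N₀)) :
    ∃ (g : ℂ → ℂ) (q : ℚ), Differentiable ℂ g ∧ (∀ s : ℂ, 3 / 2 < s.re →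
      g s = (⟨0, 0, 0, ((A : ℤ) : N₀), ((B : ℤ) : N₀)⟩ : WeierstrassCurve N₀).LSeries s) ∧
      q ≠ 0 ∧ g 1 * ((√|(discr N₀ : ℝ)| : ℝ) : ℂ) / ((period (⟨0, 0, 0, ((A : ℤ) : N₀),
        ((B : ℤ) : N₀)⟩ : WeierstrassCurve N₀) : ℝ) : ℂ) = ((q : ℚ) : ℂ) ∧
      ∀ ℓ : ℕ, Cnd ℓ m A B (bE A B d) (finrank K F₀) q F₀ →
        TowW ℓ ∅ A B d F₀ (fun N _ _ W => Con1 N W ∧ Con2' ℓ N W) := by
  have htor : Tor (⟨0, 0, 0, ((A : ℤ) : L₀), ((B : ℤ) : L₀)⟩ : WeierstrassCurve L₀) x y :=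
    ⟨hxy, isOfFinAddOrder_iff_nsmul_eq_zero.2 ⟨m, Nat.pos_of_ne_zero hm, ht⟩⟩
  obtain ⟨S₂, -, hS₂⟩ := topV1 A B J d hAB hj hJ K N₀ F₀ L₀ hK hd hN x y htor hL₀ hg
  obtain ⟨ℓ₀, hℓ₀, hℓ₀S⟩ : ∃ ℓ₀ : ℕ, ℓ₀.Prime ∧ ℓ₀ ∉ S₂ := by
    obtain ⟨p, hp1, hp2⟩ := Nat.exists_infinite_primes (S₂.sup id + 1)
    refine ⟨p, hp2, fun h => ?_⟩
    have := Finset.le_sup (f := id) h
    simp only [id] at this
    omega
  obtain ⟨g, hg, hgs, hg1⟩ : Lne (⟨0, 0, 0, ((A : ℤ) : N₀), ((B : ℤ) : N₀)⟩ :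
    WeierstrassCurve N₀) := lne_base (hS₂ ℓ₀ hℓ₀ hℓ₀S)
  obtain ⟨q, hq0, hq⟩ := exists_rat hJ K N₀ F₀ L₀ hK hd hAB hj hN x y hxy hm ht hL₀ hg hgs hg1
  exact ⟨g, q, hg, hgs, hq0, hq, fun ℓ hc =>
    topE hJ K N₀ F₀ L₀ hK hd hAB hj hN x y hxy hm ht hL₀ hg hgs hq hc⟩

/-- **The final theorem, first question.** -/
theorem topF1 (hg : ¬ (Spc A B ∧ finrank K F₀ = 1) →
      Lne (⟨0, 0, 0, ((A : ℤ) : N₀), ((B : ℤ) : N₀)⟩ : WeierstrassCurve N₀)) :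
    ∃ (g : ℂ → ℂ) (q : ℚ), Differentiable ℂ g ∧ (∀ s : ℂ, 3 / 2 < s.re →
      g s = (⟨0, 0, 0, ((A : ℤ) : N₀), ((B : ℤ) : N₀)⟩ : WeierstrassCurve N₀).LSeries s) ∧
      q ≠ 0 ∧ g 1 * ((√|(discr N₀ : ℝ)| : ℝ) : ℂ) / ((period (⟨0, 0, 0, ((A : ℤ) : N₀),
        ((B : ℤ) : N₀)⟩ : WeierstrassCurve N₀) : ℝ) : ℂ) = ((q : ℚ) : ℂ) ∧
      ∀ ℓ : ℕ, ℓ.Prime → ((Spc A B ∧ finrank K F₀ = 1 ∧ ℓ ≠ 3) ∨
          Cnd ℓ m A B (bE A B d) (finrank K F₀) q F₀) → TowW ℓ ∅ A B d F₀ Con1 := by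
  obtain ⟨g, q, h1, h2, h3, h4, h5⟩ := base_F hJ K N₀ F₀ L₀ hK hd hAB hj hN x y hxy hm ht hL₀ hg
  refine ⟨g, q, h1, h2, h3, h4, fun ℓ hℓ h => ?_⟩
  rcases h with ⟨hs, h1, hℓS⟩ | hc
  · have htor : Tor (⟨0, 0, 0, ((A : ℤ) : L₀), ((B : ℤ) : L₀)⟩ : WeierstrassCurve L₀) x y :=
      ⟨hxy, isOfFinAddOrder_iff_nsmul_eq_zero.2 ⟨m, Nat.pos_of_ne_zero hm, ht⟩⟩
    obtain ⟨S, hS1, hS2⟩ := topV1 A B J d hAB hj hJ K N₀ F₀ L₀ hK hd hN x y htor hL₀ hg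
    refine specW hJ K N₀ F₀ hK hd hj hN Con1 (fun _ _ _ _ h => h.1) hs h1 hℓ hℓS
      (hS2 ℓ hℓ ?_)
    rw [hS1 ⟨hs, h1⟩, Finset.mem_singleton]
    exact hℓS
  · intro n N L M _ _ _ _ _ _ _ _ _ _ _ _ hM hR W C hC
    exact (h5 ℓ hc n N L M hM hR W C hC).1

/-- **The final theorem, second question.** -/
theorem topF2 (hg : ¬ (Spc A B ∧ finrank K F₀ = 1) →
      Lne (⟨0, 0, 0, ((A : ℤ) : N₀), ((B : ℤ) : N₀)⟩ : WeierstrassCurve N₀)) :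
    ∃ (g : ℂ → ℂ) (q : ℚ), Differentiable ℂ g ∧ (∀ s : ℂ, 3 / 2 < s.re →
      g s = (⟨0, 0, 0, ((A : ℤ) : N₀), ((B : ℤ) : N₀)⟩ : WeierstrassCurve N₀).LSeries s) ∧
      q ≠ 0 ∧ g 1 * ((√|(discr N₀ : ℝ)| : ℝ) : ℂ) / ((period (⟨0, 0, 0, ((A : ℤ) : N₀),
        ((B : ℤ) : N₀)⟩ : WeierstrassCurve N₀) : ℝ) : ℂ) = ((q : ℚ) : ℂ) ∧
      ∀ ℓ : ℕ, ℓ.Prime → ((Spc A B ∧ finrank K F₀ = 1 ∧ ℓ ≠ 3 ∧ (ℓ = 2 → A = 0)) ∨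
          Cnd ℓ m A B (bE A B d) (finrank K F₀) q F₀) → TowW ℓ ∅ A B d F₀ (Con2' ℓ) := by
  obtain ⟨g, q, h1, h2, h3, h4, h5⟩ := base_F hJ K N₀ F₀ L₀ hK hd hAB hj hN x y hxy hm ht hL₀ hg
  refine ⟨g, q, h1, h2, h3, h4, fun ℓ hℓ h => ?_⟩
  rcases h with ⟨hs, h1, hℓS, hℓ2⟩ | hc
  · have htor : Tor (⟨0, 0, 0, ((A : ℤ) : L₀), ((B : ℤ) : L₀)⟩ : WeierstrassCurve L₀) x y :=
      ⟨hxy, isOfFinAddOrder_iff_nsmul_eq_zero.2 ⟨m, Nat.pos_of_ne_zero hm, ht⟩⟩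
    obtain ⟨S, hS1, hS2⟩ := topV2 A B J d hAB hj hJ K N₀ F₀ L₀ hK hd hN x y htor hL₀ hg
    refine specW hJ K N₀ F₀ hK hd hj hN (Con2' ℓ) (fun _ _ _ _ h => h.2) hs h1 hℓ hℓS
      (hS2 ℓ hℓ ?_)
    rw [hS1 ⟨hs, h1⟩]
    split_ifs with h0
    · rw [Finset.mem_singleton]
      exact hℓS
    · rw [Finset.mem_insert, Finset.mem_singleton, not_or]
      exact ⟨fun h => h0 (hℓ2 h), hℓS⟩
  · intro n N L M _ _ _ _ _ _ _ _ _ _ _ _ hM hR W C hC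
    exact (h5 ℓ hc n N L M hM hR W C hC).2

end

end Pool.Agent.Lib.MP_1a91b9_nuE
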