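import Pool.Agent.Lib.MP_1a91b9_nuX.TM.Rat
import Pool.Agent.Lib.MP_1a91b9_nuX.GM.Nos
import Pool.Agent.Lib.MP_1a91b9_nuX.PG.Defs

/-!
# A torsion point of order `ℓ ≥ 5` prime to `w` implies good reduction at `w`
-/

set_option autoImplicit false

namespace Pool.Agent.Lib.MP_1a91b9_nuE

open NumberField IsDedekindDomain WeierstrassCurve Pool.Agent.Lib.MP_1a91b9_nuX.GM
open Pool.Agent.Lib.MP_1a91b9_nuX.PG (Gd)

/-- **Good reduction from a torsion point**, for an integral invariant. -/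
theorem gd_of_tors {N : Type*} [Field N] [NumberField N] [DecidableEq N]
    {W : WeierstrassCurve N} (hW : W.Δ ≠ 0) (w : HeightOneSpectrum (𝓞 N))
    (hj : w.valuation N (W.c₄ ^ 3) ≤ w.valuation N W.Δ) {ℓ : ℕ} (hℓ : ℓ.Prime) (h5 : 5 ≤ ℓ)
    (hw : w.valuation N (ℓ : N) = 1) {P : W.toAffine.Point} (hP : P ≠ 0) (hlP : ℓ • P = 0) :
    Gd W w := by
  classical
  obtain ⟨R, hR⟩ := exists_val_ext (F' := AlgebraicClosure N) (w.valuation N)
  have hΔ : (W.map (algebraMap N (AlgebraicClosure N))).Δ = algebraMap _ _ W.Δ :=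
    WeierstrassCurve.map_Δ _ _
  have hjR : R.valuation ((W.map (algebraMap N (AlgebraicClosure N))).c₄ ^ 3) ≤
      R.valuation (W.map (algebraMap N (AlgebraicClosure N))).Δ := by
    have h0 : w.valuation N W.Δ ≠ 0 := (Valuation.ne_zero_iff _).2 hW
    have h1 : w.valuation N (W.c₄ ^ 3 / W.Δ) ≤ 1 := by
      rw [map_div₀]
      exact div_le_one_of_le₀ hj zero_le
    have h2 := (hR _).2 h1
    have h3 : (W.map (algebraMap N (AlgebraicClosure N))).c₄ ^ 3 =
        algebraMap N (AlgebraicClosure N) (W.c₄ ^ 3 / W.Δ) *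
          (W.map (algebraMap N (AlgebraicClosure N))).Δ := by
      rw [WeierstrassCurve.map_c₄, hΔ, ← map_pow, ← map_mul, div_mul_cancel₀ _ hW]
    rw [h3, map_mul]
    exact mul_le_of_le_one_left' h2
  obtain ⟨C, hC⟩ := exists_good (v := R.valuation) (F := AlgebraicClosure N) two_ne_zero
    three_ne_zero (W := W.map (algebraMap N (AlgebraicClosure N)))
    (by rw [hΔ]; exact (map_ne_zero _).2 hW) hjR
  obtain ⟨φ, hφi, hφx, hφy⟩ := exists_map W (AlgebraicClosure N)
  obtain ⟨e, he⟩ := exists_chg (W.map (algebraMap N (AlgebraicClosure N))) C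
  have hv : R.valuation ((ℓ : ℕ) : AlgebraicClosure N) = 1 := by
    have h1 := (val_ext_eq (w.valuation N) R.valuation hR (ℓ : N)).2 hw
    rwa [map_natCast] at h1
  have hk : ∀ m : ℕ, 0 < m → m < 5 → ¬ Kr R.valuation (e (φ (m • P))) := by
    intro m h0 h4 hK
    have h1 : ℓ • e (φ (m • P)) = 0 := by
      rw [← map_nsmul, ← map_nsmul, smul_comm, hlP, smul_zero, map_zero, map_zero]
    have h2 := tors_kr hC hK hv h1
    have h3 : m • P = 0 := hφi (e.injective (by rw [h2, map_zero, map_zero]))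
    have h6 : Nat.Coprime m ℓ :=
      ((Nat.Prime.coprime_iff_not_dvd hℓ).2 fun hd => absurd (Nat.le_of_dvd h0 hd) (by omega)).symm
    apply hP
    have h7 : addOrderOf P ∣ 1 := by
      rw [← Nat.Coprime.gcd_eq_one h6]
      exact Nat.dvd_gcd (addOrderOf_dvd_of_nsmul_eq_zero h3) (addOrderOf_dvd_of_nsmul_eq_zero hlP)
    exact AddMonoid.addOrderOf_eq_one_iff.1 (Nat.dvd_one.1 h7)
  refine Pool.Agent.Lib.MP_1a91b9_nuX.TM.desc_pt hR hC hφi hφx hφy he (P := P) ?_ ?_ ?_
  · have h1 := hk 1 (by norm_num) (by norm_num)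
    rwa [one_nsmul] at h1
  · have h1 := hk 2 (by norm_num) (by norm_num)
    rwa [two_nsmul] at h1
  · have h1 := hk 3 (by norm_num) (by norm_num)
    rwa [show (3 : ℕ) = 2 + 1 from rfl, succ_nsmul, two_nsmul] at h1

end Pool.Agent.Lib.MP_1a91b9_nuE
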