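import Pool.Agent.Lib.MP_1a91b9_nuX.DG.TrV

/-!
# The traces of the values `lamQ`: the auxiliary element congruent to `1`

`AB.trace_val` of MP_1a91b9_nuX with `pk` congruent to `1` modulo `μ`: the two translates agree and the
factor is explicit.
-/

set_option autoImplicit false

namespace Pool.Agent.Lib.MP_1a91b9_nuE

variable [Pool.Agent.Lib.MP_1a91b9_nuT.CD]

open NumberField IsDedekindDomain WeierstrassCurve Pool.Agent.Lib.MP_1a91b9_nuT
open Pool.Agent.Lib.MP_1a91b9_nuX
open Pool.Agent.Lib.MP_1a91b9_nuX.DB Pool.Agent.Lib.MP_1a91b9_nuX.DG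

noncomputable section

private theorem trv_congr {ν a b : 𝓞 K} (hν : ν ≠ 0) (h : ν ∣ a - b) :
    E1 (embK (a : K) / embK (ν : K)) = E1 (embK (b : K) / embK (ν : K)) := by
  obtain ⟨e, he⟩ := h
  have h1 : (a : K) = (b : K) + (ν : K) * (e : K) := by
    have h0 := congrArg (algebraMap (𝓞 K) K) he
    rw [map_sub, map_mul] at h0
    have h3 : (a : K) - (b : K) = (ν : K) * (e : K) := h0
    linear_combination h3
  have h2 : embK (a : K) / embK (ν : K) = embK (b : K) / embK (ν : K) + embK (e : K) := by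
    rw [h1, map_add, map_mul, add_div, mul_div_cancel_left₀ _ (Mult.embK_ne_zero hν)]
  rw [h2, E1_period]

private theorem trv_unit {ν : 𝓞 K} (η : (𝓞 K)ˣ) (a : 𝓞 K) :
    embK ((η : 𝓞 K) : K) * E1 (embK (((η : 𝓞 K) * a : 𝓞 K) : K) / embK (ν : K)) =
      E1 (embK (a : K) / embK (ν : K)) := by
  rw [emb_mul, mul_div_assoc, E1_unit]

private theorem trv_shift {μ : 𝓞 K} {H : Subgroup (CU μ)} [Fintype (U H)] {G : Type} [Group G]
    [DecidableEq G] (res : U H →* G)
    (f : U H → ℂ) (t : U H) (g : G) : ∑ u : U H, (if res u = g then f (u * t) else 0) =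
      ∑ u : U H, if res u = g * res t then f u else 0 := by
  refine Fintype.sum_equiv (Equiv.mulRight t) _ _ fun u => ?_
  show (if res u = g then f (u * t) else 0) = if res (u * t) = g * res t then f (u * t) else 0
  by_cases hu : res u = g
  · rw [if_pos hu, if_pos (by rw [map_mul, hu])]
  · rw [if_neg hu, if_neg fun h => hu (by
      rw [map_mul] at h
      exact mul_right_cancel h)]

variable [FP] [HC]

section
variable {μ : 𝓞 K} {H : Subgroup (CU μ)} {F L' : Type} [Field F] [NumberField F] [Algebra K F]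
  [Field L'] [NumberField L'] [Algebra K L'] [Algebra F L'] [IsScalarTower K F L']
  [DecidableEq L'] {J' : Pt L'} (hAB : AB H F L' J')
include hAB

/-- the traces of `lamQ` -/
theorem trace_val1 (hM : Md μ) (h1 : μ ∣ pk - 1) [Fintype (U H)] [DecidableEq Gal(F/K)]
    {res : U H →* Gal(F/K)}
    (hres : ∀ (σ : Gal(L'/K)) (u : U H), ga σ J' = smU J' u →
      ∀ x : F, algebraMap F L' (res u x) = σ (algebraMap F L' x)) (φ : L' →ₐ[K] ℂ) :
    ∃ (η : (𝓞 K)ˣ) (u0 : U H), ∀ g : Gal(F/K),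
      Om * φ (algebraMap F L' (g (Algebra.trace F L' (lamQ J')))) =
        2 * embK (μ : K) * (embK ((η : 𝓞 K) : K))⁻¹ * (embK ((pk : 𝓞 K) : K) -
          (Ideal.absNorm (Ideal.span {(pk : 𝓞 K)}) : ℂ)) *
            (∑ u : U H, if res u = g * res u0 then
              (embK (μ : K))⁻¹ * E1 (embK ((rp u : 𝓞 K) : K) / embK (μ : K)) else 0) := by
  have hpk : IsCoprime pk μ := by
    obtain ⟨b, hb⟩ := h1
    exact ⟨1, -b, by linear_combination hb⟩
  have hl : ¬ μ ∣ pk := fun h => hM.not_unit (hpk.symm.isUnit_of_dvd' dvd_rfl h)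
  obtain ⟨y0, hy0, hval⟩ := lam_val hM.ne hl hM.two φ hAB.ord
  obtain ⟨η, u0, hη⟩ := hAB.unit_mul hM hy0
  have hη0 : embK ((η : 𝓞 K) : K) ≠ 0 := Mult.embK_ne_zero η.ne_zero
  have hμ0 : embK (μ : K) ≠ 0 := Mult.embK_ne_zero hM.ne
  refine ⟨η, u0, fun g => ?_⟩
  rw [hAB.trace_res hres g, map_sum, Finset.mul_sum]
  have e1 : ∀ u : U H, Om * φ (haveI := Classical.dec (res u = g);
      if res u = g then lamQ (smU J' u) else 0) =
      2 * embK (μ : K) * (embK ((η : 𝓞 K) : K))⁻¹ * (embK ((pk : 𝓞 K) : K) -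
        (Ideal.absNorm (Ideal.span {(pk : 𝓞 K)}) : ℂ)) *
          (if res u = g then (embK (μ : K))⁻¹ *
            E1 (embK ((rp (u * u0) : 𝓞 K) : K) / embK (μ : K)) else 0) := by
    intro u
    by_cases hu : res u = g
    · rw [if_pos hu, if_pos hu]
      have e2 := hval (rp u) (rp_cop u)
      have e3 : μ ∣ rp u * y0 - (η : 𝓞 K) * rp (u * u0) := by
        have e4 : rp u * y0 - (η : 𝓞 K) * rp (u * u0) =
            rp u * (y0 - η * rp u0) - η * (rp (u * u0) - rp u * rp u0) := by ring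
        rw [e4]
        exact dvd_sub (Dvd.dvd.mul_left hη _) (Dvd.dvd.mul_left (rp_mul u u0) _)
      have e5 : E1 (embK ((rp u * y0 : 𝓞 K) : K) / embK (μ : K)) =
          (embK ((η : 𝓞 K) : K))⁻¹ * E1 (embK ((rp (u * u0) : 𝓞 K) : K) / embK (μ : K)) := by
        rw [trv_congr hM.ne e3, ← trv_unit η (rp (u * u0)), inv_mul_cancel_left₀ hη0]
      have e6 : E1 (embK ((pk * (rp u * y0) : 𝓞 K) : K) / embK (μ : K)) =
          E1 (embK ((rp u * y0 : 𝓞 K) : K) / embK (μ : K)) := by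
        refine trv_congr hM.ne ?_
        have e7 : pk * (rp u * y0) - rp u * y0 = (pk - 1) * (rp u * y0) := by ring
        rw [e7]
        exact h1.mul_right _
      show Om * φ (lamQ (sm L' (rp u) J')) = _
      rw [e2, e6, e5]
      field_simp
    · rw [if_neg hu, if_neg hu, map_zero]
      ring
  rw [Finset.sum_congr rfl fun u _ => e1 u, ← Finset.mul_sum]
  rw [trv_shift res (fun v => (embK (μ : K))⁻¹ *
      E1 (embK ((rp v : 𝓞 K) : K) / embK (μ : K))) u0 g]

end

end

end Pool.Agent.Lib.MP_1a91b9_nuE
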