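import Pool.Agent.Lib.MP_1a91b9_nuE.Dl1
import Pool.Agent.Lib.MP_1a91b9_nuX.DG.Vt

/-!
# The vanishing theorem over `F` from the unit property
-/

set_option autoImplicit false

namespace Pool.Agent.Lib.MP_1a91b9_nuE

variable [Pool.Agent.Lib.MP_1a91b9_nuT.CD]

open NumberField IsDedekindDomain WeierstrassCurve Pool.Agent.Lib.MP_1a91b9_nuT
open Pool.Agent.Lib.MP_1a91b9_nuX
open Pool.Agent.Lib.MP_1a91b9_nuX.DB Pool.Agent.Lib.MP_1a91b9_nuX.DG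
open Pool.Agent.Lib.MP_1a91b9_nuG (up)

noncomputable section

variable [HC] {μ : 𝓞 K} {H : Subgroup (CU μ)} {F L' : Type} [Field F]
  [NumberField F] [Algebra K F] [Field L'] [NumberField L'] [Algebra K L'] [Algebra F L']
  [IsScalarTower K F L'] [DecidableEq L'] {J' : Pt L'} (hAB : AB H F L' J')
include hAB

theorem vt_unit (hM : Md μ) {ϖ : 𝓞 K} {ℓ q : ℕ} (h : PD ϖ ℓ q)
    (hμ : (Ideal.absNorm (Ideal.span {μ})).Coprime ℓ) (hcu : ¬ ℓ ∣ Nat.card (U H))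
    (hDT : DT ϖ F)
    (hna : ∀ v : HeightOneSpectrum (𝓞 F), algebraMap (𝓞 K) (𝓞 F) μ ∈ v.asIdeal →
      up HC.f F ∉ v.asIdeal → IsCoprime (psi F v.asIdeal - 1) (ℓ : 𝓞 K))
    (hU : AN.UnitProp ℓ Om F) : VT ϖ ℓ F := by
  have hℓ := h.hl
  have h2 : ℓ ≠ 2 := by
    have := h.five
    omega
  obtain ⟨fp, n, hn, h1, hnℓ⟩ := exists_fp1 hAB.ne hℓ h2 hμ
  let _ : FP := fp
  have hn' : (pk : 𝓞 K) = (n : 𝓞 K) := hn
  have h1' : μ ∣ (pk : 𝓞 K) - 1 := h1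
  have hk : ¬ μ ∣ (pk : 𝓞 K) := by
    intro hd
    apply hM.not_unit
    have h3 := dvd_sub hd h1'
    rw [sub_sub_cancel] at h3
    exact isUnit_of_dvd_one h3
  have hcw : CW ℓ μ := by
    intro hd
    rw [← Ideal.span_singleton_mul_span_singleton, map_mul, hn', absNorm_natK] at hd
    rcases hℓ.dvd_mul.1 hd with h3 | h3
    · exact (Nat.Prime.coprime_iff_not_dvd hℓ).1 hμ.symm h3
    · have h4 := hℓ.dvd_of_dvd_pow h3
      exact hℓ.one_lt.ne' (Nat.dvd_one.1 ((Nat.dvd_add_right h4).1 hnℓ))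
  have hco : IsCoprime (ℓ : 𝓞 K) μ :=
    (IsCoprime.of_isCoprime_of_dvd_left (hcw.copK hℓ) (dvd_mul_right _ _)).symm
  have hunr := unrF hAB hℓ h.good hco
  refine vtG hAB hk h hcw hcu hunr hDT fun v hv => ?_
  have hvl : v.valuation F (algebraMap (𝓞 F) F ((ℓ : ℕ) : 𝓞 F)) < 1 := by
    obtain ⟨c, hc⟩ := h.dvd
    have e : algebraMap (𝓞 F) F ((ℓ : ℕ) : 𝓞 F) =
        algebraMap K F (ϖ : K) * algebraMap K F (c : K) := by
      rw [← map_mul]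
      have e1 : ((ϖ * c : 𝓞 K) : K) = (ϖ : K) * (c : K) := map_mul _ _ _
      rw [← e1, ← hc]
      have e2 : (((ℓ : ℕ) : 𝓞 K) : K) = (ℓ : K) := map_natCast _ _
      rw [e2, map_natCast, map_natCast]
    rw [e, map_mul]
    exact mul_lt_one_of_lt_of_le hv (v_alg_le (v.valuation F) c)
  exact dL_unit hAB hM hℓ h2 hμ hn' h1' hnℓ hna hU v ((v.valuation_lt_one_iff_mem _).1 hvl)

end

end Pool.Agent.Lib.MP_1a91b9_nuE
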